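import Mathlib

set_option autoImplicit false

namespace Pool.Agent.H242R3.DualA

open Subgroup

variable {H : Type} [Group H]

/-- abstract chase: the Fano relations force squares of elements of `C` into `K` -/
theorem fano_chase (A B C AB AC BC ABC K : Subgroup H)
    [A.Normal] [B.Normal] [C.Normal] [AB.Normal] [AC.Normal] [BC.Normal] [ABC.Normal] [K.Normal]
    (h1 : C ≤ A ⊔ AC) (h2 : A ≤ B ⊔ AB) (h3 : (AB ⊔ AC) ⊓ (B ⊔ C) ≤ BC) (h4 : AB ≤ ABC ⊔ C)
    (h5 : (ABC ⊔ B) ⊓ (A ⊔ C) ≤ AC) (h6 : AC ⊓ C ≤ K) (h7 : (A ⊔ ABC) ⊓ (B ⊔ C) ≤ BC)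
    (h8 : BC ⊓ C ≤ K) (h9 : B ⊓ C ≤ K) (h10 : K ≤ BC) :
    ∀ c ∈ C, c * c ∈ K := by
  intro c hc
  -- a with a * c ∈ AC
  obtain ⟨a', ha', s, hs, e1⟩ := mem_sup_of_normal_left.1 (h1 hc)
  obtain ⟨a, ha, hac⟩ : ∃ a ∈ A, a * c ∈ AC :=
    ⟨a'⁻¹, A.inv_mem ha', by rw [← e1]; simpa using hs⟩
  -- b with a * b ∈ AB
  have h2' : A ≤ AB ⊔ B := by rw [sup_comm]; exact h2
  obtain ⟨s', hs', b', hb', e2⟩ := mem_sup_of_normal_left.1 (h2' ha)
  obtain ⟨b, hb, hab⟩ : ∃ b ∈ B, a * b ∈ AB :=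
    ⟨b'⁻¹, B.inv_mem hb', by rw [← e2]; simpa using hs'⟩
  -- b⁻¹ c ∈ BC
  have r1 : b⁻¹ * c ∈ BC := by
    apply h3
    refine ⟨?_, ?_⟩
    · have : b⁻¹ * c = (a * b)⁻¹ * (a * c) := by group
      rw [this]
      exact mul_mem_sup (AB.inv_mem hab) hac
    · exact mul_mem_sup (B.inv_mem hb) hc
  -- c'
  obtain ⟨t, ht, c'', hc'', e3⟩ := mem_sup_of_normal_left.1 (h4 hab)
  obtain ⟨c', hc', habc⟩ : ∃ c' ∈ C, a * b * c' ∈ ABC :=
    ⟨c''⁻¹, C.inv_mem hc'', by rw [← e3]; simpa using ht⟩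
  have r2 : a * c' ∈ AC := by
    apply h5
    refine ⟨?_, mul_mem_sup ha hc'⟩
    have : a * c' = (a * b * c') * (c'⁻¹ * b⁻¹ * c') := by group
    rw [this]
    refine mul_mem_sup habc ?_
    have := Normal.conj_mem (inferInstance : B.Normal) b⁻¹ (B.inv_mem hb) c'⁻¹
    simpa using this
  have r3 : c⁻¹ * c' ∈ K := by
    apply h6
    refine ⟨?_, C.mul_mem (C.inv_mem hc) hc'⟩
    have : c⁻¹ * c' = (a * c)⁻¹ * (a * c') := by group
    rw [this]
    exact AC.mul_mem (AC.inv_mem hac) r2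
  have r4 : b * c' ∈ BC := by
    apply h7
    refine ⟨?_, mul_mem_sup hb hc'⟩
    have : b * c' = a⁻¹ * (a * b * c') := by group
    rw [this]
    exact mul_mem_sup (A.inv_mem ha) habc
  have r5 : b * c ∈ BC := by
    have : b * c = (b * c') * (c⁻¹ * c')⁻¹ := by group
    rw [this]
    exact BC.mul_mem r4 (h10 (K.inv_mem r3))
  have r6 : b * c * b⁻¹ * c⁻¹ ∈ K := by
    apply h9
    refine ⟨?_, ?_⟩
    · have : b * c * b⁻¹ * c⁻¹ = b * (c * b⁻¹ * c⁻¹) := by group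
      rw [this]
      exact B.mul_mem hb (Normal.conj_mem inferInstance _ (B.inv_mem hb) c)
    · exact C.mul_mem (Normal.conj_mem inferInstance _ hc b) (C.inv_mem hc)
  apply h8
  refine ⟨?_, C.mul_mem hc hc⟩
  have : c * c = (b * c * b⁻¹ * c⁻¹)⁻¹ * ((b * c) * (b⁻¹ * c)) := by group
  rw [this]
  exact BC.mul_mem (h10 (K.inv_mem r6)) (BC.mul_mem r5 r1)

theorem sq_sup (A B K : Subgroup H) [A.Normal] [B.Normal] [K.Normal]
    (hAB : A ⊓ B ≤ K) (hA : ∀ a ∈ A, a * a ∈ K) (hB : ∀ b ∈ B, b * b ∈ K) :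
    ∀ x ∈ A ⊔ B, x * x ∈ K := by
  intro x hx
  obtain ⟨a, ha, b, hb, rfl⟩ := mem_sup_of_normal_left.1 hx
  have r : a⁻¹ * b * a * b⁻¹ ∈ K := by
    apply hAB
    refine ⟨?_, ?_⟩
    · have : a⁻¹ * b * a * b⁻¹ = a⁻¹ * (b * a * b⁻¹) := by group
      rw [this]
      exact A.mul_mem (A.inv_mem ha) (Normal.conj_mem inferInstance _ ha b)
    · have := Normal.conj_mem (inferInstance : B.Normal) b hb a⁻¹
      rw [inv_inv] at this
      exact B.mul_mem this (B.inv_mem hb)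
  have : a * b * (a * b) = (a * a) * (a⁻¹ * b * a * b⁻¹) * (b * b) := by group
  rw [this]
  exact K.mul_mem (K.mul_mem (hA a ha) r) (hB b hb)

/-- the plane over `F₂` -/
abbrev F := ZMod 2
abbrev W := Fin 3 → F

/-- A dual embedding of the subspace lattice of `F₂³` into normal subgroups forces exponent two. -/
theorem fano_dual (χ : Submodule F W → Subgroup H) (hn : ∀ T, (χ T).Normal)
    (hsup : ∀ S T, χ (S ⊔ T) = χ S ⊓ χ T) (hinf : ∀ S T, χ (S ⊓ T) = χ S ⊔ χ T)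
    (f1 f2 f3 : W →ₗ[F] F) (hs : ∀ x y z : F, ∃ v, f1 v = x ∧ f2 v = y ∧ f3 v = z) :
    ∀ c ∈ χ (LinearMap.ker f3), c * c ∈ χ ⊤ := by
  have anti : ∀ S T, S ≤ T → χ T ≤ χ S := by
    intro S T h
    have := hsup S T
    rw [sup_eq_right.2 h] at this
    rw [this]; exact inf_le_left
  have h2 : (2 : F) = 0 := rfl
  haveI := hn
  refine fano_chase (χ (LinearMap.ker f1)) (χ (LinearMap.ker f2)) (χ (LinearMap.ker f3))
    (χ (LinearMap.ker (f1 + f2))) (χ (LinearMap.ker (f1 + f3))) (χ (LinearMap.ker (f2 + f3)))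
    (χ (LinearMap.ker (f1 + f2 + f3))) (χ ⊤) ?_ ?_ ?_ ?_ ?_ ?_ ?_ ?_ ?_ ?_
  · rw [← hinf]; apply anti
    rintro v ⟨h1, h3⟩
    simp only [SetLike.mem_coe, LinearMap.mem_ker, LinearMap.add_apply] at *
    linear_combination h3 - h1
  · rw [← hinf]; apply anti
    rintro v ⟨h1, h3⟩
    simp only [SetLike.mem_coe, LinearMap.mem_ker, LinearMap.add_apply] at *
    linear_combination h3 - h1
  · rw [← hinf, ← hinf, ← hsup]; apply anti
    intro v hv
    obtain ⟨y, h1, h3, h4⟩ := hs (f2 v) (f2 v) (f2 v)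
    rw [Submodule.mem_sup]
    refine ⟨y, ⟨?_, ?_⟩, v - y, ⟨?_, ?_⟩, by abel⟩ <;>
      simp only [SetLike.mem_coe, LinearMap.mem_ker, LinearMap.add_apply, map_sub] at *
    · rw [h1, h3]; linear_combination (f2 v) * h2
    · rw [h1, h4]; linear_combination (f2 v) * h2
    · rw [h3]; ring
    · rw [h4]; linear_combination hv - (f2 v) * h2
  · rw [← hinf]; apply anti
    rintro v ⟨h1, h3⟩
    simp only [SetLike.mem_coe, LinearMap.mem_ker, LinearMap.add_apply] at *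
    linear_combination h1 - h3
  · rw [← hinf, ← hinf, ← hsup]; apply anti
    intro v hv
    obtain ⟨y, h1, h3, h4⟩ := hs (f1 v) 0 (f3 v)
    rw [Submodule.mem_sup]
    refine ⟨y, ⟨?_, ?_⟩, v - y, ⟨?_, ?_⟩, by abel⟩ <;>
      simp only [SetLike.mem_coe, LinearMap.mem_ker, LinearMap.add_apply, map_sub] at *
    · rw [h1, h3, h4]; linear_combination hv
    · exact h3
    · rw [h1]; ring
    · rw [h4]; ring
  · rw [← hsup]; apply anti
    intro v _
    obtain ⟨y, h1, h3, h4⟩ := hs (- f3 v) 0 (f3 v)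
    rw [Submodule.mem_sup]
    refine ⟨y, ?_, v - y, ?_, by abel⟩ <;>
      simp only [SetLike.mem_coe, LinearMap.mem_ker, LinearMap.add_apply, map_sub] at *
    · rw [h1, h4]; ring
    · rw [h4]; ring
  · rw [← hinf, ← hinf, ← hsup]; apply anti
    intro v hv
    obtain ⟨y, h1, h3, h4⟩ := hs 0 (f2 v) (f3 v)
    rw [Submodule.mem_sup]
    refine ⟨y, ⟨?_, ?_⟩, v - y, ⟨?_, ?_⟩, by abel⟩ <;>
      simp only [SetLike.mem_coe, LinearMap.mem_ker, LinearMap.add_apply, map_sub] at *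
    · exact h1
    · rw [h1, h3, h4]; linear_combination hv
    · rw [h3]; ring
    · rw [h4]; ring
  · rw [← hsup]; apply anti
    intro v _
    obtain ⟨y, h1, h3, h4⟩ := hs 0 (- f3 v) (f3 v)
    rw [Submodule.mem_sup]
    refine ⟨y, ?_, v - y, ?_, by abel⟩ <;>
      simp only [SetLike.mem_coe, LinearMap.mem_ker, LinearMap.add_apply, map_sub] at *
    · rw [h3, h4]; ring
    · rw [h4]; ring
  · rw [← hsup]; apply anti
    intro v _
    obtain ⟨y, h1, h3, h4⟩ := hs 0 0 (f3 v)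
    rw [Submodule.mem_sup]
    refine ⟨y, ?_, v - y, ?_, by abel⟩ <;>
      simp only [SetLike.mem_coe, LinearMap.mem_ker, LinearMap.add_apply, map_sub] at *
    · exact h3
    · rw [h4]; ring
  · exact anti _ _ le_top

theorem fano_dual_top (χ : Submodule F W → Subgroup H) (hn : ∀ T, (χ T).Normal)
    (hsup : ∀ S T, χ (S ⊔ T) = χ S ⊓ χ T) (hinf : ∀ S T, χ (S ⊓ T) = χ S ⊔ χ T) :
    ∀ x ∈ χ ⊥, x * x ∈ χ ⊤ := by
  haveI := hn
  have anti : ∀ S T, S ≤ T → χ T ≤ χ S := by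
    intro S T h
    have := hsup S T
    rw [sup_eq_right.2 h] at this
    rw [this]; exact inf_le_left
  let p : Fin 3 → (W →ₗ[F] F) := fun i => LinearMap.proj i
  have hp : ∀ i v, p i v = v i := fun i v => rfl
  have q3 := fano_dual χ hn hsup hinf (p 0) (p 1) (p 2)
    (fun x y z => ⟨![x, y, z], by simp [hp], by simp [hp], by simp [hp]⟩)
  have q2 := fano_dual χ hn hsup hinf (p 0) (p 2) (p 1)
    (fun x y z => ⟨![x, z, y], by simp [hp], by simp [hp], by simp [hp]⟩)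
  have q1 := fano_dual χ hn hsup hinf (p 2) (p 1) (p 0)
    (fun x y z => ⟨![z, y, x], by simp [hp], by simp [hp], by simp [hp]⟩)
  have e12 : χ (LinearMap.ker (p 0)) ⊓ χ (LinearMap.ker (p 1)) ≤ χ ⊤ := by
    rw [← hsup]; apply anti
    intro v _
    rw [Submodule.mem_sup]
    refine ⟨![0, v 1, 0], by simp [hp], ![v 0, 0, v 2], by simp [hp], ?_⟩
    funext i; fin_cases i <;> simp
  have s12 := sq_sup _ _ _ e12 q1 q2
  have e123 : (χ (LinearMap.ker (p 0)) ⊔ χ (LinearMap.ker (p 1))) ⊓ χ (LinearMap.ker (p 2)) ≤ χ ⊤ := by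
    rw [← hinf, ← hsup]; apply anti
    intro v _
    rw [Submodule.mem_sup]
    refine ⟨![0, 0, v 2], ⟨by simp [hp], by simp [hp]⟩, ![v 0, v 1, 0], by simp [hp], ?_⟩
    funext i; fin_cases i <;> simp
  have s123 := sq_sup _ _ _ e123 s12 q3
  intro x hx
  apply s123
  rw [← hinf, ← hinf]
  have : LinearMap.ker (p 0) ⊓ LinearMap.ker (p 1) ⊓ LinearMap.ker (p 2) ≤ ⊥ := by
    rintro v ⟨⟨h0, h1⟩, h2⟩
    simp only [SetLike.mem_coe, LinearMap.mem_ker, hp] at h0 h1 h2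
    simp only [Submodule.mem_bot]
    funext i; fin_cases i
    · exact h0
    · exact h1
    · exact h2
  exact anti _ _ this hx

/-- `(Z/4)³` -/
abbrev U := Fin 3 → ZMod 4

/-- the annihilator of `u` -/
def ann (u : U) : AddSubgroup U where
  carrier := {v | ∑ i, u i * v i = 0}
  add_mem' := by
    intro a b ha hb
    simp only [Set.mem_setOf_eq, Pi.add_apply, mul_add, Finset.sum_add_distrib] at *
    rw [ha, hb, add_zero]
  zero_mem' := by simp
  neg_mem' := by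
    intro a ha
    simp only [Set.mem_setOf_eq, Pi.neg_apply, mul_neg, Finset.sum_neg_distrib] at *
    rw [ha, neg_zero]

theorem mem_ann {u v : U} : v ∈ ann u ↔ u 0 * v 0 + u 1 * v 1 + u 2 * v 2 = 0 := by
  change (∑ i, u i * v i = 0) ↔ _
  rw [Fin.sum_univ_three]

/-- There is no dual embedding of the subgroup lattice of `(Z/4)³` into normal subgroups when
squares of the elements of the largest one lie in the smallest one. -/
theorem no_dual (ω : AddSubgroup U → Subgroup H) (hn : ∀ T, (ω T).Normal)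
    (hsup : ∀ S T, ω (S ⊔ T) = ω S ⊓ ω T) (hinf : ∀ S T, ω (S ⊓ T) = ω S ⊔ ω T)
    (hinj : Function.Injective ω) (hsq : ∀ x ∈ ω ⊥, x * x ∈ ω ⊤) : False := by
  haveI := hn
  have anti : ∀ S T, S ≤ T → ω T ≤ ω S := by
    intro S T h
    have := hsup S T
    rw [sup_eq_right.2 h] at this
    rw [this]; exact inf_le_left
  let Q : U → Subgroup H := fun u => ω (ann u)
  have hQn : ∀ u, (Q u).Normal := fun u => hn _
  have hKQ : ∀ u, ω ⊤ ≤ Q u := fun u => anti _ _ le_top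
  have hQX : ∀ u, Q u ≤ ω ⊥ := fun u => anti _ _ bot_le
  have key : Q ![1, 0, 0] ≤ Q ![2, 0, 0] := by
    intro a ha
    have i1 : Q ![1, 0, 0] ≤ Q ![0, 1, 1] ⊔ Q ![1, 1, 1] := by
      show ω _ ≤ ω _ ⊔ ω _
      rw [← hinf]; apply anti
      rintro v ⟨h1, h2⟩
      replace h1 := mem_ann.1 h1
      replace h2 := mem_ann.1 h2
      apply mem_ann.2
      simp at h1 h2 ⊢
      linear_combination h2 - h1
    have i2 : Q ![0, 1, 1] ≤ Q ![0, 1, 0] ⊔ Q ![0, 0, 1] := by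
      show ω _ ≤ ω _ ⊔ ω _
      rw [← hinf]; apply anti
      rintro v ⟨h1, h2⟩
      replace h1 := mem_ann.1 h1
      replace h2 := mem_ann.1 h2
      apply mem_ann.2
      simp at h1 h2 ⊢
      linear_combination h2 + h1
    have i3 : (Q ![1, 1, 1] ⊔ Q ![0, 0, 1]) ⊓ (Q ![1, 0, 0] ⊔ Q ![0, 1, 0]) ≤ Q ![1, 1, 0] := by
      show (ω _ ⊔ ω _) ⊓ (ω _ ⊔ ω _) ≤ ω _
      rw [← hinf, ← hinf, ← hsup]; apply anti
      intro v hv
      rw [mem_ann] at hv
      simp at hv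
      rw [AddSubgroup.mem_sup]
      refine ⟨![v 0, v 1, 0], ⟨?_, ?_⟩, ![0, 0, v 2], ⟨?_, ?_⟩, ?_⟩
      · apply mem_ann.2; simp; linear_combination hv
      · apply mem_ann.2; simp
      · apply mem_ann.2; simp
      · apply mem_ann.2; simp
      · funext i; fin_cases i <;> simp
    have i4 : (Q ![1, 1, 1] ⊔ Q ![0, 1, 0]) ⊓ (Q ![1, 0, 0] ⊔ Q ![0, 0, 1]) ≤ Q ![1, 0, 1] := by
      show (ω _ ⊔ ω _) ⊓ (ω _ ⊔ ω _) ≤ ω _
      rw [← hinf, ← hinf, ← hsup]; apply anti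
      intro v hv
      rw [mem_ann] at hv
      simp at hv
      rw [AddSubgroup.mem_sup]
      refine ⟨![v 0, 0, v 2], ⟨?_, ?_⟩, ![0, v 1, 0], ⟨?_, ?_⟩, ?_⟩
      · apply mem_ann.2; simp; linear_combination hv
      · apply mem_ann.2; simp
      · apply mem_ann.2; simp
      · apply mem_ann.2; simp
      · funext i; fin_cases i <;> simp
    have i5 : (Q ![1, 0, 1] ⊔ Q ![0, 1, 1]) ⊓ (Q ![1, 0, 0] ⊔ Q ![0, 1, 0]) ≤ Q ![1, -1, 0] := by
      show (ω _ ⊔ ω _) ⊓ (ω _ ⊔ ω _) ≤ ω _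
      rw [← hinf, ← hinf, ← hsup]; apply anti
      intro v hv
      rw [mem_ann] at hv
      simp at hv
      rw [AddSubgroup.mem_sup]
      refine ⟨![v 0, v 1, - v 0], ⟨?_, ?_⟩, ![0, 0, v 2 + v 0], ⟨?_, ?_⟩, ?_⟩
      · apply mem_ann.2; simp
      · apply mem_ann.2; simp; linear_combination -hv
      · apply mem_ann.2; simp
      · apply mem_ann.2; simp
      · funext i; fin_cases i <;> simp
    have i6 : Q ![1, 1, 0] ⊓ Q ![1, -1, 0] ≤ Q ![2, 2, 0] := by
      show ω _ ⊓ ω _ ≤ ω _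
      rw [← hsup]; apply anti
      intro v hv
      rw [mem_ann] at hv
      simp at hv
      have hex : ∀ a b : ZMod 4, 2 * a + 2 * b = 0 → ∃ y, 2 * y = a + b := by decide
      obtain ⟨y, hy⟩ := hex _ _ hv
      rw [AddSubgroup.mem_sup]
      refine ⟨![v 0 - y, y - v 0, 0], ?_, ![y, y, v 2], ?_, ?_⟩
      · apply mem_ann.2; simp
      · apply mem_ann.2; simp
      · funext i; fin_cases i
        · simp
        · simp; linear_combination hy
        · simp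
    have i7 : Q ![2, 2, 0] ≤ Q ![2, 0, 0] ⊔ Q ![0, 1, 0] := by
      show ω _ ≤ ω _ ⊔ ω _
      rw [← hinf]; apply anti
      rintro v ⟨h1, h2⟩
      replace h1 := mem_ann.1 h1
      replace h2 := mem_ann.1 h2
      apply mem_ann.2
      simp at h1 h2 ⊢
      linear_combination h1 + 2 * h2
    have i8 : (Q ![2, 0, 0] ⊔ Q ![0, 1, 0]) ⊓ Q ![1, 0, 0] ≤ Q ![2, 0, 0] := by
      show (ω _ ⊔ ω _) ⊓ ω _ ≤ ω _
      rw [← hinf, ← hsup]; apply anti
      intro v hv
      rw [mem_ann] at hv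
      simp at hv
      rw [AddSubgroup.mem_sup]
      refine ⟨![v 0, 0, 0], ⟨?_, ?_⟩, ![0, v 1, v 2], ?_, ?_⟩
      · apply mem_ann.2; simpa using hv
      · apply mem_ann.2; simp
      · apply mem_ann.2; simp
      · funext i; fin_cases i <;> simp
    haveI := hQn
    obtain ⟨s, hs, t, ht, e1⟩ := mem_sup_of_normal_left.1 (i1 ha)
    obtain ⟨b, hb, c, hc, e2⟩ := mem_sup_of_normal_left.1 (i2 ((Q _).inv_mem hs))
    -- b * c = s⁻¹ ∈ Q011, b * c * a = t ∈ Q111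
    have hbc : b * c ∈ Q ![0, 1, 1] := by rw [e2]; exact (Q _).inv_mem hs
    have hbca : b * c * a ∈ Q ![1, 1, 1] := by
      rw [e2, ← e1]; simpa using ht
    have habc : a * b * c ∈ Q ![1, 1, 1] := by
      have := Normal.conj_mem (hQn ![1, 1, 1]) _ hbca a
      have e : a * (b * c * a) * a⁻¹ = a * b * c := by group
      rwa [e] at this
    have r1 : a * b ∈ Q ![1, 1, 0] := by
      apply i3
      refine ⟨?_, mul_mem_sup ha hb⟩
      have : a * b = (a * b * c) * c⁻¹ := by group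
      rw [this]
      exact mul_mem_sup habc ((Q _).inv_mem hc)
    have r2 : a * c ∈ Q ![1, 0, 1] := by
      apply i4
      refine ⟨?_, mul_mem_sup ha hc⟩
      have : a * c = (a * b * c) * (c⁻¹ * b⁻¹ * c) := by group
      rw [this]
      refine mul_mem_sup habc ?_
      have := Normal.conj_mem (hQn ![0, 1, 0]) b⁻¹ ((Q _).inv_mem hb) c⁻¹
      simpa using this
    have r3 : c⁻¹ * b ∈ Q ![0, 1, 1] := by
      have h1 : c * c ∈ ω ⊤ := hsq c (hQX _ hc)
      have h2 : c * b ∈ Q ![0, 1, 1] := by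
        have := Normal.conj_mem (hQn ![0, 1, 1]) _ hbc c
        have e : c * (b * c) * c⁻¹ = c * b := by group
        rwa [e] at this
      have : c⁻¹ * b = (c * c)⁻¹ * (c * b) := by group
      rw [this]
      exact (Q _).mul_mem (hKQ _ ((ω ⊤).inv_mem h1)) h2
    have r4 : a * b ∈ Q ![1, -1, 0] := by
      apply i5
      refine ⟨?_, mul_mem_sup ha hb⟩
      have : a * b = (a * c) * (c⁻¹ * b) := by group
      rw [this]
      exact mul_mem_sup r2 r3
    have r5 : a * b ∈ Q ![2, 0, 0] ⊔ Q ![0, 1, 0] := i7 (i6 ⟨r1, r4⟩)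
    apply i8
    refine ⟨?_, ha⟩
    have : a = (a * b) * b⁻¹ := by group
    rw [this]
    exact Subgroup.mul_mem _ r5 (Subgroup.inv_mem _ (le_sup_right (a := Q ![2, 0, 0]) hb))
  have key2 : ω (ann ![1, 0, 0]) = ω (ann ![2, 0, 0]) := by
    apply le_antisymm key
    apply anti
    intro v hv
    rw [mem_ann] at *
    simp at *
    rw [hv]; simp
  have key3 := hinj key2
  have : (![2, 0, 0] : U) ∈ ann ![1, 0, 0] := by
    rw [key3, mem_ann]; decide
  rw [mem_ann] at this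
  revert this
  decide

end Pool.Agent.H242R3.DualA
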