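import Mathlib
import Pool.Agent.H242R3.DualA

set_option autoImplicit false

namespace Pool.Agent.H242R3.DualA

open Subgroup

/-- the class two group -/
@[ext] structure G where
  a1 : Fin 3 → ZMod 2
  a2 : Fin 3 → ZMod 2
  a3 : Fin 3 → ZMod 2
  c12 : Fin 3 → Fin 3 → ZMod 2
  c13 : Fin 3 → Fin 3 → ZMod 2
  c23 : Fin 3 → Fin 3 → ZMod 2

namespace G

instance : Mul G := ⟨fun x y => ⟨fun i => x.a1 i + y.a1 i, fun i => x.a2 i + y.a2 i,
  fun i => x.a3 i + y.a3 i,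
  fun i j => x.c12 i j + y.c12 i j + y.a1 i * x.a2 j,
  fun i j => x.c13 i j + y.c13 i j + y.a1 i * x.a3 j,
  fun i j => x.c23 i j + y.c23 i j + y.a2 i * x.a3 j⟩⟩

instance : One G := ⟨⟨fun _ => 0, fun _ => 0, fun _ => 0, fun _ _ => 0, fun _ _ => 0, fun _ _ => 0⟩⟩

instance : Inv G := ⟨fun x => ⟨fun i => -x.a1 i, fun i => - x.a2 i, fun i => - x.a3 i,
  fun i j => -x.c12 i j + x.a1 i * x.a2 j,
  fun i j => -x.c13 i j + x.a1 i * x.a3 j,
  fun i j => -x.c23 i j + x.a2 i * x.a3 j⟩⟩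

@[simp] theorem mul_a1 (x y : G) (i : Fin 3) : (x * y).a1 i = x.a1 i + y.a1 i := rfl
@[simp] theorem mul_a2 (x y : G) (i : Fin 3) : (x * y).a2 i = x.a2 i + y.a2 i := rfl
@[simp] theorem mul_a3 (x y : G) (i : Fin 3) : (x * y).a3 i = x.a3 i + y.a3 i := rfl
@[simp] theorem mul_c12 (x y : G) (i j : Fin 3) :
    (x * y).c12 i j = x.c12 i j + y.c12 i j + y.a1 i * x.a2 j := rfl
@[simp] theorem mul_c13 (x y : G) (i j : Fin 3) :
    (x * y).c13 i j = x.c13 i j + y.c13 i j + y.a1 i * x.a3 j := rfl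
@[simp] theorem mul_c23 (x y : G) (i j : Fin 3) :
    (x * y).c23 i j = x.c23 i j + y.c23 i j + y.a2 i * x.a3 j := rfl
@[simp] theorem one_a1 (i : Fin 3) : (1 : G).a1 i = 0 := rfl
@[simp] theorem one_a2 (i : Fin 3) : (1 : G).a2 i = 0 := rfl
@[simp] theorem one_a3 (i : Fin 3) : (1 : G).a3 i = 0 := rfl
@[simp] theorem one_c12 (i j : Fin 3) : (1 : G).c12 i j = 0 := rfl
@[simp] theorem one_c13 (i j : Fin 3) : (1 : G).c13 i j = 0 := rfl
@[simp] theorem one_c23 (i j : Fin 3) : (1 : G).c23 i j = 0 := rfl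
@[simp] theorem inv_a1 (x : G) (i : Fin 3) : (x⁻¹).a1 i = - x.a1 i := rfl
@[simp] theorem inv_a2 (x : G) (i : Fin 3) : (x⁻¹).a2 i = - x.a2 i := rfl
@[simp] theorem inv_a3 (x : G) (i : Fin 3) : (x⁻¹).a3 i = - x.a3 i := rfl
@[simp] theorem inv_c12 (x : G) (i j : Fin 3) :
    (x⁻¹).c12 i j = -x.c12 i j + x.a1 i * x.a2 j := rfl
@[simp] theorem inv_c13 (x : G) (i j : Fin 3) :
    (x⁻¹).c13 i j = -x.c13 i j + x.a1 i * x.a3 j := rfl
@[simp] theorem inv_c23 (x : G) (i j : Fin 3) :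
    (x⁻¹).c23 i j = -x.c23 i j + x.a2 i * x.a3 j := rfl

theorem ext6 {x y : G} (h1 : ∀ i, x.a1 i = y.a1 i) (h2 : ∀ i, x.a2 i = y.a2 i)
    (h3 : ∀ i, x.a3 i = y.a3 i) (h4 : ∀ i j, x.c12 i j = y.c12 i j)
    (h5 : ∀ i j, x.c13 i j = y.c13 i j) (h6 : ∀ i j, x.c23 i j = y.c23 i j) : x = y :=
  G.ext (funext h1) (funext h2) (funext h3) (funext fun i => funext (h4 i))
    (funext fun i => funext (h5 i)) (funext fun i => funext (h6 i))

instance : Group G := Group.ofLeftAxioms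
  (by intro a b c; apply ext6 <;> intros <;>
        simp only [mul_a1, mul_a2, mul_a3, mul_c12, mul_c13, mul_c23, inv_a1, inv_a2, inv_a3, inv_c12, inv_c13, inv_c23, one_a1, one_a2, one_a3, one_c12, one_c13, one_c23] <;> ring)
  (by intro a; apply ext6 <;> intros <;>
        simp only [mul_a1, mul_a2, mul_a3, mul_c12, mul_c13, mul_c23, inv_a1, inv_a2, inv_a3, inv_c12, inv_c13, inv_c23, one_a1, one_a2, one_a3, one_c12, one_c13, one_c23] <;> ring)
  (by intro a; apply ext6 <;> intros <;>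
        simp only [mul_a1, mul_a2, mul_a3, mul_c12, mul_c13, mul_c23, inv_a1, inv_a2, inv_a3, inv_c12, inv_c13, inv_c23, one_a1, one_a2, one_a3, one_c12, one_c13, one_c23] <;> ring)

theorem conj_c12 (x g : G) (i j : Fin 3) :
    (x * g * x⁻¹).c12 i j = g.c12 i j + g.a1 i * x.a2 j - x.a1 i * g.a2 j := by
  simp only [mul_a1, mul_a2, mul_a3, mul_c12, mul_c13, mul_c23, inv_a1, inv_a2, inv_a3, inv_c12, inv_c13, inv_c23, one_a1, one_a2, one_a3, one_c12, one_c13, one_c23]; ring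

theorem conj_c13 (x g : G) (i j : Fin 3) :
    (x * g * x⁻¹).c13 i j = g.c13 i j + g.a1 i * x.a3 j - x.a1 i * g.a3 j := by
  simp only [mul_a1, mul_a2, mul_a3, mul_c12, mul_c13, mul_c23, inv_a1, inv_a2, inv_a3, inv_c12, inv_c13, inv_c23, one_a1, one_a2, one_a3, one_c12, one_c13, one_c23]; ring

theorem conj_c23 (x g : G) (i j : Fin 3) :
    (x * g * x⁻¹).c23 i j = g.c23 i j + g.a2 i * x.a3 j - x.a2 i * g.a3 j := by
  simp only [mul_a1, mul_a2, mul_a3, mul_c12, mul_c13, mul_c23, inv_a1, inv_a2, inv_a3, inv_c12, inv_c13, inv_c23, one_a1, one_a2, one_a3, one_c12, one_c13, one_c23]; ring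

theorem conj_a1 (x g : G) (i : Fin 3) : (x * g * x⁻¹).a1 i = g.a1 i := by
  simp only [mul_a1, mul_a2, mul_a3, mul_c12, mul_c13, mul_c23, inv_a1, inv_a2, inv_a3, inv_c12, inv_c13, inv_c23, one_a1, one_a2, one_a3, one_c12, one_c13, one_c23]; ring
theorem conj_a2 (x g : G) (i : Fin 3) : (x * g * x⁻¹).a2 i = g.a2 i := by
  simp only [mul_a1, mul_a2, mul_a3, mul_c12, mul_c13, mul_c23, inv_a1, inv_a2, inv_a3, inv_c12, inv_c13, inv_c23, one_a1, one_a2, one_a3, one_c12, one_c13, one_c23]; ring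
theorem conj_a3 (x g : G) (i : Fin 3) : (x * g * x⁻¹).a3 i = g.a3 i := by
  simp only [mul_a1, mul_a2, mul_a3, mul_c12, mul_c13, mul_c23, inv_a1, inv_a2, inv_a3, inv_c12, inv_c13, inv_c23, one_a1, one_a2, one_a3, one_c12, one_c13, one_c23]; ring

/-- `V₁(T)` -/
def V1 (T : Submodule (ZMod 2) (Fin 3 → ZMod 2)) : Subgroup G where
  carrier := {g | (fun i => g.a1 i) ∈ T ∧ (∀ i, g.a2 i = 0) ∧ (∀ i, g.a3 i = 0) ∧
    (∀ k, (fun i => g.c12 i k) ∈ T) ∧ (∀ k, (fun i => g.c13 i k) ∈ T) ∧ (∀ i j, g.c23 i j = 0)}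
  mul_mem' := by
    rintro x y ⟨h1, h2, h3, h4, h5, h6⟩ ⟨k1, k2, k3, k4, k5, k6⟩
    refine ⟨?_, ?_, ?_, ?_, ?_, ?_⟩
    · exact T.add_mem h1 k1
    · intro i; simp [h2, k2]
    · intro i; simp [h3, k3]
    · intro k
      have := T.add_mem (h4 k) (k4 k)
      simp only [mul_c12, h2, mul_zero, add_zero]
      exact this
    · intro k
      have := T.add_mem (h5 k) (k5 k)
      simp only [mul_c13, h3, mul_zero, add_zero]
      exact this
    · intro i j; simp [h6, k6, h3]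
  one_mem' := by
    refine ⟨T.zero_mem, fun _ => rfl, fun _ => rfl, fun _ => T.zero_mem, fun _ => T.zero_mem,
      fun _ _ => rfl⟩
  inv_mem' := by
    rintro x ⟨h1, h2, h3, h4, h5, h6⟩
    refine ⟨?_, ?_, ?_, ?_, ?_, ?_⟩
    · exact T.neg_mem h1
    · intro i; simp [h2]
    · intro i; simp [h3]
    · intro k
      have := T.neg_mem (h4 k)
      simp only [inv_c12, h2, mul_zero, add_zero]
      exact this
    · intro k
      have := T.neg_mem (h5 k)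
      simp only [inv_c13, h3, mul_zero, add_zero]
      exact this
    · intro i j; simp [h6, h2]

/-- `V₂(T)` -/
def V2 (T : Submodule (ZMod 2) (Fin 3 → ZMod 2)) : Subgroup G where
  carrier := {g | (∀ i, g.a1 i = 0) ∧ (fun i => g.a2 i) ∈ T ∧ (∀ i, g.a3 i = 0) ∧
    (∀ k, (fun i => g.c12 k i) ∈ T) ∧ (∀ i j, g.c13 i j = 0) ∧ (∀ k, (fun i => g.c23 i k) ∈ T)}
  mul_mem' := by
    rintro x y ⟨h1, h2, h3, h4, h5, h6⟩ ⟨k1, k2, k3, k4, k5, k6⟩
    refine ⟨?_, ?_, ?_, ?_, ?_, ?_⟩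
    · intro i; simp [h1, k1]
    · exact T.add_mem h2 k2
    · intro i; simp [h3, k3]
    · intro k
      have := T.add_mem (h4 k) (k4 k)
      simp only [mul_c12, k1, zero_mul, add_zero]
      exact this
    · intro i j; simp [h5, k5, k1]
    · intro k
      have := T.add_mem (h6 k) (k6 k)
      simp only [mul_c23, h3, mul_zero, add_zero]
      exact this
  one_mem' := by
    refine ⟨fun _ => rfl, T.zero_mem, fun _ => rfl, fun _ => T.zero_mem,
      fun _ _ => rfl, fun _ => T.zero_mem⟩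
  inv_mem' := by
    rintro x ⟨h1, h2, h3, h4, h5, h6⟩
    refine ⟨?_, ?_, ?_, ?_, ?_, ?_⟩
    · intro i; simp [h1]
    · exact T.neg_mem h2
    · intro i; simp [h3]
    · intro k
      have := T.neg_mem (h4 k)
      simp only [inv_c12, h1, zero_mul, add_zero]
      exact this
    · intro i j; simp [h5, h1]
    · intro k
      have := T.neg_mem (h6 k)
      simp only [inv_c23, h3, mul_zero, add_zero]
      exact this

/-- `V₃(T)` -/
def V3 (T : Submodule (ZMod 2) (Fin 3 → ZMod 2)) : Subgroup G where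
  carrier := {g | (∀ i, g.a1 i = 0) ∧ (∀ i, g.a2 i = 0) ∧ (fun i => g.a3 i) ∈ T ∧
    (∀ i j, g.c12 i j = 0) ∧ (∀ k, (fun i => g.c13 k i) ∈ T) ∧ (∀ k, (fun i => g.c23 k i) ∈ T)}
  mul_mem' := by
    rintro x y ⟨h1, h2, h3, h4, h5, h6⟩ ⟨k1, k2, k3, k4, k5, k6⟩
    refine ⟨?_, ?_, ?_, ?_, ?_, ?_⟩
    · intro i; simp [h1, k1]
    · intro i; simp [h2, k2]
    · exact T.add_mem h3 k3
    · intro i j; simp [h4, k4, k1]
    · intro k
      have := T.add_mem (h5 k) (k5 k)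
      simp only [mul_c13, k1, zero_mul, add_zero]
      exact this
    · intro k
      have := T.add_mem (h6 k) (k6 k)
      simp only [mul_c23, k2, zero_mul, add_zero]
      exact this
  one_mem' := by
    refine ⟨fun _ => rfl, fun _ => rfl, T.zero_mem, fun _ _ => rfl, fun _ => T.zero_mem,
      fun _ => T.zero_mem⟩
  inv_mem' := by
    rintro x ⟨h1, h2, h3, h4, h5, h6⟩
    refine ⟨?_, ?_, ?_, ?_, ?_, ?_⟩
    · intro i; simp [h1]
    · intro i; simp [h2]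
    · exact T.neg_mem h3
    · intro i j; simp [h4, h1]
    · intro k
      have := T.neg_mem (h5 k)
      simp only [inv_c13, h1, zero_mul, add_zero]
      exact this
    · intro k
      have := T.neg_mem (h6 k)
      simp only [inv_c23, h2, zero_mul, add_zero]
      exact this

theorem mem_V1 {T : Submodule (ZMod 2) (Fin 3 → ZMod 2)} {g : G} : g ∈ V1 T ↔
    (fun i => g.a1 i) ∈ T ∧ (∀ i, g.a2 i = 0) ∧ (∀ i, g.a3 i = 0) ∧
    (∀ k, (fun i => g.c12 i k) ∈ T) ∧ (∀ k, (fun i => g.c13 i k) ∈ T) ∧ (∀ i j, g.c23 i j = 0) :=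
  Iff.rfl

theorem mem_V2 {T : Submodule (ZMod 2) (Fin 3 → ZMod 2)} {g : G} : g ∈ V2 T ↔
    (∀ i, g.a1 i = 0) ∧ (fun i => g.a2 i) ∈ T ∧ (∀ i, g.a3 i = 0) ∧
    (∀ k, (fun i => g.c12 k i) ∈ T) ∧ (∀ i j, g.c13 i j = 0) ∧ (∀ k, (fun i => g.c23 i k) ∈ T) :=
  Iff.rfl

theorem mem_V3 {T : Submodule (ZMod 2) (Fin 3 → ZMod 2)} {g : G} : g ∈ V3 T ↔
    (∀ i, g.a1 i = 0) ∧ (∀ i, g.a2 i = 0) ∧ (fun i => g.a3 i) ∈ T ∧
    (∀ i j, g.c12 i j = 0) ∧ (∀ k, (fun i => g.c13 k i) ∈ T) ∧ (∀ k, (fun i => g.c23 k i) ∈ T) :=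
  Iff.rfl

theorem V1_normal (T : Submodule (ZMod 2) (Fin 3 → ZMod 2)) : (V1 T).Normal := by
  constructor
  rintro g ⟨h1, h2, h3, h4, h5, h6⟩ x
  rw [mem_V1]
  simp only [conj_a1, conj_a2, conj_a3, conj_c12, conj_c13, conj_c23, h2, h3, h6,
    mul_zero, zero_mul, sub_zero, add_zero]
  refine ⟨h1, fun _ => trivial, fun _ => trivial, ?_, ?_, fun _ _ => trivial⟩
  · intro k
    have := T.add_mem (h4 k) (T.smul_mem (x.a2 k) h1)
    convert this using 1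
    funext i
    simp [mul_comm]
  · intro k
    have := T.add_mem (h5 k) (T.smul_mem (x.a3 k) h1)
    convert this using 1
    funext i
    simp [mul_comm]

theorem V2_normal (T : Submodule (ZMod 2) (Fin 3 → ZMod 2)) : (V2 T).Normal := by
  constructor
  rintro g ⟨h1, h2, h3, h4, h5, h6⟩ x
  rw [mem_V2]
  simp only [conj_a1, conj_a2, conj_a3, conj_c12, conj_c13, conj_c23, h1, h3, h5,
    mul_zero, zero_mul, sub_zero, add_zero]
  refine ⟨fun _ => trivial, h2, fun _ => trivial, ?_, fun _ _ => trivial, ?_⟩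
  · intro k
    have := T.sub_mem (h4 k) (T.smul_mem (x.a1 k) h2)
    exact this
  · intro k
    have := T.add_mem (h6 k) (T.smul_mem (x.a3 k) h2)
    convert this using 1
    funext i
    simp [mul_comm]

theorem V3_normal (T : Submodule (ZMod 2) (Fin 3 → ZMod 2)) : (V3 T).Normal := by
  constructor
  rintro g ⟨h1, h2, h3, h4, h5, h6⟩ x
  rw [mem_V3]
  simp only [conj_a1, conj_a2, conj_a3, conj_c12, conj_c13, conj_c23, h1, h2, h4,
    mul_zero, zero_mul, sub_zero, add_zero]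
  refine ⟨fun _ => trivial, fun _ => trivial, h3, fun _ _ => trivial, ?_, ?_⟩
  · intro k
    exact T.sub_mem (h5 k) (T.smul_mem (x.a1 k) h3)
  · intro k
    exact T.sub_mem (h6 k) (T.smul_mem (x.a2 k) h3)

theorem V1_inf (S T : Submodule (ZMod 2) (Fin 3 → ZMod 2)) : V1 (S ⊓ T) = V1 S ⊓ V1 T := by
  ext g
  rw [Subgroup.mem_inf, mem_V1, mem_V1, mem_V1]
  simp only [Submodule.mem_inf]
  constructor
  · rintro ⟨⟨a, b⟩, c, d, e, f, h⟩
    exact ⟨⟨a, c, d, fun k => (e k).1, fun k => (f k).1, h⟩,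
      ⟨b, c, d, fun k => (e k).2, fun k => (f k).2, h⟩⟩
  · rintro ⟨⟨a, c, d, e, f, h⟩, ⟨a', c', d', e', f', h'⟩⟩
    exact ⟨⟨a, a'⟩, c, d, fun k => ⟨e k, e' k⟩, fun k => ⟨f k, f' k⟩, h⟩

theorem V2_inf (S T : Submodule (ZMod 2) (Fin 3 → ZMod 2)) : V2 (S ⊓ T) = V2 S ⊓ V2 T := by
  ext g
  rw [Subgroup.mem_inf, mem_V2, mem_V2, mem_V2]
  simp only [Submodule.mem_inf]
  constructor
  · rintro ⟨c, ⟨a, b⟩, d, e, h, f⟩
    exact ⟨⟨c, a, d, fun k => (e k).1, h, fun k => (f k).1⟩,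
      ⟨c, b, d, fun k => (e k).2, h, fun k => (f k).2⟩⟩
  · rintro ⟨⟨c, a, d, e, h, f⟩, ⟨c', a', d', e', h', f'⟩⟩
    exact ⟨c, ⟨a, a'⟩, d, fun k => ⟨e k, e' k⟩, h, fun k => ⟨f k, f' k⟩⟩

theorem V3_inf (S T : Submodule (ZMod 2) (Fin 3 → ZMod 2)) : V3 (S ⊓ T) = V3 S ⊓ V3 T := by
  ext g
  rw [Subgroup.mem_inf, mem_V3, mem_V3, mem_V3]
  simp only [Submodule.mem_inf]
  constructor
  · rintro ⟨c, d, ⟨a, b⟩, h, e, f⟩
    exact ⟨⟨c, d, a, h, fun k => (e k).1, fun k => (f k).1⟩,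
      ⟨c, d, b, h, fun k => (e k).2, fun k => (f k).2⟩⟩
  · rintro ⟨⟨c, d, a, h, e, f⟩, ⟨c', d', a', h', e', f'⟩⟩
    exact ⟨c, d, ⟨a, a'⟩, h, fun k => ⟨e k, e' k⟩, fun k => ⟨f k, f' k⟩⟩

theorem V1_mono {S T : Submodule (ZMod 2) (Fin 3 → ZMod 2)} (h : S ≤ T) : V1 S ≤ V1 T := by
  rintro g ⟨h1, h2, h3, h4, h5, h6⟩
  exact ⟨h h1, h2, h3, fun k => h (h4 k), fun k => h (h5 k), h6⟩

theorem V2_mono {S T : Submodule (ZMod 2) (Fin 3 → ZMod 2)} (h : S ≤ T) : V2 S ≤ V2 T := by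
  rintro g ⟨h1, h2, h3, h4, h5, h6⟩
  exact ⟨h1, h h2, h3, fun k => h (h4 k), h5, fun k => h (h6 k)⟩

theorem V3_mono {S T : Submodule (ZMod 2) (Fin 3 → ZMod 2)} (h : S ≤ T) : V3 S ≤ V3 T := by
  rintro g ⟨h1, h2, h3, h4, h5, h6⟩
  exact ⟨h1, h2, h h3, h4, fun k => h (h5 k), fun k => h (h6 k)⟩

theorem V1_sup (S T : Submodule (ZMod 2) (Fin 3 → ZMod 2)) : V1 (S ⊔ T) = V1 S ⊔ V1 T := by
  apply le_antisymm
  · rintro g ⟨h1, h2, h3, h4, h5, h6⟩
    obtain ⟨s1, hs1, t1, ht1, e1⟩ := Submodule.mem_sup.1 h1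
    choose s4 hs4 t4 ht4 e4 using fun k => Submodule.mem_sup.1 (h4 k)
    choose s5 hs5 t5 ht5 e5 using fun k => Submodule.mem_sup.1 (h5 k)
    have hx : (⟨s1, fun _ => 0, fun _ => 0, fun i k => s4 k i, fun i k => s5 k i, fun _ _ => 0⟩ : G)
        ∈ V1 S := ⟨hs1, fun _ => rfl, fun _ => rfl, hs4, hs5, fun _ _ => rfl⟩
    have hy : (⟨t1, fun _ => 0, fun _ => 0, fun i k => t4 k i, fun i k => t5 k i, fun _ _ => 0⟩ : G)
        ∈ V1 T := ⟨ht1, fun _ => rfl, fun _ => rfl, ht4, ht5, fun _ _ => rfl⟩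
    have := mul_mem_sup hx hy
    convert this using 1
    apply ext6
    · intro i; exact (congrFun e1 i).symm
    · intro i; simp [h2]
    · intro i; simp [h3]
    · intro i k; simp; exact (congrFun (e4 k) i).symm
    · intro i k; simp; exact (congrFun (e5 k) i).symm
    · intro i k; simp [h6]
  · exact sup_le (V1_mono le_sup_left) (V1_mono le_sup_right)

theorem V2_sup (S T : Submodule (ZMod 2) (Fin 3 → ZMod 2)) : V2 (S ⊔ T) = V2 S ⊔ V2 T := by
  apply le_antisymm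
  · rintro g ⟨h1, h2, h3, h4, h5, h6⟩
    obtain ⟨s1, hs1, t1, ht1, e1⟩ := Submodule.mem_sup.1 h2
    choose s4 hs4 t4 ht4 e4 using fun k => Submodule.mem_sup.1 (h4 k)
    choose s5 hs5 t5 ht5 e5 using fun k => Submodule.mem_sup.1 (h6 k)
    have hx : (⟨fun _ => 0, s1, fun _ => 0, fun k i => s4 k i, fun _ _ => 0, fun i k => s5 k i⟩ : G)
        ∈ V2 S := ⟨fun _ => rfl, hs1, fun _ => rfl, hs4, fun _ _ => rfl, hs5⟩
    have hy : (⟨fun _ => 0, t1, fun _ => 0, fun k i => t4 k i, fun _ _ => 0, fun i k => t5 k i⟩ : G)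
        ∈ V2 T := ⟨fun _ => rfl, ht1, fun _ => rfl, ht4, fun _ _ => rfl, ht5⟩
    have := mul_mem_sup hx hy
    convert this using 1
    apply ext6
    · intro i; simp [h1]
    · intro i; exact (congrFun e1 i).symm
    · intro i; simp [h3]
    · intro k i; simp; exact (congrFun (e4 k) i).symm
    · intro i k; simp [h5]
    · intro i k; simp; exact (congrFun (e5 k) i).symm
  · exact sup_le (V2_mono le_sup_left) (V2_mono le_sup_right)

theorem V3_sup (S T : Submodule (ZMod 2) (Fin 3 → ZMod 2)) : V3 (S ⊔ T) = V3 S ⊔ V3 T := by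
  apply le_antisymm
  · rintro g ⟨h1, h2, h3, h4, h5, h6⟩
    obtain ⟨s1, hs1, t1, ht1, e1⟩ := Submodule.mem_sup.1 h3
    choose s4 hs4 t4 ht4 e4 using fun k => Submodule.mem_sup.1 (h5 k)
    choose s5 hs5 t5 ht5 e5 using fun k => Submodule.mem_sup.1 (h6 k)
    have hx : (⟨fun _ => 0, fun _ => 0, s1, fun _ _ => 0, fun k i => s4 k i, fun k i => s5 k i⟩ : G)
        ∈ V3 S := ⟨fun _ => rfl, fun _ => rfl, hs1, fun _ _ => rfl, hs4, hs5⟩
    have hy : (⟨fun _ => 0, fun _ => 0, t1, fun _ _ => 0, fun k i => t4 k i, fun k i => t5 k i⟩ : G)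
        ∈ V3 T := ⟨fun _ => rfl, fun _ => rfl, ht1, fun _ _ => rfl, ht4, ht5⟩
    have := mul_mem_sup hx hy
    convert this using 1
    apply ext6
    · intro i; simp [h1]
    · intro i; simp [h2]
    · intro i; exact (congrFun e1 i).symm
    · intro i k; simp [h4]
    · intro k i; simp; exact (congrFun (e4 k) i).symm
    · intro k i; simp; exact (congrFun (e5 k) i).symm
  · exact sup_le (V3_mono le_sup_left) (V3_mono le_sup_right)

theorem V1_bot : V1 ⊥ = ⊥ := by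
  rw [eq_bot_iff]
  rintro g ⟨h1, h2, h3, h4, h5, h6⟩
  rw [Subgroup.mem_bot]
  apply ext6
  · intro i; exact congrFun ((Submodule.mem_bot _).1 h1) i
  · exact h2
  · exact h3
  · intro i k; exact congrFun ((Submodule.mem_bot _).1 (h4 k)) i
  · intro i k; exact congrFun ((Submodule.mem_bot _).1 (h5 k)) i
  · exact h6

theorem V2_bot : V2 ⊥ = ⊥ := by
  rw [eq_bot_iff]
  rintro g ⟨h1, h2, h3, h4, h5, h6⟩
  rw [Subgroup.mem_bot]
  apply ext6
  · exact h1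
  · intro i; exact congrFun ((Submodule.mem_bot _).1 h2) i
  · exact h3
  · intro k i; exact congrFun ((Submodule.mem_bot _).1 (h4 k)) i
  · exact h5
  · intro i k; exact congrFun ((Submodule.mem_bot _).1 (h6 k)) i

theorem V3_bot : V3 ⊥ = ⊥ := by
  rw [eq_bot_iff]
  rintro g ⟨h1, h2, h3, h4, h5, h6⟩
  rw [Subgroup.mem_bot]
  apply ext6
  · exact h1
  · exact h2
  · intro i; exact congrFun ((Submodule.mem_bot _).1 h3) i
  · exact h4
  · intro k i; exact congrFun ((Submodule.mem_bot _).1 (h5 k)) i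
  · intro k i; exact congrFun ((Submodule.mem_bot _).1 (h6 k)) i

theorem V_top : V1 ⊤ ⊔ V2 ⊤ ⊔ V3 ⊤ = ⊤ := by
  rw [eq_top_iff]
  intro g _
  have h1 : (⟨g.a1, fun _ => 0, fun _ => 0, g.c12, g.c13, fun _ _ => 0⟩ : G) ∈ V1 ⊤ :=
    ⟨trivial, fun _ => rfl, fun _ => rfl, fun _ => trivial, fun _ => trivial, fun _ _ => rfl⟩
  have h2 : (⟨fun _ => 0, g.a2, fun _ => 0, fun _ _ => 0, fun _ _ => 0, g.c23⟩ : G) ∈ V2 ⊤ :=
    ⟨fun _ => rfl, trivial, fun _ => rfl, fun _ => trivial, fun _ _ => rfl, fun _ => trivial⟩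
  have h3 : (⟨fun _ => 0, fun _ => 0, g.a3, fun _ _ => 0, fun _ _ => 0, fun _ _ => 0⟩ : G) ∈ V3 ⊤ :=
    ⟨fun _ => rfl, fun _ => rfl, trivial, fun _ _ => rfl, fun _ => trivial, fun _ => trivial⟩
  have := mul_mem_sup (mul_mem_sup h1 h2) h3
  convert this using 1
  apply ext6 <;> intros <;> simp

/-- the sum of the three matrices -/
def s (g : G) (i j : Fin 3) : ZMod 2 := g.c12 i j + g.c13 i j + g.c23 i j

/-- low and high bit to `Z/4` -/
def hb (v t : ZMod 2) : ZMod 4 := (v.val : ZMod 4) + 2 * (t.val : ZMod 4)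

theorem hb_add : ∀ v w t u : ZMod 2, hb (v + w) (t + u + w * v) = hb v t + hb w u := by decide

theorem hb_neg : ∀ v t : ZMod 2, hb (-v) (-t + v * v) = - hb v t := by decide

theorem hb_zero : hb 0 0 = 0 := by decide

theorem hb_surj : ∀ r : ZMod 4, ∃ v t : ZMod 2, hb v t = r := by decide

def θ (g : G) : U := fun i => hb (g.a1 i) (s g i i)

/-- membership in `M` -/
def InM (g : G) : Prop := (∀ i, g.a2 i = g.a1 i) ∧ (∀ i, g.a3 i = g.a1 i) ∧
  ∀ i j, i ≠ j → s g i j + s g j i = g.a1 i * g.a1 j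

theorem two_eq : (2 : ZMod 2) = 0 := rfl

theorem InM.mul {g h : G} (hg : InM g) (hh : InM h) : InM (g * h) ∧ θ (g * h) = θ g + θ h := by
  obtain ⟨g2, g3, gs⟩ := hg
  obtain ⟨h2, h3, hs⟩ := hh
  have es : ∀ i j, s (g * h) i j = s g i j + s h i j + h.a1 i * g.a1 j := by
    intro i j
    simp only [s, mul_c12, mul_c13, mul_c23, g2, g3, h2]
    linear_combination (h.a1 i * g.a1 j) * two_eq
  refine ⟨⟨?_, ?_, ?_⟩, ?_⟩
  · intro i; simp [g2, h2]
  · intro i; simp [g3, h3]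
  · intro i j hij
    rw [es, es, mul_a1, mul_a1]
    linear_combination gs i j hij + hs i j hij
  · funext i
    show hb _ _ = hb _ _ + hb _ _
    rw [es, mul_a1, hb_add]

theorem InM.inv {g : G} (hg : InM g) : InM g⁻¹ ∧ θ g⁻¹ = - θ g := by
  obtain ⟨g2, g3, gs⟩ := hg
  have es : ∀ i j, s g⁻¹ i j = - s g i j + g.a1 i * g.a1 j := by
    intro i j
    simp only [s, inv_c12, inv_c13, inv_c23, g2, g3]
    linear_combination (g.a1 i * g.a1 j) * two_eq
  refine ⟨⟨?_, ?_, ?_⟩, ?_⟩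
  · intro i; simp [g2]
  · intro i; simp [g3]
  · intro i j hij
    rw [es, es, inv_a1, inv_a1]
    linear_combination -(gs i j hij)
  · funext i
    show hb _ _ = - hb _ _
    rw [es, inv_a1, hb_neg]

theorem InM.one : InM (1 : G) ∧ θ (1 : G) = 0 := by
  refine ⟨⟨fun _ => rfl, fun _ => rfl, ?_⟩, ?_⟩
  · intro i j _; simp [s]
  · funext i
    show hb _ _ = 0
    simp [s, hb_zero]

theorem InM.conj {g : G} (hg : InM g) (x : G) : InM (x * g * x⁻¹) ∧ θ (x * g * x⁻¹) = θ g := by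
  obtain ⟨g2, g3, gs⟩ := hg
  have es : ∀ i j, s (x * g * x⁻¹) i j = s g i j + (g.a1 i * x.a2 j - x.a2 i * g.a1 j) := by
    intro i j
    simp only [s, conj_c12, conj_c13, conj_c23, g2, g3]
    linear_combination (g.a1 i * x.a3 j - x.a1 i * g.a1 j) * two_eq
  refine ⟨⟨?_, ?_, ?_⟩, ?_⟩
  · intro i; rw [conj_a1, conj_a2]; exact g2 i
  · intro i; rw [conj_a1, conj_a3]; exact g3 i
  · intro i j hij
    rw [es, es, conj_a1, conj_a1]
    linear_combination gs i j hij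
  · funext i
    show hb _ _ = hb _ _
    rw [es, conj_a1]
    congr 1
    ring

/-- `N(R)` -/
def N (R : AddSubgroup U) : Subgroup G where
  carrier := {g | InM g ∧ θ g ∈ R}
  mul_mem' := by
    rintro x y ⟨h1, h2⟩ ⟨k1, k2⟩
    obtain ⟨m1, m2⟩ := h1.mul k1
    exact ⟨m1, by rw [m2]; exact R.add_mem h2 k2⟩
  one_mem' := ⟨InM.one.1, by rw [InM.one.2]; exact R.zero_mem⟩
  inv_mem' := by
    rintro x ⟨h1, h2⟩
    obtain ⟨m1, m2⟩ := h1.inv
    exact ⟨m1, by rw [m2]; exact R.neg_mem h2⟩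

theorem mem_N {R : AddSubgroup U} {g : G} : g ∈ N R ↔ InM g ∧ θ g ∈ R := Iff.rfl

theorem N_normal (R : AddSubgroup U) : (N R).Normal := by
  constructor
  rintro g ⟨h1, h2⟩ x
  obtain ⟨m1, m2⟩ := h1.conj x
  exact ⟨m1, by rw [m2]; exact h2⟩

theorem θ_surj (r : U) : ∃ g : G, InM g ∧ θ g = r := by
  choose v t hvt using fun i => hb_surj (r i)
  refine ⟨⟨v, v, v, fun i j => if i = j then t i else if i < j then v i * v j else 0,
    fun _ _ => 0, fun _ _ => 0⟩, ⟨fun _ => rfl, fun _ => rfl, ?_⟩, ?_⟩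
  · intro i j hij
    simp only [s, add_zero]
    rw [if_neg hij, if_neg (Ne.symm hij)]
    rcases lt_or_gt_of_ne hij with h | h
    · rw [if_pos h, if_neg (not_lt.2 h.le)]; ring
    · rw [if_neg (not_lt.2 h.le), if_pos h]; ring
  · funext i
    show hb _ _ = _
    simp only [s, add_zero, if_true]
    exact hvt i

theorem N_inf (R S : AddSubgroup U) : N (R ⊓ S) = N R ⊓ N S := by
  ext g
  rw [Subgroup.mem_inf, mem_N, mem_N, mem_N, AddSubgroup.mem_inf]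
  tauto

theorem N_mono {R S : AddSubgroup U} (h : R ≤ S) : N R ≤ N S := fun _ hg => ⟨hg.1, h hg.2⟩

theorem N_sup (R S : AddSubgroup U) : N (R ⊔ S) = N R ⊔ N S := by
  apply le_antisymm
  · rintro g ⟨h1, h2⟩
    obtain ⟨r, hr, t, ht, e⟩ := AddSubgroup.mem_sup.1 h2
    obtain ⟨k, hk, hkt⟩ := θ_surj t
    have k1 : k ∈ N S := ⟨hk, by rw [hkt]; exact ht⟩
    obtain ⟨m1, m2⟩ := hk.inv
    obtain ⟨m3, m4⟩ := h1.mul m1
    have k2 : g * k⁻¹ ∈ N R := ⟨m3, by rw [m4, m2, ← e, hkt]; simpa using hr⟩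
    have := mul_mem_sup k2 k1
    simpa using this
  · exact sup_le (N_mono le_sup_left) (N_mono le_sup_right)

theorem N_inj : Function.Injective N := by
  intro R S h
  ext r
  obtain ⟨g, hg, hgr⟩ := θ_surj r
  have : g ∈ N R ↔ g ∈ N S := by rw [h]
  rw [mem_N, mem_N, hgr] at this
  simpa [hg] using this

end G

/-- the lattice of normal subgroups -/
abbrev L : Type := {N : Subgroup G // N.Normal}

instance : Lattice L := Subtype.lattice
  (fun {x y} (hx : x.Normal) (hy : y.Normal) => @Subgroup.sup_normal G _ x y hx hy)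
  (fun {x y} (hx : x.Normal) (hy : y.Normal) => @Subgroup.normal_inf_normal G _ x y hx hy)

theorem L_sup_coe (x y : L) : ((x ⊔ y : L) : Subgroup G) = (x : Subgroup G) ⊔ y := rfl
theorem L_inf_coe (x y : L) : ((x ⊓ y : L) : Subgroup G) = (x : Subgroup G) ⊓ y := rfl

theorem main_contra (H : Type) [Group H] (g : Lᵒᵈ → Subgroup H) (ginj : Function.Injective g)
    (gn : ∀ x, (g x).Normal) (gs : ∀ x y, g (x ⊔ y) = g x ⊔ g y)
    (gi : ∀ x y, g (x ⊓ y) = g x ⊓ g y) : False := by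
  let ψ : L → Subgroup H := fun x => g (OrderDual.toDual x)
  have ψn : ∀ x, (ψ x).Normal := fun x => gn _
  have ψs : ∀ x y : L, ψ (x ⊔ y) = ψ x ⊓ ψ y := fun x y => gi _ _
  have ψi : ∀ x y : L, ψ (x ⊓ y) = ψ x ⊔ ψ y := fun x y => gs _ _
  have ψinj : Function.Injective ψ := fun x y h => OrderDual.toDual.injective (ginj h)
  let v1 : Submodule (ZMod 2) (Fin 3 → ZMod 2) → L := fun T => ⟨G.V1 T, G.V1_normal T⟩
  let v2 : Submodule (ZMod 2) (Fin 3 → ZMod 2) → L := fun T => ⟨G.V2 T, G.V2_normal T⟩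
  let v3 : Submodule (ZMod 2) (Fin 3 → ZMod 2) → L := fun T => ⟨G.V3 T, G.V3_normal T⟩
  let n : AddSubgroup U → L := fun R => ⟨G.N R, G.N_normal R⟩
  have v1s : ∀ S T, v1 (S ⊔ T) = v1 S ⊔ v1 T := fun S T => Subtype.ext (G.V1_sup S T)
  have v2s : ∀ S T, v2 (S ⊔ T) = v2 S ⊔ v2 T := fun S T => Subtype.ext (G.V2_sup S T)
  have v3s : ∀ S T, v3 (S ⊔ T) = v3 S ⊔ v3 T := fun S T => Subtype.ext (G.V3_sup S T)
  have v1i : ∀ S T, v1 (S ⊓ T) = v1 S ⊓ v1 T := fun S T => Subtype.ext (G.V1_inf S T)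
  have v2i : ∀ S T, v2 (S ⊓ T) = v2 S ⊓ v2 T := fun S T => Subtype.ext (G.V2_inf S T)
  have v3i : ∀ S T, v3 (S ⊓ T) = v3 S ⊓ v3 T := fun S T => Subtype.ext (G.V3_inf S T)
  have ns : ∀ S T, n (S ⊔ T) = n S ⊔ n T := fun S T => Subtype.ext (G.N_sup S T)
  have ni : ∀ S T, n (S ⊓ T) = n S ⊓ n T := fun S T => Subtype.ext (G.N_inf S T)
  have b12 : v2 ⊥ = v1 ⊥ := Subtype.ext (G.V2_bot.trans G.V1_bot.symm)
  have b13 : v3 ⊥ = v1 ⊥ := Subtype.ext (G.V3_bot.trans G.V1_bot.symm)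
  have f1 := fano_dual_top (fun T => ψ (v1 T)) (fun T => ψn _)
    (fun S T => by rw [v1s, ψs]) (fun S T => by rw [v1i, ψi])
  have f2 := fano_dual_top (fun T => ψ (v2 T)) (fun T => ψn _)
    (fun S T => by rw [v2s, ψs]) (fun S T => by rw [v2i, ψi])
  have f3 := fano_dual_top (fun T => ψ (v3 T)) (fun T => ψn _)
    (fun S T => by rw [v3s, ψs]) (fun S T => by rw [v3i, ψi])
  have anti : ∀ x y : L, x ≤ y → ψ y ≤ ψ x := by
    intro x y h
    have := ψs x y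
    rw [sup_eq_right.2 h] at this
    rw [this]; exact inf_le_left
  apply no_dual (fun R => ψ (n R)) (fun T => ψn _)
    (fun S T => by rw [ns, ψs]) (fun S T => by rw [ni, ψi])
  · intro R S h
    have := ψinj h
    exact G.N_inj (congrArg Subtype.val this)
  · intro x hx
    have hx1 : x ∈ ψ (v1 ⊥) := by
      refine anti (v1 ⊥) (n ⊥) ?_ hx
      show G.V1 ⊥ ≤ G.N ⊥
      rw [G.V1_bot]; exact bot_le
    have s1 := f1 x hx1
    have s2 := f2 x (by show x ∈ ψ (v2 ⊥); rw [b12]; exact hx1)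
    have s3 := f3 x (by show x ∈ ψ (v3 ⊥); rw [b13]; exact hx1)
    have s123 : x * x ∈ ψ (v1 ⊤ ⊔ v2 ⊤ ⊔ v3 ⊤) := by
      rw [ψs, ψs]; exact ⟨⟨s1, s2⟩, s3⟩
    refine anti (n ⊤) (v1 ⊤ ⊔ v2 ⊤ ⊔ v3 ⊤) ?_ s123
    show G.N ⊤ ≤ G.V1 ⊤ ⊔ G.V2 ⊤ ⊔ G.V3 ⊤
    rw [G.V_top]; exact le_top

end Pool.Agent.H242R3.DualA
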