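import Mathlib

set_option autoImplicit false

namespace Pool.Agent.H242R3.HomeoLattice

/-- Order automorphisms of the real line. -/
def E : Type := ℝ ≃o ℝ

namespace E

/-- evaluation -/
def ev (f : E) : ℝ → ℝ := (show ℝ ≃o ℝ from f)

theorem ev_mono (f : E) : StrictMono (ev f) := (show ℝ ≃o ℝ from f).strictMono

theorem ev_surj (f : E) : Function.Surjective (ev f) := (show ℝ ≃o ℝ from f).surjective

theorem ev_cont (f : E) : Continuous (ev f) := (show ℝ ≃o ℝ from f).continuous

theorem ext' {f g : E} (h : ∀ x, ev f x = ev g x) : f = g := by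
  apply OrderIso.ext
  funext x
  exact h x

/-- build an element from a strictly monotone surjection -/
noncomputable def mk (f : ℝ → ℝ) (h : StrictMono f) (hs : Function.Surjective f) : E :=
  StrictMono.orderIsoOfSurjective f h hs

@[simp] theorem ev_mk (f : ℝ → ℝ) (h : StrictMono f) (hs : Function.Surjective f) (x : ℝ) :
    ev (mk f h hs) x = f x := rfl

instance : Group E := inferInstanceAs (Group (ℝ ≃o ℝ))

@[simp] theorem ev_mul (f g : E) (x : ℝ) : ev (f * g) x = ev f (ev g x) := rfl

@[simp] theorem ev_one (x : ℝ) : ev (1 : E) x = x := rfl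

@[simp] theorem ev_inv_ev (f : E) (x : ℝ) : ev f⁻¹ (ev f x) = x := by
  rw [← ev_mul]; simp

@[simp] theorem ev_ev_inv (f : E) (x : ℝ) : ev f (ev f⁻¹ x) = x := by
  rw [← ev_mul]; simp

theorem ev_inj {f : E} {x y : ℝ} : ev f x = ev f y ↔ x = y := (ev_mono f).injective.eq_iff

theorem ev_lt {f : E} {x y : ℝ} : ev f x < ev f y ↔ x < y := (ev_mono f).lt_iff_lt

theorem ev_le {f : E} {x y : ℝ} : ev f x ≤ ev f y ↔ x ≤ y := (ev_mono f).le_iff_le

instance : PartialOrder E where
  le f g := ∀ x, ev f x ≤ ev g x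
  le_refl f x := le_rfl
  le_trans f g h h1 h2 x := (h1 x).trans (h2 x)
  le_antisymm f g h1 h2 := ext' fun x => le_antisymm (h1 x) (h2 x)

theorem le_def {f g : E} : f ≤ g ↔ ∀ x, ev f x ≤ ev g x := Iff.rfl

noncomputable def supE (f g : E) : E :=
  mk (fun x => max (ev f x) (ev g x))
    (fun x y h => max_lt_max (ev_mono f h) (ev_mono g h))
    (fun y => by
      rcases le_total (ev f⁻¹ y) (ev g⁻¹ y) with h | h
      · refine ⟨ev f⁻¹ y, ?_⟩
        have : ev g (ev f⁻¹ y) ≤ ev g (ev g⁻¹ y) := ev_le.2 h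
        simp only [ev_ev_inv] at this ⊢
        exact max_eq_left this
      · refine ⟨ev g⁻¹ y, ?_⟩
        have : ev f (ev g⁻¹ y) ≤ ev f (ev f⁻¹ y) := ev_le.2 h
        simp only [ev_ev_inv] at this ⊢
        exact max_eq_right this)

noncomputable def infE (f g : E) : E :=
  mk (fun x => min (ev f x) (ev g x))
    (fun x y h => min_lt_min (ev_mono f h) (ev_mono g h))
    (fun y => by
      rcases le_total (ev f⁻¹ y) (ev g⁻¹ y) with h | h
      · refine ⟨ev g⁻¹ y, ?_⟩
        have : ev f (ev f⁻¹ y) ≤ ev f (ev g⁻¹ y) := ev_le.2 h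
        simp only [ev_ev_inv] at this ⊢
        exact min_eq_right this
      · refine ⟨ev f⁻¹ y, ?_⟩
        have : ev g (ev g⁻¹ y) ≤ ev g (ev f⁻¹ y) := ev_le.2 h
        simp only [ev_ev_inv] at this ⊢
        exact min_eq_left this)

noncomputable instance : Lattice E where
  sup := supE
  inf := infE
  le_sup_left f g x := le_max_left _ _
  le_sup_right f g x := le_max_right _ _
  sup_le f g h h1 h2 x := max_le (h1 x) (h2 x)
  inf_le_left f g x := min_le_left _ _
  inf_le_right f g x := min_le_right _ _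
  le_inf f g h h1 h2 x := le_min (h1 x) (h2 x)

@[simp] theorem ev_sup (f g : E) (x : ℝ) : ev (f ⊔ g) x = max (ev f x) (ev g x) := rfl
@[simp] theorem ev_inf (f g : E) (x : ℝ) : ev (f ⊓ g) x = min (ev f x) (ev g x) := rfl

/-- affine maps `x ↦ a x + b` -/
noncomputable def aff (a b : ℝ) (ha : 0 < a) : E :=
  mk (fun x => a * x + b) (fun x y h => by
    have := mul_lt_mul_of_pos_left h ha
    simpa using this)
    (fun y => ⟨(y - b) / a, by
      show a * ((y - b) / a) + b = y
      field_simp; ring⟩)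

@[simp] theorem ev_aff (a b : ℝ) (ha : 0 < a) (x : ℝ) : ev (aff a b ha) x = a * x + b := rfl

/-- gluing two elements that agree at `x₀` -/
noncomputable def glue (f g : E) (x₀ : ℝ) (h : ev f x₀ = ev g x₀) : E :=
  mk (fun x => if x ≤ x₀ then ev f x else ev g x)
    (by
      intro x y hxy
      show (if x ≤ x₀ then ev f x else ev g x) < (if y ≤ x₀ then ev f y else ev g y)
      by_cases hx : x ≤ x₀
      · by_cases hy : y ≤ x₀
        · simp only [hx, hy, if_true]; exact ev_mono f hxy
        · simp only [hx, hy, if_true, if_false]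
          push Not at hy
          calc ev f x ≤ ev f x₀ := ev_le.2 hx
            _ = ev g x₀ := h
            _ < ev g y := ev_lt.2 hy
      · have hy : ¬ y ≤ x₀ := fun hy => hx (hxy.le.trans hy)
        simp only [hx, hy, if_false]; exact ev_mono g hxy)
    (by
      intro y
      rcases le_or_gt y (ev f x₀) with hy | hy
      · refine ⟨ev f⁻¹ y, ?_⟩
        have : ev f⁻¹ y ≤ x₀ := by
          have := (ev_le (f := f⁻¹)).2 hy
          simpa using this
        simp [this]
      · refine ⟨ev g⁻¹ y, ?_⟩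
        have : ¬ ev g⁻¹ y ≤ x₀ := by
          push Not
          rw [h] at hy
          have := (ev_lt (f := g⁻¹)).2 hy
          simpa using this
        simp [this])

theorem ev_glue (f g : E) (x₀ : ℝ) (h : ev f x₀ = ev g x₀) (x : ℝ) :
    ev (glue f g x₀ h) x = if x ≤ x₀ then ev f x else ev g x := rfl

/-- 2-transitivity -/
theorem two_trans {a b c d : ℝ} (hab : a < b) (hcd : c < d) :
    ∃ f : E, ev f a = c ∧ ev f b = d := by
  have h1 : 0 < (d - c) / (b - a) := div_pos (sub_pos.2 hcd) (sub_pos.2 hab)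
  refine ⟨aff ((d - c) / (b - a)) (c - (d - c) / (b - a) * a) h1, ?_, ?_⟩
  · simp
  · have : b - a ≠ 0 := (sub_pos.2 hab).ne'
    simp only [ev_aff]
    field_simp
    ring

/-- the interval `[f,g]` splits nontrivially -/
def Split (f g : E) : Prop := ∃ c d : E, c ⊓ d = f ∧ c ⊔ d = g ∧ c ≠ f ∧ d ≠ f

theorem Split.le {f g : E} (h : Split f g) : f ≤ g := by
  obtain ⟨c, d, h1, h2, -, -⟩ := h
  rw [← h1, ← h2]
  exact inf_le_left.trans le_sup_left

theorem Split.touch {f g : E} (h : Split f g) : ∃ x, ev f x = ev g x := by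
  by_contra hne
  push Not at hne
  have hle := h.le
  obtain ⟨c, d, h1, h2, hc, hd⟩ := h
  have key : ∀ x, (ev c x = ev f x ∧ ev d x = ev g x) ∨ (ev c x = ev g x ∧ ev d x = ev f x) := by
    intro x
    have e1 : min (ev c x) (ev d x) = ev f x := by rw [← ev_inf, h1]
    have e2 : max (ev c x) (ev d x) = ev g x := by rw [← ev_sup, h2]
    rcases le_total (ev c x) (ev d x) with h | h
    · rw [min_eq_left h] at e1; rw [max_eq_right h] at e2
      exact Or.inl ⟨e1, e2⟩
    · rw [min_eq_right h] at e1; rw [max_eq_left h] at e2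
      exact Or.inr ⟨e2, e1⟩
  have hclA : IsClosed {x | ev c x = ev f x} := isClosed_eq (ev_cont c) (ev_cont f)
  have hclB : IsClosed {x | ev c x = ev g x} := isClosed_eq (ev_cont c) (ev_cont g)
  have hcompl : {x | ev c x = ev f x}ᶜ = {x | ev c x = ev g x} := by
    ext x
    simp only [Set.mem_compl_iff, Set.mem_setOf_eq]
    constructor
    · intro hx
      rcases key x with h | h
      · exact absurd h.1 hx
      · exact h.1
    · intro hx hx'
      exact hne x (hx'.symm.trans hx)
  have hclopen : IsClopen {x | ev c x = ev f x} :=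
    ⟨hclA, by rw [← isClosed_compl_iff, hcompl]; exact hclB⟩
  rcases isClopen_iff.1 hclopen with h | h
  · apply hd
    apply ext'
    intro x
    have : x ∉ {x | ev c x = ev f x} := by rw [h]; exact fun h => h
    rcases key x with h' | h'
    · exact absurd h'.1 this
    · exact h'.2
  · apply hc
    apply ext'
    intro x
    have : x ∈ {x | ev c x = ev f x} := by rw [h]; trivial
    exact this

/-- `f` and `g` touch exactly at the point `(x,y)`, and `f < g` elsewhere -/
def Tc (f g : E) (x y : ℝ) : Prop := ev f x = y ∧ ev g x = y ∧ ∀ t, t ≠ x → ev f t < ev g t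

theorem Tc.le {f g : E} {x y : ℝ} (h : Tc f g x y) : f ≤ g := by
  intro t
  by_cases ht : t = x
  · subst ht; rw [h.1, h.2.1]
  · exact (h.2.2 t ht).le

theorem Tc.split {f g : E} {x y : ℝ} (h : Tc f g x y) : Split f g := by
  obtain ⟨h1, h2, h3⟩ := h
  refine ⟨glue f g x (h1.trans h2.symm), glue g f x (h2.trans h1.symm), ?_, ?_, ?_, ?_⟩
  · apply ext'
    intro t
    rw [ev_inf, ev_glue, ev_glue]
    have hle := Tc.le ⟨h1, h2, h3⟩ t
    by_cases ht : t ≤ x
    · simp only [ht, if_true]; exact min_eq_left hle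
    · simp only [ht, if_false]; exact min_eq_right hle
  · apply ext'
    intro t
    rw [ev_sup, ev_glue, ev_glue]
    have hle := Tc.le ⟨h1, h2, h3⟩ t
    by_cases ht : t ≤ x
    · simp only [ht, if_true]; exact max_eq_right hle
    · simp only [ht, if_false]; exact max_eq_left hle
  · intro he
    have := congrArg (fun k => ev k (x + 1)) he
    simp only [ev_glue] at this
    have hx : ¬ (x + 1 ≤ x) := by linarith
    simp only [hx, if_false] at this
    have h' := h3 (x + 1) (by linarith)
    exact absurd this.symm h'.ne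
  · intro he
    have := congrArg (fun k => ev k (x - 1)) he
    simp only [ev_glue] at this
    have hx : (x - 1 ≤ x) := by linarith
    simp only [hx, if_true] at this
    have h' := h3 (x - 1) (by linarith)
    exact absurd this.symm h'.ne

/-- lattice-theoretic form of touching at exactly one point -/
def Q (f g : E) : Prop := Split f g ∧ ∀ f1 g1 f2 g2 : E, f1 ≤ f → g ≤ g1 → Split f1 g1 →
  f2 ≤ f → g ≤ g2 → Split f2 g2 → Split (f1 ⊓ f2) (g1 ⊔ g2)

theorem exists_wide {f g : E} (hle : f ≤ g) {x : ℝ} (hx : ev f x = ev g x) :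
    ∃ f1 g1 : E, f1 ≤ f ∧ g ≤ g1 ∧ Tc f1 g1 x (ev f x) := by
  have h2 : (0 : ℝ) < 2 := by norm_num
  refine ⟨f ⊓ (f * aff 2 (-x) h2), g ⊔ (g * aff 2 (-x) h2), inf_le_left, le_sup_left, ?_, ?_, ?_⟩
  · simp only [ev_inf, ev_mul, ev_aff]
    have : 2 * x + -x = x := by ring
    rw [this, min_self]
  · simp only [ev_sup, ev_mul, ev_aff]
    have : 2 * x + -x = x := by ring
    rw [this, max_self, hx]
  · intro t ht
    simp only [ev_inf, ev_sup, ev_mul, ev_aff]
    rcases lt_or_gt_of_ne ht with h | h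
    · have : ev f (2 * t + -x) < ev f t := ev_lt.2 (by linarith)
      calc min (ev f t) (ev f (2 * t + -x)) ≤ ev f (2 * t + -x) := min_le_right _ _
        _ < ev f t := this
        _ ≤ ev g t := hle t
        _ ≤ _ := le_max_left _ _
    · have : ev g t < ev g (2 * t + -x) := ev_lt.2 (by linarith)
      calc min (ev f t) (ev f (2 * t + -x)) ≤ ev f t := min_le_left _ _
        _ ≤ ev g t := hle t
        _ < ev g (2 * t + -x) := this
        _ ≤ _ := le_max_right _ _

theorem Q_iff {f g : E} : Q f g ↔ ∃ x y, Tc f g x y := by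
  constructor
  · rintro ⟨hs, h⟩
    obtain ⟨x, hx⟩ := hs.touch
    refine ⟨x, ev f x, rfl, hx.symm, ?_⟩
    intro t ht
    refine lt_of_le_of_ne (hs.le t) ?_
    intro hte
    obtain ⟨f1, g1, a1, a2, a3⟩ := exists_wide hs.le hx
    obtain ⟨f2, g2, b1, b2, b3⟩ := exists_wide hs.le hte
    have := h f1 g1 f2 g2 a1 a2 a3.split b1 b2 b3.split
    obtain ⟨z, hz⟩ := this.touch
    simp only [ev_inf, ev_sup] at hz
    by_cases hzx : z = x
    · subst hzx
      have hzt : z ≠ t := fun h => ht h.symm
      have h3 := b3.2.2 z hzt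
      have h4 : min (ev f1 z) (ev f2 z) ≤ ev f2 z := min_le_right _ _
      have h5 : ev g2 z ≤ max (ev g1 z) (ev g2 z) := le_max_right _ _
      linarith
    · have h3 := a3.2.2 z hzx
      have h4 : min (ev f1 z) (ev f2 z) ≤ ev f1 z := min_le_left _ _
      have h5 : ev g1 z ≤ max (ev g1 z) (ev g2 z) := le_max_left _ _
      linarith
  · rintro ⟨x, y, h⟩
    refine ⟨h.split, ?_⟩
    intro f1 g1 f2 g2 a1 a2 a3 b1 b2 b3
    have hA : ∀ f1 g1 : E, f1 ≤ f → g ≤ g1 → Split f1 g1 → ev f1 x = y ∧ ev g1 x = y := by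
      intro f1 g1 a1 a2 a3
      obtain ⟨z, hz⟩ := a3.touch
      by_cases hzx : z = x
      · subst hzx
        have h1 := a1 z
        have h2 := a2 z
        rw [h.1] at h1
        rw [h.2.1] at h2
        constructor <;> linarith
      · have h1 := a1 z
        have h2 := a2 z
        have h3 := h.2.2 z hzx
        linarith
    obtain ⟨p1, p2⟩ := hA f1 g1 a1 a2 a3
    obtain ⟨q1, q2⟩ := hA f2 g2 b1 b2 b3
    apply Tc.split (x := x) (y := y)
    refine ⟨?_, ?_, ?_⟩
    · rw [ev_inf, p1, q1, min_self]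
    · rw [ev_sup, p2, q2, max_self]
    · intro t ht
      rw [ev_inf, ev_sup]
      have h1 := a1 t
      have h2 := a2 t
      have h3 := h.2.2 t ht
      have h4 : min (ev f1 t) (ev f2 t) ≤ ev f1 t := min_le_left _ _
      have h5 : ev g1 t ≤ max (ev g1 t) (ev g2 t) := le_max_left _ _
      linarith

theorem Tc.pass {f g : E} {x y : ℝ} (h : Tc f g x y) (k : E) :
    ev k x = y ↔ Split (f ⊓ k) (g ⊔ k) := by
  constructor
  · intro hk
    apply Tc.split (x := x) (y := y)
    refine ⟨?_, ?_, ?_⟩
    · rw [ev_inf, h.1, hk, min_self]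
    · rw [ev_sup, h.2.1, hk, max_self]
    · intro t ht
      rw [ev_inf, ev_sup]
      have h3 := h.2.2 t ht
      have h4 : min (ev f t) (ev k t) ≤ ev f t := min_le_left _ _
      have h5 : ev g t ≤ max (ev g t) (ev k t) := le_max_left _ _
      linarith
  · intro hs
    obtain ⟨z, hz⟩ := hs.touch
    rw [ev_inf, ev_sup] at hz
    by_cases hzx : z = x
    · subst hzx
      rw [h.1, h.2.1] at hz
      rcases le_total y (ev k z) with h' | h'
      · rw [min_eq_left h', max_eq_right h'] at hz; exact hz.symm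
      · rw [min_eq_right h', max_eq_left h'] at hz; exact hz
    · have h3 := h.2.2 z hzx
      have h4 : min (ev f z) (ev k z) ≤ ev f z := min_le_left _ _
      have h5 : ev g z ≤ max (ev g z) (ev k z) := le_max_left _ _
      linarith

theorem exists_Tc (x y : ℝ) : ∃ f g : E, Tc f g x y := by
  have h1 : (0 : ℝ) < 1 := one_pos
  obtain ⟨f, g, -, -, h⟩ := exists_wide (le_refl (aff 1 (y - x) h1)) (x := x) rfl
  refine ⟨f, g, ?_⟩
  have : ev (aff 1 (y - x) h1) x = y := by simp
  rwa [this] at h

theorem split_map (φ : E ≃o E) {f g : E} : Split f g → Split (φ f) (φ g) := by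
  rintro ⟨c, d, h1, h2, h3, h4⟩
  refine ⟨φ c, φ d, ?_, ?_, ?_, ?_⟩
  · rw [← map_inf, h1]
  · rw [← map_sup, h2]
  · exact fun h => h3 (φ.injective h)
  · exact fun h => h4 (φ.injective h)

theorem split_map_iff (φ : E ≃o E) {f g : E} : Split (φ f) (φ g) ↔ Split f g := by
  constructor
  · intro h
    have := split_map φ.symm h
    simpa using this
  · exact split_map φ

theorem Q_map (φ : E ≃o E) {f g : E} (h : Q f g) : Q (φ f) (φ g) := by
  refine ⟨split_map φ h.1, ?_⟩
  intro f1 g1 f2 g2 a1 a2 a3 b1 b2 b3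
  have := h.2 (φ.symm f1) (φ.symm g1) (φ.symm f2) (φ.symm g2)
    (by rw [← φ.le_iff_le]; simpa using a1) (by rw [← φ.le_iff_le]; simpa using a2)
    (split_map φ.symm a3)
    (by rw [← φ.le_iff_le]; simpa using b1) (by rw [← φ.le_iff_le]; simpa using b2)
    (split_map φ.symm b3)
  have := split_map φ this
  simpa [map_inf, map_sup] using this

/-- points go to points -/
theorem point_eq (φ : E ≃o E) (x y : ℝ) : ∃ X Y : ℝ, ∀ h : E, ev h x = y ↔ ev (φ h) X = Y := by
  obtain ⟨f, g, hfg⟩ := exists_Tc x y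
  obtain ⟨X, Y, hXY⟩ := Q_iff.1 (Q_map φ (Q_iff.2 ⟨x, y, hfg⟩))
  refine ⟨X, Y, fun h => ?_⟩
  rw [hfg.pass h, hXY.pass (φ h), ← map_inf, ← map_sup, split_map_iff]

theorem exists_ge_pass {h : E} {x y : ℝ} (hxy : ev h x ≤ y) : ∃ k : E, h ≤ k ∧ ev k x = y := by
  refine ⟨aff 1 (y - ev h x) one_pos * h, ?_, ?_⟩
  · intro t
    simp only [ev_mul, ev_aff]
    linarith
  · simp

theorem point_le (φ : E ≃o E) (x y : ℝ) : ∃ X Y : ℝ, ∀ h : E, ev h x ≤ y ↔ ev (φ h) X ≤ Y := by
  obtain ⟨X, Y, hXY⟩ := point_eq φ x y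
  refine ⟨X, Y, fun h => ⟨fun hh => ?_, fun hh => ?_⟩⟩
  · obtain ⟨k, hk, hk'⟩ := exists_ge_pass hh
    have := (hXY k).1 hk'
    rw [← this]
    exact (φ.le_iff_le.2 hk) X
  · obtain ⟨k, hk, hk'⟩ := exists_ge_pass hh
    have h2 := (hXY (φ.symm k)).2 (by simpa using hk')
    rw [← h2]
    have : h ≤ φ.symm k := by rw [← φ.le_iff_le]; simpa using hk
    exact this x

/-- comparison of half-planes -/
theorem sub_iff {x y x2 y2 : ℝ} :
    (∀ h : E, ev h x ≤ y → ev h x2 ≤ y2) ↔ x2 ≤ x ∧ y ≤ y2 := by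
  constructor
  · intro H
    have hx : x2 ≤ x := by
      by_contra hlt
      push Not at hlt
      obtain ⟨h, h1, h2⟩ := two_trans hlt (show y < max y y2 + 1 by
        have := le_max_left y y2; linarith)
      have := H h h1.le
      rw [h2] at this
      have := le_max_right y y2
      linarith
    refine ⟨hx, ?_⟩
    by_contra hlt
    push Not at hlt
    rcases eq_or_lt_of_le hx with h0 | h0
    · subst h0
      have := H (aff 1 (y - x2) one_pos) (by simp)
      simp at this
      linarith
    · obtain ⟨h, h1, h2⟩ := two_trans h0 (show (y2 + y) / 2 < y by linarith)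
      have := H h h2.le
      rw [h1] at this
      linarith
  · rintro ⟨h1, h2⟩ h hh
    exact ((ev_le.2 h1).trans hh).trans h2

/-- Main structure theorem: an inflationary order automorphism is a two-sided multiplication. -/
theorem inflationary (φ : E ≃o E) (hφ : ∀ h, h ≤ φ h) :
    ∃ α β : E, 1 ≤ α ∧ 1 ≤ β ∧ ∀ h, φ h = α * h * β := by
  choose X Y hXY using point_le φ
  choose X' Y' hXY' using point_le φ.symm
  -- mutual inverses
  have uniq : ∀ {a b c d : ℝ}, (∀ h : E, ev h a ≤ b ↔ ev h c ≤ d) → a = c ∧ b = d := by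
    intro a b c d H
    have h1 := sub_iff.1 (fun h => (H h).1)
    have h2 := sub_iff.1 (fun h => (H h).2)
    exact ⟨le_antisymm h2.1 h1.1, le_antisymm h1.2 h2.2⟩
  have inv1 : ∀ a b, X (X' a b) (Y' a b) = a ∧ Y (X' a b) (Y' a b) = b := by
    intro a b
    have : ∀ h : E, ev h a ≤ b ↔ ev h (X (X' a b) (Y' a b)) ≤ Y (X' a b) (Y' a b) := by
      intro h
      rw [hXY' a b h, hXY (X' a b) (Y' a b) (φ.symm h)]
      simp
    obtain ⟨h1, h2⟩ := uniq this
    exact ⟨h1.symm, h2.symm⟩
  -- order embedding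
  have emb : ∀ a b c d : ℝ, (c ≤ a ∧ b ≤ d) ↔ (X c d ≤ X a b ∧ Y a b ≤ Y c d) := by
    intro a b c d
    rw [← sub_iff, ← sub_iff]
    constructor
    · intro H h hh
      have h1 := (hXY a b (φ.symm h)).2 (by simpa using hh)
      have h2 := (hXY c d (φ.symm h)).1 (H _ h1)
      simpa using h2
    · intro H h hh
      exact (hXY c d h).2 (H _ ((hXY a b h).1 hh))
  -- inflationary
  have infl : ∀ a b : ℝ, X a b ≤ a ∧ b ≤ Y a b := by
    intro a b
    have : ∀ h : E, ev h a ≤ b → ev h (X a b) ≤ Y a b := by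
      intro h hh
      exact (hφ h _).trans ((hXY a b h).1 hh)
    exact sub_iff.1 this
  -- comparable points on a line share a coordinate
  have share : ∀ a b c d : ℝ, c ≤ a → b ≤ d → (a = c ∨ b = d) → X a b = X c d ∨ Y a b = Y c d := by
    intro a b c d h1 h2 h3
    by_contra hne
    push Not at hne
    obtain ⟨e1, e2⟩ := (emb a b c d).1 ⟨h1, h2⟩
    have e1' : X c d < X a b := lt_of_le_of_ne e1 (Ne.symm hne.1)
    have e2' : Y a b < Y c d := lt_of_le_of_ne e2 hne.2
    -- points (X a b, Y c d) and (X c d, Y a b)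
    obtain ⟨p1, p2⟩ := inv1 (X a b) (Y c d)
    obtain ⟨q1, q2⟩ := inv1 (X c d) (Y a b)
    set u := X' (X a b) (Y c d)
    set v := Y' (X a b) (Y c d)
    set s := X' (X c d) (Y a b)
    set t := Y' (X c d) (Y a b)
    have r1 := (emb a b u v).2 (by rw [p1, p2]; exact ⟨le_rfl, e2⟩)
    have r2 := (emb u v c d).2 (by rw [p1, p2]; exact ⟨e1, le_rfl⟩)
    have r3 := (emb a b s t).2 (by rw [q1, q2]; exact ⟨e1, le_rfl⟩)
    have r4 := (emb s t c d).2 (by rw [q1, q2]; exact ⟨le_rfl, e2⟩)
    have r5 : ¬ (u ≤ s ∧ t ≤ v) := by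
      rw [emb s t u v, p1, p2, q1, q2]
      rintro ⟨h, -⟩
      exact absurd h (not_le.2 e1')
    have r6 : ¬ (s ≤ u ∧ v ≤ t) := by
      rw [emb u v s t, p1, p2, q1, q2]
      rintro ⟨-, h⟩
      exact absurd h (not_le.2 e2')
    rcases h3 with h3 | h3
    · have hu : u = s := by linarith [r1.1, r2.1, r3.1, r4.1]
      rcases le_total v t with h | h
      · exact r6 ⟨hu.ge, h⟩
      · exact r5 ⟨hu.le, h⟩
    · have hv : v = t := by linarith [r1.2, r2.2, r3.2, r4.2]
      rcases le_total u s with h | h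
      · exact r5 ⟨h, hv.ge⟩
      · exact r6 ⟨h, hv.le⟩
  have Xindep' : ∀ a b d : ℝ, b ≤ d → X a b = X a d := by
    intro a b d hbd
    rcases share a b a d le_rfl hbd (Or.inl rfl) with h | h
    · exact h
    · set m := max d (Y a b) + 1
      have hm1 : d ≤ m := by have := le_max_left d (Y a b); simp only [m]; linarith
      have hm2 : Y a b < m := by have := le_max_right d (Y a b); simp only [m]; linarith
      have hm3 := (infl a m).2
      have h1 : X a b = X a m := by
        rcases share a b a m le_rfl (hbd.trans hm1) (Or.inl rfl) with h' | h'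
        · exact h'
        · linarith
      have h2 : X a d = X a m := by
        rcases share a d a m le_rfl hm1 (Or.inl rfl) with h' | h'
        · exact h'
        · linarith
      rw [h1, h2]
  have Xindep : ∀ a b : ℝ, X a b = X a 0 := by
    intro a b
    rcases le_total b 0 with h | h
    · exact Xindep' a b 0 h
    · exact (Xindep' a 0 b h).symm
  have Yindep' : ∀ a c b : ℝ, c ≤ a → Y a b = Y c b := by
    intro a c b hca
    rcases share a b c b hca le_rfl (Or.inr rfl) with h | h
    · set m := min c (X a b) - 1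
      have hm1 : m ≤ c := by have := min_le_left c (X a b); simp only [m]; linarith
      have hm2 : m < X a b := by have := min_le_right c (X a b); simp only [m]; linarith
      have hm3 := (infl m b).1
      have h1 : Y a b = Y m b := by
        rcases share a b m b (hm1.trans hca) le_rfl (Or.inr rfl) with h' | h'
        · linarith
        · exact h'
      have h2 : Y c b = Y m b := by
        rcases share c b m b hm1 le_rfl (Or.inr rfl) with h' | h'
        · linarith
        · exact h'
      rw [h1, h2]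
    · exact h
  have Yindep : ∀ a b : ℝ, Y a b = Y 0 b := by
    intro a b
    rcases le_total a 0 with h | h
    · exact (Yindep' 0 a b h).symm
    · exact Yindep' a 0 b h
  have embX : ∀ a c : ℝ, X c 0 ≤ X a 0 ↔ c ≤ a := by
    intro a c
    have := emb a 0 c 0
    rw [Yindep a 0, Yindep c 0] at this
    simpa using this.symm
  have embY : ∀ b d : ℝ, Y 0 b ≤ Y 0 d ↔ b ≤ d := by
    intro b d
    have := emb 0 b 0 d
    rw [Xindep 0 b, Xindep 0 d] at this
    simpa using this.symm
  have smX : StrictMono (fun a => X a 0) := strictMono_of_le_iff_le (fun a b => (embX b a).symm)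
  have smY : StrictMono (fun b => Y 0 b) := strictMono_of_le_iff_le (fun a b => (embY a b).symm)
  have sjX : Function.Surjective (fun a => X a 0) := by
    intro t
    refine ⟨X' t 0, ?_⟩
    show X (X' t 0) 0 = t
    rw [← Xindep (X' t 0) (Y' t 0)]
    exact (inv1 t 0).1
  have sjY : Function.Surjective (fun b => Y 0 b) := by
    intro t
    refine ⟨Y' 0 t, ?_⟩
    show Y 0 (Y' 0 t) = t
    rw [← Yindep (X' 0 t) (Y' 0 t)]
    exact (inv1 0 t).2
  set A : E := mk _ smX sjX
  set B : E := mk _ smY sjY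
  have hA : ∀ a, ev A a = X a 0 := fun a => rfl
  have hB : ∀ b, ev B b = Y 0 b := fun b => rfl
  refine ⟨B, A⁻¹, ?_, ?_, ?_⟩
  · intro t
    rw [ev_one, hB]
    exact (infl 0 t).2
  · intro t
    have h1 := (infl (ev A⁻¹ t) 0).1
    rw [← hA, ev_ev_inv] at h1
    simpa using h1
  · intro h
    apply ext'
    intro t
    have key : ∀ a b : ℝ, ev h a ≤ b ↔ ev (φ h) (ev A a) ≤ ev B b := by
      intro a b
      rw [hXY a b h, hA, hB, Xindep a b, Yindep a b]
    simp only [ev_mul]
    have k1 := (key (ev A⁻¹ t) (ev h (ev A⁻¹ t))).1 le_rfl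
    rw [ev_ev_inv] at k1
    apply le_antisymm k1
    have k2 := (key (ev A⁻¹ t) (ev B⁻¹ (ev (φ h) t))).2 (by simp)
    have k3 := (ev_le (f := B)).2 k2
    simpa using k3

end E

end Pool.Agent.H242R3.HomeoLattice
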