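import Mathlib
import Pool.Agent.H242R3.HomeoLattice

set_option autoImplicit false

namespace Pool.Agent.H242R3.HomeoLattice

namespace E

theorem mul_le_left {f g : E} (h : f ≤ g) (k : E) : k * f ≤ k * g := fun x => by
  simp only [ev_mul]; exact ev_le.2 (h x)

theorem mul_le_right {f g : E} (h : f ≤ g) (k : E) : f * k ≤ g * k := fun x => by
  simp only [ev_mul]; exact h _

/-- the centre is trivial -/
theorem center_trivial {c : E} (hc : ∀ h : E, c * h = h * c) : c = 1 := by
  apply ext'
  intro x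
  rw [ev_one]
  by_contra hne
  have h2 : (0 : ℝ) < 2 := by norm_num
  have := congrArg (fun k => ev k x) (hc (aff 2 (-x) h2))
  simp only [ev_mul, ev_aff] at this
  have e : 2 * x + -x = x := by ring
  rw [e] at this
  apply hne
  linarith

theorem form_unique {α β α' β' : E} (h : ∀ k : E, α * k * β = α' * k * β') : α = α' ∧ β = β' := by
  have h1 : ∀ k : E, (α'⁻¹ * α) * k = k * (β' * β⁻¹) := by
    intro k
    have := h k
    calc (α'⁻¹ * α) * k = α'⁻¹ * (α * k * β) * β⁻¹ := by group
      _ = α'⁻¹ * (α' * k * β') * β⁻¹ := by rw [this]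
      _ = k * (β' * β⁻¹) := by group
  have h2 : α'⁻¹ * α = β' * β⁻¹ := by simpa using h1 1
  have h3 : α'⁻¹ * α = 1 := center_trivial (fun k => by rw [h1 k, h2])
  constructor
  · exact (inv_mul_eq_one.1 h3).symm
  · rw [h2] at h3
    exact (mul_inv_eq_one.1 h3).symm

theorem left_form (m : E → E → E) (iv : E → E)
    (massoc : ∀ a b c, m (m a b) c = m a (m b c))
    (one_m : ∀ a, m 1 a = a) (m_one : ∀ a, m a 1 = a)
    (iv_m : ∀ a, m (iv a) a = 1) (m_iv : ∀ a, m a (iv a) = 1)
    (mono : ∀ a b c, a ≤ b → m c a ≤ m c b ∧ m a c ≤ m b c) :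
    (∀ a, ∃ α β : E, ∀ h, m a h = α * h * β) ∧
    (∀ a, 1 ≤ a → ∃ α β : E, 1 ≤ α ∧ 1 ≤ β ∧ ∀ h, m a h = α * h * β) := by
  have canc : ∀ a h, m (iv a) (m a h) = h := by
    intro a h; rw [← massoc, iv_m, one_m]
  have canc' : ∀ a h, m a (m (iv a) h) = h := by
    intro a h; rw [← massoc, m_iv, one_m]
  let lam : E → (E ≃o E) := fun a =>
    { toFun := m a
      invFun := m (iv a)
      left_inv := canc a
      right_inv := canc' a
      map_rel_iff' := by
        intro x y
        constructor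
        · intro h
          have := (mono _ _ (iv a) h).1
          simpa [canc] using this
        · intro h
          exact (mono _ _ a h).1 }
  have hlam : ∀ a h, lam a h = m a h := fun a h => rfl
  have hpos : ∀ a, 1 ≤ a → ∃ α β : E, 1 ≤ α ∧ 1 ≤ β ∧ ∀ h, m a h = α * h * β := by
    intro a ha
    obtain ⟨α, β, h1, h2, h3⟩ := inflationary (lam a) (by
      intro h
      have := (mono _ _ h ha).2
      rw [one_m] at this
      exact this)
    exact ⟨α, β, h1, h2, h3⟩
  refine ⟨?_, hpos⟩
  intro a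
  obtain ⟨αp, βp, -, -, hp⟩ := hpos (a ⊔ 1) le_sup_right
  obtain ⟨αq, βq, -, -, hq⟩ := hpos (iv a ⊔ 1) le_sup_right
  have e1 : m a (iv a ⊔ 1) = a ⊔ 1 := by
    rw [← hlam, map_sup, hlam, hlam, m_iv, m_one, sup_comm]
  have e2 : a = m (a ⊔ 1) (iv (iv a ⊔ 1)) := by
    conv_lhs => rw [← m_one a, ← m_iv (iv a ⊔ 1), ← massoc, e1]
  refine ⟨αp * αq⁻¹, βq⁻¹ * βp, ?_⟩
  intro h
  have e3 : m (iv (iv a ⊔ 1)) h = αq⁻¹ * h * βq⁻¹ := by
    have : m (iv a ⊔ 1) (αq⁻¹ * h * βq⁻¹) = h := by
      rw [hq]; group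
    calc m (iv (iv a ⊔ 1)) h = m (iv (iv a ⊔ 1)) (m (iv a ⊔ 1) (αq⁻¹ * h * βq⁻¹)) := by rw [this]
      _ = _ := canc _ _
  rw [e2, massoc, hp, e3]
  group

/-- a positive bump supported in `(p, q)` -/
theorem bump {p q : ℝ} (hpq : p < q) :
    ∃ a : E, 1 ≤ a ∧ a ≠ 1 ∧ ∀ x, (x ≤ p ∨ q ≤ x) → ev a x = x := by
  have h2 : (0 : ℝ) < 2 := by norm_num
  have h3 : (0 : ℝ) < 1 / 2 := by norm_num
  refine ⟨1 ⊔ (aff 2 (-p) h2 ⊓ aff (1 / 2) (q / 2) h3), le_sup_left, ?_, ?_⟩
  · intro h
    have := congrArg (fun k => ev k ((p + q) / 2)) h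
    simp only [ev_sup, ev_inf, ev_aff, ev_one] at this
    have h4 : min (2 * ((p + q) / 2) + -p) (1 / 2 * ((p + q) / 2) + q / 2) ≤ (p + q) / 2 := by
      have := le_max_right ((p + q) / 2) (min (2 * ((p + q) / 2) + -p) (1 / 2 * ((p + q) / 2) + q / 2))
      linarith
    rcases min_le_iff.1 h4 with h5 | h5 <;> linarith
  · intro x hx
    simp only [ev_sup, ev_inf, ev_aff, ev_one]
    apply max_eq_left
    rcases hx with hx | hx
    · exact (min_le_left _ _).trans (by linarith)
    · exact (min_le_right _ _).trans (by linarith)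

theorem classify (m : E → E → E) (iv : E → E)
    (massoc : ∀ a b c, m (m a b) c = m a (m b c))
    (one_m : ∀ a, m 1 a = a) (m_one : ∀ a, m a 1 = a)
    (iv_m : ∀ a, m (iv a) a = 1) (m_iv : ∀ a, m a (iv a) = 1)
    (mono : ∀ a b c, a ≤ b → m c a ≤ m c b ∧ m a c ≤ m b c) :
    (∀ a b, m a b = a * b) ∨ (∀ a b, m a b = b * a) := by
  obtain ⟨L1, L2⟩ := left_form m iv massoc one_m m_one iv_m m_iv mono
  obtain ⟨R1, -⟩ := left_form (fun a b => m b a) iv (fun a b c => (massoc c b a).symm)
    m_one one_m m_iv iv_m (fun a b c h => ⟨(mono a b c h).2, (mono a b c h).1⟩)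
  choose α β hL using L1
  choose γ δ hR using R1
  have hR' : ∀ k h, m h k = γ k * h * δ k := hR
  -- commutation
  have comm : ∀ a k, γ k * α a = α a * γ k ∧ β a * δ k = δ k * β a := by
    intro a k
    apply form_unique
    intro h
    have := massoc a h k
    rw [hR' k (m a h), hL a h, hR' k h, hL a] at this
    calc γ k * α a * h * (β a * δ k) = γ k * (α a * h * β a) * δ k := by group
      _ = α a * (γ k * h * δ k) * β a := this
      _ = α a * γ k * h * (δ k * β a) := by group
  have pos : ∀ a, 1 ≤ a → 1 ≤ α a ∧ 1 ≤ β a := by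
    intro a ha
    obtain ⟨α', β', h1, h2, h3⟩ := L2 a ha
    obtain ⟨e1, e2⟩ := form_unique (fun h => (hL a h).symm.trans (h3 h))
    rw [e1, e2]
    exact ⟨h1, h2⟩
  have prodL : ∀ a, α a * β a = a := by
    intro a
    have := hL a 1
    rw [m_one] at this
    rw [mul_one] at this
    exact this.symm
  have prodR : ∀ k, γ k * δ k = k := by
    intro k
    have := hR' k 1
    rw [one_m] at this
    rw [mul_one] at this
    exact this.symm
  -- key vanishing statements
  have van : ∀ (a : E) (p q : ℝ), 1 ≤ a → (∀ x, (x ≤ p ∨ q ≤ x) → ev a x = x) →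
      (∀ x, (x ≤ p ∨ q ≤ x) → ev (α a) x = x ∧ ev (β a) x = x) := by
    intro a p q ha hs x hx
    obtain ⟨h1, h2⟩ := pos a ha
    have h3 : ev (α a) (ev (β a) x) = x := by
      rw [← ev_mul, prodL]; exact hs x hx
    have h4 : x ≤ ev (β a) x := h2 x
    have h5 : x ≤ ev (α a) x := h1 x
    have h6 : ev (α a) x ≤ ev (α a) (ev (β a) x) := ev_le.2 h4
    have h7 : ev (β a) x ≤ ev (α a) (ev (β a) x) := h1 _
    constructor <;> linarith
  have fixing : ∀ (c k : E) (p q : ℝ), c * k = k * c → (∀ x, (x ≤ p ∨ q ≤ x) → ev k x = x) →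
      q ≤ ev c p → k = 1 := by
    intro c k p q hck hk hcp
    apply ext'
    intro x
    rw [ev_one]
    by_cases hx : x ≤ p ∨ q ≤ x
    · exact hk x hx
    · push Not at hx
      have h1 : q ≤ ev c x := hcp.trans (ev_le.2 hx.1.le)
      have h2 := congrArg (fun k => ev k x) hck
      simp only [ev_mul] at h2
      rw [hk _ (Or.inr h1)] at h2
      exact ev_inj.1 h2
  have up : ∀ (c : E) (x : ℝ), ev c x ≠ x → x < ev c x ∨ x < ev c⁻¹ x := by
    intro c x hx
    rcases lt_or_gt_of_ne hx with h | h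
    · right
      have := (ev_lt (f := c⁻¹)).2 h
      simpa using this
    · exact Or.inl h
  have disj : ∀ k l x, ev (γ k) x = x ∨ ev (δ l) x = x := by
    intro k l x
    by_contra hne
    push Not at hne
    obtain ⟨c, hc1, hc2⟩ : ∃ c : E, x < ev c x ∧ ∀ a, c * α a = α a * c := by
      rcases up _ _ hne.1 with h | h
      · exact ⟨_, h, fun a => (comm a k).1⟩
      · refine ⟨_, h, fun a => ?_⟩
        have : Commute (γ k) (α a) := (comm a k).1
        exact this.inv_left.eq
    obtain ⟨d, hd1, hd2⟩ : ∃ d : E, x < ev d x ∧ ∀ a, d * β a = β a * d := by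
      rcases up _ _ hne.2 with h | h
      · exact ⟨_, h, fun a => (comm a l).2.symm⟩
      · refine ⟨_, h, fun a => ?_⟩
        have : Commute (δ l) (β a) := (comm a l).2.symm
        exact this.inv_left.eq
    obtain ⟨a, ha1, ha2, ha3⟩ := bump (lt_min hc1 hd1)
    have hv := van a _ _ ha1 ha3
    have e1 : α a = 1 := fixing c (α a) x _ (hc2 a) (fun y hy => (hv y hy).1) (min_le_left _ _)
    have e2 : β a = 1 := fixing d (β a) x _ (hd2 a) (fun y hy => (hv y hy).2) (min_le_right _ _)
    apply ha2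
    rw [← prodL a, e1, e2, one_mul]
  -- connectedness
  have openS : ∀ (F : E → E), IsOpen {x : ℝ | ∃ k, ev (F k) x ≠ x} := by
    intro F
    have : {x : ℝ | ∃ k, ev (F k) x ≠ x} = ⋃ k, {x : ℝ | ev (F k) x ≠ x} := by
      ext x; simp
    rw [this]
    exact isOpen_iUnion fun k => isOpen_ne_fun (ev_cont _) continuous_id
  have cover : ∀ x : ℝ, (∃ k, ev (γ k) x ≠ x) ∨ (∃ k, ev (δ k) x ≠ x) := by
    intro x
    by_contra hne
    push Not at hne
    have h1 := hne.1 (aff 1 1 one_pos)
    have h2 := hne.2 (aff 1 1 one_pos)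
    have h3 := congrArg (fun k => ev k x) (prodR (aff 1 1 one_pos))
    simp only [ev_mul] at h3
    rw [h2, h1] at h3
    simp at h3
  have compl : {x : ℝ | ∃ k, ev (γ k) x ≠ x}ᶜ = {x : ℝ | ∃ k, ev (δ k) x ≠ x} := by
    ext x
    constructor
    · intro hx
      rcases cover x with h | h
      · exact absurd h hx
      · exact h
    · rintro ⟨l, hl⟩ ⟨k, hk⟩
      rcases disj k l x with h | h
      · exact hk h
      · exact hl h
  have clop : IsClopen {x : ℝ | ∃ k, ev (γ k) x ≠ x} :=
    ⟨by rw [← isOpen_compl_iff, compl]; exact openS δ, openS γ⟩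
  rcases isClopen_iff.1 clop with h | h
  · left
    have hγ : ∀ k, γ k = 1 := by
      intro k
      apply ext'
      intro x
      rw [ev_one]
      by_contra hne
      have : x ∈ {x : ℝ | ∃ k, ev (γ k) x ≠ x} := ⟨k, hne⟩
      rw [h] at this
      exact this
    intro a b
    rw [hR' b a, hγ b, one_mul]
    have := prodR b
    rw [hγ b, one_mul] at this
    rw [this]
  · right
    have hδ : ∀ k, δ k = 1 := by
      intro k
      apply ext'
      intro x
      rw [ev_one]
      by_contra hne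
      have h1 : x ∈ {x : ℝ | ∃ k, ev (δ k) x ≠ x} := ⟨k, hne⟩
      rw [← compl, h] at h1
      exact h1 trivial
    intro a b
    rw [hR' b a, hδ b, mul_one]
    have := prodR b
    rw [hδ b, mul_one] at this
    rw [this]

/-- the anti-automorphism `h ↦ -h⁻¹(-x)` -/
noncomputable def refl (h : E) : E :=
  mk (fun x => -(ev h⁻¹ (-x)))
    (fun x y hxy => by
      have : ev h⁻¹ (-y) < ev h⁻¹ (-x) := ev_lt.2 (by linarith)
      show -(ev h⁻¹ (-x)) < -(ev h⁻¹ (-y))
      linarith)
    (fun y => ⟨-(ev h (-y)), by simp⟩)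

@[simp] theorem ev_refl (h : E) (x : ℝ) : ev (refl h) x = -(ev h⁻¹ (-x)) := rfl

theorem ev_inv_eq {h : E} {x y : ℝ} : ev h⁻¹ x = y ↔ x = ev h y := by
  constructor
  · intro e; rw [← e]; simp
  · intro e; rw [e]; simp

theorem refl_refl (h : E) : refl (refl h) = h := by
  apply ext'
  intro x
  rw [ev_refl]
  have : ev (refl h)⁻¹ (-x) = -(ev h x) := by
    rw [ev_inv_eq, ev_refl]
    simp
  rw [this]; ring

theorem refl_mono {f g : E} (h : f ≤ g) : refl f ≤ refl g := by
  intro x
  rw [ev_refl, ev_refl]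
  have : ev g⁻¹ (-x) ≤ ev f⁻¹ (-x) := by
    rw [← ev_le (f := f)]
    rw [ev_ev_inv]
    calc ev f (ev g⁻¹ (-x)) ≤ ev g (ev g⁻¹ (-x)) := h _
      _ = -x := by simp
  linarith

theorem refl_mul (f g : E) : refl (f * g) = refl g * refl f := by
  apply ext'
  intro x
  rw [ev_refl, ev_mul, ev_refl, ev_refl, mul_inv_rev, ev_mul]
  simp

/-- The lattice of order automorphisms of the real line: any group operation compatible with it is
connected with composition by a lattice automorphism. -/
theorem connected_aux (m : E → E → E) (u : E) (iv : E → E)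
    (assoc : ∀ a b c : E, m (m a b) c = m a (m b c))
    (oneM : ∀ a : E, m u a = a) (mOne : ∀ a : E, m a u = a)
    (invM : ∀ a : E, m (iv a) a = u) (mInv : ∀ a : E, m a (iv a) = u)
    (mono : ∀ a b c : E, a ≤ b → m c a ≤ m c b ∧ m a c ≤ m b c) :
    ∃ φ : E ≃o E, ∀ x y : E, φ (x * y) = m (φ x) (φ y) := by
  have uu : ∀ k : E, k * u⁻¹ * u = k := fun k => by group
  have cl := classify (fun a b => m (a * u) (b * u) * u⁻¹) (fun a => iv (a * u) * u⁻¹)
    (by
      intro a b c
      show m (m (a * u) (b * u) * u⁻¹ * u) (c * u) * u⁻¹ =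
        m (a * u) (m (b * u) (c * u) * u⁻¹ * u) * u⁻¹
      rw [uu, uu, assoc])
    (by
      intro a
      show m (1 * u) (a * u) * u⁻¹ = a
      rw [one_mul, oneM]; group)
    (by
      intro a
      show m (a * u) (1 * u) * u⁻¹ = a
      rw [one_mul, mOne]; group)
    (by
      intro a
      show m (iv (a * u) * u⁻¹ * u) (a * u) * u⁻¹ = 1
      rw [uu, invM]; group)
    (by
      intro a
      show m (a * u) (iv (a * u) * u⁻¹ * u) * u⁻¹ = 1
      rw [uu, mInv]; group)
    (by
      intro a b c h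
      have := mono (a * u) (b * u) (c * u) (mul_le_right h u)
      exact ⟨mul_le_right this.1 _, mul_le_right this.2 _⟩)
  have canc : ∀ a b : E, a * u ≤ b * u ↔ a ≤ b := by
    intro a b
    constructor
    · intro h
      have := mul_le_right h u⁻¹
      simpa using this
    · intro h
      exact mul_le_right h u
  rcases cl with cl | cl
  · refine ⟨{ toFun := fun h => h * u, invFun := fun h => h * u⁻¹, left_inv := fun h => by simp, right_inv := fun h => by simp, map_rel_iff' := canc _ _ }, ?_⟩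
    intro x y
    show x * y * u = m (x * u) (y * u)
    have : m (x * u) (y * u) * u⁻¹ = x * y := cl x y
    rw [← this]; group
  · refine ⟨{ toFun := fun h => refl h * u, invFun := fun h => refl (h * u⁻¹), left_inv := fun h => by simp [refl_refl], right_inv := fun h => by simp [refl_refl], map_rel_iff' := ?_ }, ?_⟩
    · intro a b
      show refl a * u ≤ refl b * u ↔ a ≤ b
      rw [canc]
      constructor
      · intro h
        have := refl_mono h
        simpa [refl_refl] using this
      · exact refl_mono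
    · intro x y
      show refl (x * y) * u = m (refl x * u) (refl y * u)
      have : m (refl x * u) (refl y * u) * u⁻¹ = refl y * refl x := cl (refl x) (refl y)
      rw [refl_mul, ← this]; group

theorem connected (H : Group E)
    (mono : ∀ a b c : E, a ≤ b → H.mul c a ≤ H.mul c b ∧ H.mul a c ≤ H.mul b c) :
    ∃ φ : E ≃o E, ∀ x y : E, φ (instGroup.mul x y) = H.mul (φ x) (φ y) :=
  connected_aux H.mul H.one H.inv
    (fun a b c => @mul_assoc E H.toDivInvMonoid.toMonoid.toSemigroup a b c)
    (fun a => @one_mul E H.toDivInvMonoid.toMonoid.toMulOneClass a)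
    (fun a => @mul_one E H.toDivInvMonoid.toMonoid.toMulOneClass a)
    (fun a => @inv_mul_cancel E H a)
    (fun a => @mul_inv_cancel E H a) mono

theorem noncomm : ¬ ∀ x y : E, x * y = y * x := by
  intro h
  have h2 : (0 : ℝ) < 2 := by norm_num
  have := congrArg (fun k => ev k 0) (h (aff 2 0 h2) (aff 1 1 one_pos))
  simp at this

end E

end Pool.Agent.H242R3.HomeoLattice
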