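import Mathlib

set_option autoImplicit false

namespace Pool.Agent.H242R3.Lin

universe u

/-- A dual representation of a lattice by relations: joins go to intersections and meets go to
compositions. -/
structure DRep (L : Type) [Lattice L] (X : Type u) where
  r : L → X → X → Prop
  refl : ∀ N a, r N a a
  symm : ∀ {N a b}, r N a b → r N b a
  trans : ∀ {N a b c}, r N a b → r N b c → r N a c
  hsup : ∀ {M K a b}, r M a b → r K a b → r (M ⊔ K) a b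
  mono : ∀ {M K a b}, M ≤ K → r K a b → r M a b
  hinf : ∀ {M K a b}, r (M ⊓ K) a b → ∃ c, r M a c ∧ r K c b

namespace DRep

variable {L : Type} [Lattice L] {X : Type u} (D : DRep L X)

theorem two {N M K : L} {a b : X} (h : N ≤ M ⊔ K) (h1 : D.r M a b) (h2 : D.r K a b) :
    D.r N a b := D.mono h (D.hsup h1 h2)

theorem ex {M K S : L} {a b : X} (h : M ⊓ K ≤ S) (hs : D.r S a b) :
    ∃ c, D.r M c a ∧ D.r K c b := by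
  obtain ⟨c, h1, h2⟩ := D.hinf (D.mono h hs)
  exact ⟨c, D.symm h1, h2⟩

end DRep

/-- facts for the translation lemma -/
structure TF (L : Type) [Lattice L] (X2 X3 X23 Y2 Y3 Z2 Z3 Z23 A3 XA3 C3 XA ZA Dd K23 KA KAz K33 M2 M3 Bo : L) :
    Prop where
  bo : ∀ N, Bo ≤ N
  ta : K23 ⊓ Dd ≤ Bo
  tb : K23 ⊓ XA3 ≤ M2
  m2a : M2 ≤ X2
  m2b : M2 ≤ X23
  m3a : M3 ≤ X3
  m3b : M3 ≤ X23
  k2 : X2 ≤ K23
  k3 : X3 ≤ K23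
  k23 : X23 ≤ K23
  t1 : XA ≤ X23 ⊔ XA3
  tc : KA ⊓ Y2 ≤ Dd
  ka2 : X2 ≤ KA
  ka3 : A3 ≤ KA
  ka : XA ≤ KA
  td : Dd ≤ M3 ⊔ XA3
  t3 : ZA ≤ XA ⊔ Y2
  z2 : Z2 ≤ X2 ⊔ Y2
  te : KAz ⊓ Z3 ≤ Z2
  kz2 : Z2 ≤ KAz
  kz3 : A3 ≤ KAz
  kz : ZA ≤ KAz
  tf : K33 ⊓ A3 ≤ Bo
  kx : X3 ≤ K33
  ky : Y3 ≤ K33
  kk : Z3 ≤ K33
  t7 : XA3 ≤ X3 ⊔ A3
  t8 : C3 ≤ Y3 ⊔ XA3
  t9 : C3 ≤ A3 ⊔ Z3
  t5 : Z23 ≤ ZA ⊔ C3
  t6 : Z23 ≤ Z2 ⊔ Z3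

theorem transl {L : Type} [Lattice L] {X : Type u} (D : DRep L X)
    {X2 X3 X23 Y2 Y3 Z2 Z3 Z23 A3 XA3 C3 XA ZA Dd K23 KA KAz K33 M2 M3 Bo : L}
    (F : TF L X2 X3 X23 Y2 Y3 Z2 Z3 Z23 A3 XA3 C3 XA ZA Dd K23 KA KAz K33 M2 M3 Bo)
    {p q c P R u2 u3 v2 v3 : X}
    (hpq : D.r X23 p q)
    (u2p : D.r X2 u2 p) (u2c : D.r Y2 u2 c) (Pu2 : D.r Z2 P u2)
    (u3p : D.r X3 u3 p) (u3c : D.r Y3 u3 c) (Pu3 : D.r Z3 P u3)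
    (v2q : D.r X2 v2 q) (v2c : D.r Y2 v2 c) (Rv2 : D.r Z2 R v2)
    (v3q : D.r X3 v3 q) (v3c : D.r Y3 v3 c) (Rv3 : D.r Z3 R v3) : D.r Z23 P R := by
  have tr {N a b c} : D.r N a b → D.r N b c → D.r N a c := D.trans
  have sy {N a b} : D.r N a b → D.r N b a := D.symm
  have mo {M K a b} : M ≤ K → D.r K a b → D.r M a b := D.mono
  have bpc : D.r Bo p c := tr (mo (F.bo _) (sy u2p)) (mo (F.bo _) u2c)
  obtain ⟨p1, p1p, p1c⟩ := D.ex F.ta bpc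
  have qp1 : D.r M2 q p1 := tr (mo F.m2b (sy hpq)) (mo (F.m2a.trans F.k2) (sy p1p))
  obtain ⟨q1, q1q, q1p1⟩ := D.ex F.tb qp1
  have h1 : D.r XA p1 q1 := by
    refine D.two F.t1 ?_ (sy q1p1)
    exact tr (mo F.k23 p1p) (tr hpq (sy (mo F.k23 q1q)))
  obtain ⟨P1, P1p1, P1c⟩ := D.ex F.tc p1c
  have q1c : D.r Dd q1 c := by
    refine tr (D.two F.td ?_ q1p1) p1c
    refine tr (mo (F.m3a.trans F.k3) q1q) (tr (mo F.m3b (sy hpq)) (mo (F.m3a.trans F.k3) (sy p1p)))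
  obtain ⟨R1, R1q1, R1c⟩ := D.ex F.tc q1c
  have h2 : D.r ZA P1 R1 := by
    refine D.two F.t3 ?_ (tr P1c (sy R1c))
    exact tr (mo F.ka P1p1) (tr h1 (mo F.ka (sy R1q1)))
  have h3 : D.r Z2 P1 P := by
    refine tr (D.two F.z2 ?_ (tr P1c (sy u2c))) (sy Pu2)
    exact tr (mo F.ka2 P1p1) (tr (mo F.k2 p1p) (sy u2p))
  have h4 : D.r Z2 R1 R := by
    refine tr (D.two F.z2 ?_ (tr R1c (sy v2c))) (sy Rv2)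
    exact tr (mo F.ka2 R1q1) (tr (mo F.k2 q1q) (sy v2q))
  obtain ⟨P2, P2P1, P2P⟩ := D.ex F.te h3
  obtain ⟨R2, R2R1, R2R⟩ := D.ex F.te h4
  have b1 : D.r Bo u3 p1 := tr (mo (F.bo _) u3p) (mo (F.bo _) (sy p1p))
  have b2 : D.r Bo v3 q1 := tr (mo (F.bo _) v3q) (mo (F.bo _) (sy q1q))
  obtain ⟨E, Eu3, Ep1⟩ := D.ex F.tf b1
  obtain ⟨S, Sv3, Sq1⟩ := D.ex F.tf b2
  have h5 : D.r XA3 E p1 := D.two F.t7 (tr (mo F.kx Eu3) (tr u3p (mo F.k3 (sy p1p)))) Ep1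
  have h6 : D.r XA3 S q1 := D.two F.t7 (tr (mo F.kx Sv3) (tr v3q (mo F.k3 (sy q1q)))) Sq1
  have h7 : D.r C3 E S := by
    refine D.two F.t8 ?_ (tr h5 (tr (sy q1p1) (sy h6)))
    exact tr (mo F.ky Eu3) (tr u3c (tr (sy v3c) (mo F.ky (sy Sv3))))
  have h8 : D.r C3 P2 E := by
    refine D.two F.t9 (tr (mo F.kz3 P2P1) (tr (mo F.ka3 P1p1) (sy Ep1))) ?_
    exact tr P2P (tr Pu3 (mo F.kk (sy Eu3)))
  have h9 : D.r C3 R2 S := by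
    refine D.two F.t9 (tr (mo F.kz3 R2R1) (tr (mo F.ka3 R1q1) (sy Sq1))) ?_
    exact tr R2R (tr Rv3 (mo F.kk (sy Sv3)))
  have h10 : D.r Z23 P2 R2 := by
    refine D.two F.t5 ?_ (tr h8 (tr h7 (sy h9)))
    exact tr (mo F.kz P2P1) (tr h2 (mo F.kz (sy R2R1)))
  have h11 : D.r Z23 P2 P := D.two F.t6 (tr (mo F.kz2 P2P1) h3) P2P
  have h12 : D.r Z23 R2 R := D.two F.t6 (tr (mo F.kz2 R2R1) h4) R2R
  exact tr (sy h11) (tr h10 h12)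

/-- facts for the main chase, apart from those of the translation lemma -/
structure MF (L : Type) [Lattice L] (X1 Y1 Z1 X2 Y2 Z2 X3 Y3 Z3 X12 Y12 Z12 X13 Y13 Z13 X23 Y23 Z23 Wx Wy Wz
    E12 E13 E23 Bo K12x K12y K13x K13y K12z K13z Ax Bx Cx Ay By Cy
    M113x M113y M223x M223y M112x M112y M323x M323y : L) : Prop where
  bo : ∀ N, Bo ≤ N
  fx : Ax ⊓ (Bx ⊓ Cx) ≤ Wx
  fy : Ay ⊓ (By ⊓ Cy) ≤ Wy
  ax1 : X12 ≤ Ax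
  ax2 : X3 ≤ Ax
  bx1 : X1 ≤ Bx
  bx2 : X23 ≤ Bx
  cx1 : X13 ≤ Cx
  cx2 : X2 ≤ Cx
  ay1 : Y12 ≤ Ay
  ay2 : Y3 ≤ Ay
  by1 : Y1 ≤ By
  by2 : Y23 ≤ By
  cy1 : Y13 ≤ Cy
  cy2 : Y2 ≤ Cy
  k12xa : X1 ≤ K12x
  k12xb : X2 ≤ K12x
  k12xc : X12 ≤ K12x
  k12ya : Y1 ≤ K12y
  k12yb : Y2 ≤ K12y
  k12yc : Y12 ≤ K12y
  k13xa : X1 ≤ K13x
  k13xb : X3 ≤ K13x
  k13xc : X13 ≤ K13x
  k13ya : Y1 ≤ K13y
  k13yb : Y3 ≤ K13y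
  k13yc : Y13 ≤ K13y
  k12za : Z1 ≤ K12z
  k12zb : Z2 ≤ K12z
  k12zc : Z12 ≤ K12z
  k13za : Z1 ≤ K13z
  k13zb : Z3 ≤ K13z
  k13zc : Z13 ≤ K13z
  g12x : K12x ⊓ K12y ≤ X12
  g12y : K12x ⊓ K12y ≤ Y12
  g13x : K13x ⊓ K13y ≤ X13
  g13y : K13x ⊓ K13y ≤ Y13
  gP : K12z ⊓ Z3 ≤ E13 ⊔ E23
  gQ : K13z ⊓ Z2 ≤ E12 ⊔ E23
  gR : Z2 ⊓ Z3 ≤ E23
  xy2 : X2 ⊓ Y2 ≤ Bo
  xy3 : X3 ⊓ Y3 ≤ Bo
  m113x1 : M113x ≤ X1
  m113x2 : M113x ≤ X13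
  m113y1 : M113y ≤ Y1
  m113y2 : M113y ≤ Y13
  m223x1 : M223x ≤ X2
  m223x2 : M223x ≤ X23
  m223y1 : M223y ≤ Y2
  m223y2 : M223y ≤ Y23
  m112x1 : M112x ≤ X1
  m112x2 : M112x ≤ X12
  m112y1 : M112y ≤ Y1
  m112y2 : M112y ≤ Y12
  m323x1 : M323x ≤ X3
  m323x2 : M323x ≤ X23
  m323y1 : M323y ≤ Y3
  m323y2 : M323y ≤ Y23
  e13 : E13 ≤ M113x ⊔ M113y
  e23 : E23 ≤ M223x ⊔ M223y
  e12 : E12 ≤ M112x ⊔ M112y
  e23' : E23 ≤ M323x ⊔ M323y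
  e13w : E13 ≤ Wx ⊔ Wy
  e23w : E23 ≤ Wx ⊔ Wy
  e12w : E12 ≤ Wx ⊔ Wy
  z1 : Z1 ≤ X1 ⊔ Y1
  z12 : Z12 ≤ X12 ⊔ Y12
  z13 : Z13 ≤ X13 ⊔ Y13
  w1 : Wz ≤ Z12 ⊔ Z3
  w2 : Wz ≤ Z1 ⊔ Z23
  w3 : Wz ≤ Z13 ⊔ Z2

theorem chase {L : Type} [Lattice L] {X : Type u} (D : DRep L X)
    {X1 Y1 Z1 X2 Y2 Z2 X3 Y3 Z3 X12 Y12 Z12 X13 Y13 Z13 X23 Y23 Z23 Wx Wy Wz
    E12 E13 E23 Bo K12x K12y K13x K13y K12z K13z Ax Bx Cx Ay By Cy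
    M113x M113y M223x M223y M112x M112y M323x M323y
    A3 XA3 YA3 C3 XA YA ZA Dx Dy K23x K23y KAx KAy KAz K33 : L}
    (F : MF L X1 Y1 Z1 X2 Y2 Z2 X3 Y3 Z3 X12 Y12 Z12 X13 Y13 Z13 X23 Y23 Z23 Wx Wy Wz
    E12 E13 E23 Bo K12x K12y K13x K13y K12z K13z Ax Bx Cx Ay By Cy
    M113x M113y M223x M223y M112x M112y M323x M323y)
    (TX : TF L X2 X3 X23 Y2 Y3 Z2 Z3 Z23 A3 XA3 C3 XA ZA Dx K23x KAx KAz K33 M223x M323x Bo)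
    (TY : TF L Y2 Y3 Y23 X2 X3 Z2 Z3 Z23 A3 YA3 C3 YA ZA Dy K23y KAy KAz K33 M223y M323y Bo)
    {o f : X} (hx : D.r Wx o f) (hy : D.r Wy o f) : D.r Wz o f := by
  have tr {N a b c} : D.r N a b → D.r N b c → D.r N a c := D.trans
  have sy {N a b} : D.r N a b → D.r N b a := D.symm
  have mo {M K a b} : M ≤ K → D.r K a b → D.r M a b := D.mono
  obtain ⟨p, op, pf⟩ := D.hinf (D.mono F.fx hx)
  obtain ⟨q, pq, qf⟩ := D.hinf pf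
  obtain ⟨p', op', pf'⟩ := D.hinf (D.mono F.fy hy)
  obtain ⟨q', pq', qf'⟩ := D.hinf pf'
  have we {E : L} (h : E ≤ Wx ⊔ Wy) : D.r E o f := D.two h hx hy
  -- p2
  have pp' : D.r (K12x ⊓ K12y) p p' :=
    tr (mo F.g12x (mo F.ax1 (sy op))) (mo F.g12y (mo F.ay1 op'))
  obtain ⟨p2, p2p, p2p'⟩ := D.ex le_rfl pp'
  have a1 : D.r E13 p2 o := by
    refine tr (D.two F.e13 ?_ ?_) (sy (we F.e13w))
    · exact tr (mo (F.m113x1.trans F.k12xa) p2p) (tr (mo (F.m113x1.trans F.bx1) pq)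
        (mo (F.m113x2.trans F.cx1) qf))
    · exact tr (mo (F.m113y1.trans F.k12ya) p2p') (tr (mo (F.m113y1.trans F.by1) pq')
        (mo (F.m113y2.trans F.cy1) qf'))
  have a2 : D.r E23 p2 o := by
    refine tr (D.two F.e23 ?_ ?_) (sy (we F.e23w))
    · exact tr (mo (F.m223x1.trans F.k12xb) p2p) (tr (mo (F.m223x2.trans F.bx2) pq)
        (mo (F.m223x1.trans F.cx2) qf))
    · exact tr (mo (F.m223y1.trans F.k12yb) p2p') (tr (mo (F.m223y2.trans F.by2) pq')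
        (mo (F.m223y1.trans F.cy2) qf'))
  obtain ⟨P, Pp2, Po⟩ := D.ex F.gP (D.hsup a1 a2)
  -- q2
  have qq' : D.r (K13x ⊓ K13y) q q' :=
    tr (mo F.g13x (mo F.cx1 qf)) (mo F.g13y (mo F.cy1 (sy qf')))
  obtain ⟨q2, q2q, q2q'⟩ := D.ex le_rfl qq'
  have a3 : D.r E12 q2 f := by
    refine tr (D.two F.e12 ?_ ?_) (we F.e12w)
    · exact tr (mo (F.m112x1.trans F.k13xa) q2q) (tr (mo (F.m112x1.trans F.bx1) (sy pq))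
        (mo (F.m112x2.trans F.ax1) (sy op)))
    · exact tr (mo (F.m112y1.trans F.k13ya) q2q') (tr (mo (F.m112y1.trans F.by1) (sy pq'))
        (mo (F.m112y2.trans F.ay1) (sy op')))
  have a4 : D.r E23 q2 f := by
    refine tr (D.two F.e23' ?_ ?_) (we F.e23w)
    · exact tr (mo (F.m323x1.trans F.k13xb) q2q) (tr (mo (F.m323x2.trans F.bx2) (sy pq))
        (mo (F.m323x1.trans F.ax2) (sy op)))
    · exact tr (mo (F.m323y1.trans F.k13yb) q2q') (tr (mo (F.m323y2.trans F.by2) (sy pq'))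
        (mo (F.m323y1.trans F.ay2) (sy op')))
  obtain ⟨Q, Qq2, Qf⟩ := D.ex F.gQ (D.hsup a3 a4)
  -- P and o
  have b1 : D.r Z12 p2 o := D.two F.z12
    (tr (mo F.k12xc p2p) (mo F.ax1 (sy op))) (tr (mo F.k12yc p2p') (mo F.ay1 (sy op')))
  have b2 : D.r Wz o P := D.two F.w1 (sy (tr (mo F.k12zc Pp2) b1)) (sy Po)
  have b3 : D.r Z13 q2 f := D.two F.z13
    (tr (mo F.k13xc q2q) (mo F.cx1 qf)) (tr (mo F.k13yc q2q') (mo F.cy1 qf'))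
  have b4 : D.r Wz Q f := D.two F.w3 (tr (mo F.k13zc Qq2) b3) Qf
  have b5 : D.r Z1 p2 q2 := D.two F.z1
    (tr (mo F.k12xa p2p) (tr (mo F.bx1 pq) (mo F.k13xa (sy q2q))))
    (tr (mo F.k12ya p2p') (tr (mo F.by1 pq') (mo F.k13ya (sy q2q'))))
  have b6 : D.r Z1 P Q := tr (mo F.k12za Pp2) (tr b5 (mo F.k13za (sy Qq2)))
  -- R
  have bq : D.r Bo q p' := tr (mo (F.bo _) qf) (tr (mo (F.bo _) (sy hx)) (mo (F.bo _) op'))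
  obtain ⟨r2, r2q, r2p'⟩ := D.ex F.xy2 bq
  obtain ⟨r3, r3q, r3p'⟩ := D.ex F.xy3 bq
  have c1 : D.r E23 r2 f := D.two F.e23
    (tr (mo F.m223x1 r2q) (mo (F.m223x1.trans F.cx2) qf))
    (tr (mo F.m223y1 r2p') (tr (mo (F.m223y2.trans F.by2) pq') (mo (F.m223y1.trans F.cy2) qf')))
  have c2 : D.r E23 r3 o := D.two F.e23'
    (tr (mo F.m323x1 r3q) (tr (mo (F.m323x2.trans F.bx2) (sy pq))
      (mo (F.m323x1.trans F.ax2) (sy op))))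
    (tr (mo F.m323y1 r3p') (mo (F.m323y1.trans F.ay2) (sy op')))
  have c3 : D.r E23 r2 r3 := tr c1 (tr (sy (we F.e23w)) (sy c2))
  obtain ⟨R, Rr2, Rr3⟩ := D.ex F.gR c3
  have d1 : D.r Z23 P R := transl D TX (p := p) (q := q) (c := p') (u2 := p2) (u3 := o)
    (v2 := r2) (v3 := r3) (mo F.bx2 pq) (mo F.k12xb p2p) (mo F.k12yb p2p') (mo F.k12zb Pp2)
    (mo F.ax2 op) (mo F.ay2 op') Po r2q r2p' Rr2 r3q r3p' Rr3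
  have d2 : D.r Z23 R Q := transl D TY (p := p') (q := q') (c := q) (u2 := r2) (u3 := r3)
    (v2 := f) (v3 := q2) (mo F.by2 pq') r2p' r2q Rr2 r3p' r3q Rr3
    (mo F.cy2 (sy qf')) (mo F.cx2 (sy qf)) Qf (mo F.k13yb q2q') (mo F.k13xb q2q) (mo F.k13zb Qq2)
  have b7 : D.r Wz P Q := D.two F.w2 b6 (tr d1 d2)
  exact tr b2 (tr b7 b4)

end Pool.Agent.H242R3.Lin
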