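import Mathlib

set_option autoImplicit false

namespace Pool.Agent.H242R3.Lin

/-- class two group: `a` the coordinates modulo the centre, `c` the central coordinates -/
@[ext] structure G where
  a : Fin 7 → Bool
  c : Fin 16 → Bool

/-- index of the first factor of a basis tensor -/
def iP : Fin 16 → Fin 7 := ![0, 0, 0, 0, 0, 1, 1, 1, 1, 1, 2, 2, 2, 3, 3, 3]
/-- index of the second factor of a basis tensor -/
def iQ : Fin 16 → Fin 7 := ![2, 3, 4, 5, 6, 2, 3, 4, 5, 6, 4, 5, 6, 4, 5, 6]

/-- the cocycle -/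
def be (x y : Fin 7 → Bool) : Fin 16 → Bool := fun k => y (iP k) && x (iQ k)

namespace G

instance : Mul G := ⟨fun x y => ⟨fun i => xor (x.a i) (y.a i),
  fun k => xor (xor (x.c k) (y.c k)) (be x.a y.a k)⟩⟩
instance : One G := ⟨⟨fun _ => false, fun _ => false⟩⟩
instance : Inv G := ⟨fun x => ⟨x.a, fun k => xor (x.c k) (be x.a x.a k)⟩⟩

theorem mul_a (x y : G) (i : Fin 7) : (x * y).a i = xor (x.a i) (y.a i) := rfl
theorem mul_c (x y : G) (k : Fin 16) :
    (x * y).c k = xor (xor (x.c k) (y.c k)) (y.a (iP k) && x.a (iQ k)) := rfl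
theorem one_a (i : Fin 7) : (1 : G).a i = false := rfl
theorem one_c (k : Fin 16) : (1 : G).c k = false := rfl
theorem inv_a (x : G) (i : Fin 7) : (x⁻¹).a i = x.a i := rfl
theorem inv_c (x : G) (k : Fin 16) : (x⁻¹).c k = xor (x.c k) (x.a (iP k) && x.a (iQ k)) := rfl

instance : Group G := Group.ofLeftAxioms
  (by
    intro x y z
    apply G.ext
    · funext i; simp only [mul_a, Bool.xor_assoc]
    · funext k
      simp only [mul_c, mul_a]
      generalize x.c k = a; generalize y.c k = b; generalize z.c k = c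
      generalize x.a (iQ k) = q; generalize y.a (iP k) = r; generalize y.a (iQ k) = s
      generalize z.a (iP k) = t
      revert a b c q r s t; decide)
  (by
    intro x
    apply G.ext
    · funext i; simp only [mul_a, one_a, Bool.false_xor]
    · funext k; simp only [mul_c, one_a, one_c, Bool.false_xor, Bool.and_false, Bool.xor_false])
  (by
    intro x
    apply G.ext
    · funext i; simp only [mul_a, one_a, inv_a, Bool.xor_self]
    · funext k
      simp only [mul_c, one_c, inv_c, inv_a]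
      generalize x.c k = a; generalize x.a (iQ k) = q; generalize x.a (iP k) = r
      revert a q r; decide)

theorem conj_a (x g : G) (i : Fin 7) : (x * g * x⁻¹).a i = g.a i := by
  simp only [mul_a, inv_a]
  generalize x.a i = a; generalize g.a i = b
  revert a b; decide

theorem conj_c (x g : G) (k : Fin 16) :
    (x * g * x⁻¹).c k = xor (g.c k) (xor (be g.a x.a k) (be x.a g.a k)) := by
  simp only [mul_c, mul_a, inv_c, inv_a, be]
  generalize x.c k = a; generalize g.c k = b
  generalize x.a (iQ k) = q; generalize x.a (iP k) = r; generalize g.a (iQ k) = s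
  generalize g.a (iP k) = t
  revert a b q r s t; decide

end G

/-- bit vectors from numerals -/
def bv (n m : ℕ) : Fin n → Bool := fun i => m.testBit i.val

theorem bv_xor (n m m' : ℕ) (i : Fin n) : bv n (m ^^^ m') i = xor (bv n m i) (bv n m' i) := by
  simp [bv, Nat.testBit_xor]

theorem bv_zero (n : ℕ) (i : Fin n) : bv n 0 i = false := by simp [bv]

/-- the combination of the masks in `l` with coefficients read off at the pivots -/
def comb (l : List (Fin 16 × ℕ)) (c : Fin 16 → Bool) (k : Fin 16) : Bool :=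
  l.foldr (fun p b => xor (c p.1 && p.2.testBit k.val) b) false

theorem comb_cons (p : Fin 16 × ℕ) (l : List (Fin 16 × ℕ)) (c : Fin 16 → Bool) (k : Fin 16) :
    comb (p :: l) c k = xor (c p.1 && p.2.testBit k.val) (comb l c k) := rfl

theorem comb_xor (l : List (Fin 16 × ℕ)) (c c' : Fin 16 → Bool) (k : Fin 16) :
    comb l (fun j => xor (c j) (c' j)) k = xor (comb l c k) (comb l c' k) := by
  induction l with
  | nil => rfl
  | cons p l ih =>
    rw [comb_cons, comb_cons, comb_cons, ih]
    generalize c p.1 = a; generalize c' p.1 = b; generalize comb l c k = d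
    generalize comb l c' k = e; generalize p.2.testBit k.val = f
    revert a b d e f; decide

theorem comb_zero (l : List (Fin 16 × ℕ)) (k : Fin 16) : comb l (fun _ => false) k = false := by
  induction l with
  | nil => rfl
  | cons p l ih => rw [comb_cons, ih]; simp

/-- membership in the subspace -/
def InD (l : List (Fin 16 × ℕ)) (c : Fin 16 → Bool) : Prop := ∀ k, c k = comb l c k

instance (l : List (Fin 16 × ℕ)) (c : Fin 16 → Bool) : Decidable (InD l c) :=
  inferInstanceAs (Decidable (∀ k, c k = comb l c k))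

theorem InD.add {l : List (Fin 16 × ℕ)} {c c' : Fin 16 → Bool} (h : InD l c) (h' : InD l c') :
    InD l (fun j => xor (c j) (c' j)) := by
  intro k
  rw [comb_xor, ← h k, ← h' k]

theorem InD.zero (l : List (Fin 16 × ℕ)) : InD l (fun _ => false) := by
  intro k; rw [comb_zero]

/-- data of a normal subgroup -/
structure SD where
  W : List ℕ
  l : List (Fin 16 × ℕ)

/-- commutator form -/
def cm (x y : Fin 7 → Bool) : Fin 16 → Bool := fun k => xor (be x y k) (be y x k)

def SD.ok (s : SD) : Prop :=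
  0 ∈ s.W ∧ (∀ w ∈ s.W, ∀ w' ∈ s.W, w ^^^ w' ∈ s.W) ∧
  (∀ w ∈ s.W, ∀ w' ∈ s.W, InD s.l (be (bv 7 w) (bv 7 w'))) ∧
  (∀ w ∈ s.W, ∀ i : Fin 7, InD s.l (cm (bv 7 w) (fun j => j == i)))

instance (s : SD) : Decidable s.ok := by unfold SD.ok; infer_instance

/-- membership -/
def SD.mem (s : SD) (g : G) : Prop := (∃ w ∈ s.W, g.a = bv 7 w) ∧ InD s.l g.c

instance (s : SD) (g : G) : Decidable (s.mem g) := by unfold SD.mem; infer_instance

theorem vec_ind {p : (Fin 7 → Bool) → Prop} (h0 : p (fun _ => false))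
    (hadd : ∀ u v, p u → p v → p (fun i => xor (u i) (v i)))
    (he : ∀ i : Fin 7, p (fun j => j == i)) (v : Fin 7 → Bool) : p v := by
  have hb : ∀ (i : Fin 7), p (fun j => v i && (j == i)) := by
    intro i
    cases hv : v i
    · simpa using h0
    · simpa using he i
  have key : v = fun j => xor (v 0 && (j == 0)) (xor (v 1 && (j == 1)) (xor (v 2 && (j == 2))
      (xor (v 3 && (j == 3)) (xor (v 4 && (j == 4)) (xor (v 5 && (j == 5)) (v 6 && (j == 6))))))) := by
    funext j
    fin_cases j <;> simp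
  rw [key]
  exact hadd _ _ (hb 0) (hadd _ _ (hb 1) (hadd _ _ (hb 2) (hadd _ _ (hb 3) (hadd _ _ (hb 4)
    (hadd _ _ (hb 5) (hb 6))))))

theorem cm_add (w u v : Fin 7 → Bool) :
    cm w (fun i => xor (u i) (v i)) = fun k => xor (cm w u k) (cm w v k) := by
  funext k
  simp only [cm, be]
  generalize w (iP k) = a; generalize w (iQ k) = b; generalize u (iP k) = c
  generalize u (iQ k) = d; generalize v (iP k) = e; generalize v (iQ k) = f
  revert a b c d e f; decide

theorem SD.ok.comm {s : SD} (h : s.ok) {w : ℕ} (hw : w ∈ s.W) (v : Fin 7 → Bool) :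
    InD s.l (cm (bv 7 w) v) := by
  refine vec_ind (p := fun v => InD s.l (cm (bv 7 w) v)) ?_ ?_ ?_ v
  · have : cm (bv 7 w) (fun _ => false) = fun _ => false := by
      funext k; simp [cm, be]
    rw [this]; exact InD.zero _
  · intro u v hu hv
    rw [cm_add]; exact hu.add hv
  · exact fun i => h.2.2.2 w hw i

/-- the subgroup given by the data -/
def SD.sub (s : SD) (h : s.ok) : Subgroup G where
  carrier := {g | s.mem g}
  mul_mem' := by
    rintro x y ⟨⟨w, hw, hx⟩, hxc⟩ ⟨⟨w', hw', hy⟩, hyc⟩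
    refine ⟨⟨w ^^^ w', h.2.1 w hw w' hw', ?_⟩, ?_⟩
    · funext i; rw [G.mul_a, hx, hy, bv_xor]
    · have := (hxc.add hyc).add (h.2.2.1 w hw w' hw')
      rw [← hx, ← hy] at this
      exact this
  one_mem' := ⟨⟨0, h.1, by funext i; rw [G.one_a, bv_zero]⟩, InD.zero _⟩
  inv_mem' := by
    rintro x ⟨⟨w, hw, hx⟩, hxc⟩
    refine ⟨⟨w, hw, hx⟩, ?_⟩
    have := hxc.add (h.2.2.1 w hw w hw)
    rw [← hx] at this
    exact this

theorem SD.mem_sub {s : SD} {h : s.ok} {g : G} : g ∈ s.sub h ↔ s.mem g := Iff.rfl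

theorem SD.normal (s : SD) (h : s.ok) : (s.sub h).Normal := by
  constructor
  rintro g ⟨⟨w, hw, hx⟩, hxc⟩ x
  refine ⟨⟨w, hw, ?_⟩, ?_⟩
  · funext i; rw [G.conj_a, hx]
  · have := hxc.add (h.comm hw x.a)
    rw [← hx] at this
    have e : (x * g * x⁻¹).c = fun j => xor (g.c j) (cm g.a x.a j) := by
      funext k; rw [G.conj_c]; rfl
    rw [e]; exact this

/-- element from numerals -/
def el (w c : ℕ) : G := ⟨bv 7 w, bv 16 c⟩

theorem comb_mem (T : Subgroup G) (l : List (Fin 16 × ℕ)) (c : Fin 16 → Bool)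
    (h : ∀ p ∈ l, el 0 p.2 ∈ T) : (⟨bv 7 0, fun k => comb l c k⟩ : G) ∈ T := by
  induction l with
  | nil =>
    have : (⟨bv 7 0, fun k => comb [] c k⟩ : G) = 1 := by
      apply G.ext
      · funext i; exact bv_zero _ _
      · rfl
    rw [this]; exact T.one_mem
  | cons p l ih =>
    have ih' := ih (fun q hq => h q (List.mem_cons_of_mem _ hq))
    have hp := h p List.mem_cons_self
    cases hc : c p.1
    · convert ih' using 2
      funext k; rw [comb_cons, hc]; simp
    · have := T.mul_mem hp ih'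
      convert this using 1
      apply G.ext
      · funext i; rw [G.mul_a]; simp [el, bv_zero]
      · funext k
        show comb (p :: l) c k = xor (xor (bv 16 p.2 k) (comb l c k))
          (bv 7 0 (iP k) && bv 7 0 (iQ k))
        rw [comb_cons, hc]; simp [bv]
theorem le_of_gens {s : SD} (hs : s.ok) {T : Subgroup G} (hW : ∀ w ∈ s.W, el w 0 ∈ T)
    (hl : ∀ p ∈ s.l, el 0 p.2 ∈ T) : s.sub hs ≤ T := by
  rintro g ⟨⟨w, hw, hx⟩, hxc⟩
  have h1 := hW w hw
  have h2 := comb_mem T s.l g.c hl
  have := T.mul_mem h1 h2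
  convert this using 1
  apply G.ext
  · funext i; rw [G.mul_a, hx]; simp [el, bv_zero]
  · funext k; rw [G.mul_c, hxc k]; simp [el, bv]

/-- decidable inclusion test -/
def leT (s t : SD) : Prop := (∀ w ∈ s.W, t.mem (el w 0)) ∧ ∀ p ∈ s.l, t.mem (el 0 p.2)

instance (s t : SD) : Decidable (leT s t) := by unfold leT; infer_instance

theorem le_cert {s t : SD} (hs : s.ok) (ht : t.ok) (h : leT s t) : s.sub hs ≤ t.sub ht :=
  le_of_gens hs h.1 h.2

/-- test for `(w, c) = (w1, c1) * (w2, c2)` -/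
def isProd (w c : ℕ) (q : ℕ × ℕ × ℕ × ℕ) : Prop :=
  (∀ i : Fin 7, bv 7 w i = xor (bv 7 q.1 i) (bv 7 q.2.2.1 i)) ∧
  (∀ k : Fin 16, bv 16 c k = xor (xor (bv 16 q.2.1 k) (bv 16 q.2.2.2 k))
    (be (bv 7 q.1) (bv 7 q.2.2.1) k))

instance (w c : ℕ) (q : ℕ × ℕ × ℕ × ℕ) : Decidable (isProd w c q) := by
  unfold isProd; infer_instance

theorem el_prod {w c : ℕ} {q : ℕ × ℕ × ℕ × ℕ} (h : isProd w c q) :
    el w c = el q.1 q.2.1 * el q.2.2.1 q.2.2.2 := by
  apply G.ext
  · funext i; exact h.1 i
  · funext k; exact h.2 k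

/-- decidable test for inclusion in a join -/
def supT (s m k : SD) (certs : List (ℕ × ℕ × ℕ × ℕ)) : Prop :=
  (∀ q ∈ certs, m.mem (el q.1 q.2.1) ∧ k.mem (el q.2.2.1 q.2.2.2)) ∧
  (∀ w ∈ s.W, ∃ q ∈ certs, isProd w 0 q) ∧ (∀ p ∈ s.l, ∃ q ∈ certs, isProd 0 p.2 q)

instance (s m k : SD) (certs : List (ℕ × ℕ × ℕ × ℕ)) : Decidable (supT s m k certs) := by
  unfold supT; infer_instance

theorem sup_cert {s m k : SD} (hs : s.ok) (hm : m.ok) (hk : k.ok)
    (certs : List (ℕ × ℕ × ℕ × ℕ)) (h : supT s m k certs) :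
    s.sub hs ≤ m.sub hm ⊔ k.sub hk := by
  apply le_of_gens
  · intro w hw
    obtain ⟨q, hq, e⟩ := h.2.1 w hw
    rw [el_prod e]
    exact Subgroup.mul_mem_sup (h.1 q hq).1 (h.1 q hq).2
  · intro p hp
    obtain ⟨q, hq, e⟩ := h.2.2 p hp
    rw [el_prod e]
    exact Subgroup.mul_mem_sup (h.1 q hq).1 (h.1 q hq).2

/-- masked sum over a list of indices -/
def dotL (L : List (Fin 16)) (m : ℕ) (c : Fin 16 → Bool) : Bool :=
  L.foldr (fun k b => xor (m.testBit k.val && c k) b) false

theorem dotL_cons (k : Fin 16) (L : List (Fin 16)) (m : ℕ) (c : Fin 16 → Bool) :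
    dotL (k :: L) m c = xor (m.testBit k.val && c k) (dotL L m c) := rfl

/-- masked sum -/
def dot (m : ℕ) (c : Fin 16 → Bool) : Bool := dotL (List.finRange 16) m c

theorem dotL_xor (L : List (Fin 16)) (m m' : ℕ) (c : Fin 16 → Bool) :
    dotL L (m ^^^ m') c = xor (dotL L m c) (dotL L m' c) := by
  induction L with
  | nil => rfl
  | cons k l ih =>
    rw [dotL_cons, dotL_cons, dotL_cons, ih, Nat.testBit_xor]
    generalize m.testBit k.val = a; generalize m'.testBit k.val = b; generalize c k = d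
    generalize dotL l m c = e; generalize dotL l m' c = f
    revert a b d e f; decide

theorem dot_xor (m m' : ℕ) (c : Fin 16 → Bool) : dot (m ^^^ m') c = xor (dot m c) (dot m' c) :=
  dotL_xor _ _ _ _

theorem dot_zero (c : Fin 16 → Bool) : dot 0 c = false := by
  have : ∀ L : List (Fin 16), dotL L 0 c = false := by
    intro L
    induction L with
    | nil => rfl
    | cons k l ih => rw [dotL_cons, ih]; simp
  exact this _

theorem dot_single (k : Fin 16) (c : Fin 16 → Bool) : dot (1 <<< k.val) c = c k := by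
  have e : List.finRange 16 = [0, 1, 2, 3, 4, 5, 6, 7, 8, 9, 10, 11, 12, 13, 14, 15] := by decide
  unfold dot dotL
  rw [e]
  simp only [List.foldr_cons, List.foldr_nil]
  fin_cases k <;> simp [Nat.testBit]

/-- check mask -/
def mu (l : List (Fin 16 × ℕ)) (k : Fin 16) : ℕ :=
  (1 <<< k.val) ^^^ l.foldr (fun p m => (if p.2.testBit k.val then 1 <<< p.1.val else 0) ^^^ m) 0

theorem dot_mu (l : List (Fin 16 × ℕ)) (k : Fin 16) (c : Fin 16 → Bool) :
    dot (mu l k) c = xor (c k) (comb l c k) := by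
  unfold mu
  rw [dot_xor, dot_single]
  congr 1
  induction l with
  | nil => exact dot_zero c
  | cons p l ih =>
    rw [List.foldr_cons, dot_xor, ih, comb_cons]
    congr 1
    cases h : p.2.testBit k.val
    · simp [dot_zero]
    · simp [dot_single]

theorem InD_iff (l : List (Fin 16 × ℕ)) (c : Fin 16 → Bool) :
    InD l c ↔ ∀ k, dot (mu l k) c = false := by
  unfold InD
  constructor
  · intro h k; rw [dot_mu, ← h k, Bool.xor_self]
  · intro h k
    have := h k
    rw [dot_mu] at this
    revert this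
    generalize c k = a; generalize comb l c k = b
    revert a b; decide

/-- sum of the check masks with indices in a list -/
def smu (l : List (Fin 16 × ℕ)) (I : List (Fin 16)) : ℕ := I.foldr (fun k m => mu l k ^^^ m) 0

theorem dot_smu {l : List (Fin 16 × ℕ)} {c : Fin 16 → Bool} (h : InD l c) (I : List (Fin 16)) :
    dot (smu l I) c = false := by
  rw [InD_iff] at h
  induction I with
  | nil => exact dot_zero c
  | cons k I ih =>
    show dot (mu l k ^^^ smu l I) c = false
    rw [dot_xor, h, ih]; rfl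

/-- decidable test for inclusion of a meet -/
def infT (s t u : SD) (certs : List (List (Fin 16) × List (Fin 16))) : Prop :=
  (∀ w ∈ s.W, ∀ w' ∈ t.W, (∀ i : Fin 7, bv 7 w i = bv 7 w' i) → w ∈ u.W) ∧
  (∀ k : Fin 16, ∃ q ∈ certs, mu u.l k = smu s.l q.1 ^^^ smu t.l q.2)

instance (s t u : SD) (certs : List (List (Fin 16) × List (Fin 16))) :
    Decidable (infT s t u certs) := by
  unfold infT; infer_instance

theorem inf_cert {s t u : SD} (hs : s.ok) (ht : t.ok) (hu : u.ok)
    (certs : List (List (Fin 16) × List (Fin 16))) (h : infT s t u certs) :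
    s.sub hs ⊓ t.sub ht ≤ u.sub hu := by
  rintro g ⟨⟨⟨w, hw, hx⟩, hxc⟩, ⟨⟨w', hw', hy⟩, hyc⟩⟩
  refine ⟨⟨w, h.1 w hw w' hw' ?_, hx⟩, ?_⟩
  · intro i; rw [← hx, ← hy]
  · rw [InD_iff]
    intro k
    obtain ⟨q, -, e⟩ := h.2 k
    rw [e, dot_xor, dot_smu hxc, dot_smu hyc]; rfl

end Pool.Agent.H242R3.Lin
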