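import Mathlib
import Pool.Agent.H242R3.LinLib

set_option autoImplicit false

namespace Pool.Agent.H242R3.Lin

/-- the lattice of normal subgroups -/
abbrev L : Type := {N : Subgroup G // N.Normal}

instance : Lattice L := Subtype.lattice
  (fun {x y} (hx : x.Normal) (hy : y.Normal) => @Subgroup.sup_normal G _ x y hx hy)
  (fun {x y} (hx : x.Normal) (hy : y.Normal) => @Subgroup.normal_inf_normal G _ x y hx hy)

/-- the element of the lattice given by data -/
def mkL (s : SD) (h : s.ok) : L := ⟨s.sub h, s.normal h⟩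

theorem leL {s t : SD} (hs : s.ok) (ht : t.ok) (h : leT s t) : mkL s hs ≤ mkL t ht :=
  le_cert hs ht h

theorem supL {s m k : SD} (hs : s.ok) (hm : m.ok) (hk : k.ok)
    (certs : List (ℕ × ℕ × ℕ × ℕ)) (h : supT s m k certs) :
    mkL s hs ≤ mkL m hm ⊔ mkL k hk :=
  sup_cert hs hm hk certs h

theorem infL {s t u : SD} (hs : s.ok) (ht : t.ok) (hu : u.ok)
    (certs : List (List (Fin 16) × List (Fin 16))) (h : infT s t u certs) :
    mkL s hs ⊓ mkL t ht ≤ mkL u hu :=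
  inf_cert hs ht hu certs h

def sX1 : SD := ⟨[0, 1], [(0, 1), (1, 2), (2, 4), (3, 8), (4, 16)]⟩
theorem oX1 : sX1.ok := by decide +kernel
def eX1 : L := mkL sX1 oX1
def sY1 : SD := ⟨[0, 2], [(5, 32), (6, 64), (7, 128), (8, 256), (9, 512)]⟩
theorem oY1 : sY1.ok := by decide +kernel
def eY1 : L := mkL sY1 oY1
def sZ1 : SD := ⟨[0, 3], [(5, 33), (6, 66), (7, 132), (8, 264), (9, 528)]⟩
theorem oZ1 : sZ1.ok := by decide +kernel
def eZ1 : L := mkL sZ1 oZ1
def sX2 : SD := ⟨[0, 4], [(0, 1), (5, 32), (10, 1024), (11, 2048), (12, 4096)]⟩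
theorem oX2 : sX2.ok := by decide +kernel
def eX2 : L := mkL sX2 oX2
def sY2 : SD := ⟨[0, 8], [(1, 2), (6, 64), (13, 8192), (14, 16384), (15, 32768)]⟩
theorem oY2 : sY2.ok := by decide +kernel
def eY2 : L := mkL sY2 oY2
def sZ2 : SD := ⟨[0, 12], [(1, 3), (6, 96), (13, 9216), (14, 18432), (15, 36864)]⟩
theorem oZ2 : sZ2.ok := by decide +kernel
def eZ2 : L := mkL sZ2 oZ2
def sX3 : SD := ⟨[0, 16], [(2, 4), (7, 128), (10, 1024), (13, 8192)]⟩
theorem oX3 : sX3.ok := by decide +kernel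
def eX3 : L := mkL sX3 oX3
def sY3 : SD := ⟨[0, 32], [(3, 8), (8, 256), (11, 2048), (14, 16384)]⟩
theorem oY3 : sY3.ok := by decide +kernel
def eY3 : L := mkL sY3 oY3
def sZ3 : SD := ⟨[0, 48], [(3, 12), (8, 384), (11, 3072), (14, 24576)]⟩
theorem oZ3 : sZ3.ok := by decide +kernel
def eZ3 : L := mkL sZ3 oZ3
def sA3 : SD := ⟨[0, 64], [(4, 16), (9, 512), (12, 4096), (15, 32768)]⟩
theorem oA3 : sA3.ok := by decide +kernel
def eA3 : L := mkL sA3 oA3
def sXA3 : SD := ⟨[0, 80], [(4, 20), (9, 640), (12, 5120), (15, 40960)]⟩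
theorem oXA3 : sXA3.ok := by decide +kernel
def eXA3 : L := mkL sXA3 oXA3
def sYA3 : SD := ⟨[0, 96], [(4, 24), (9, 768), (12, 6144), (15, 49152)]⟩
theorem oYA3 : sYA3.ok := by decide +kernel
def eYA3 : L := mkL sYA3 oYA3
def sC3 : SD := ⟨[0, 112], [(4, 28), (9, 896), (12, 7168), (15, 57344)]⟩
theorem oC3 : sC3.ok := by decide +kernel
def eC3 : L := mkL sC3 oC3
def sX12 : SD := ⟨[0, 5], [(0, 1), (1, 2), (5, 32), (10, 1028), (11, 2056), (12, 4112)]⟩
theorem oX12 : sX12.ok := by decide +kernel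
def eX12 : L := mkL sX12 oX12
def sX13 : SD := ⟨[0, 17], [(2, 4), (3, 8), (4, 16), (7, 128), (10, 1025), (13, 8194)]⟩
theorem oX13 : sX13.ok := by decide +kernel
def eX13 : L := mkL sX13 oX13
def sX23 : SD := ⟨[0, 20], [(2, 5), (7, 160), (10, 1024), (11, 2048), (12, 4096), (13, 8192)]⟩
theorem oX23 : sX23.ok := by decide +kernel
def eX23 : L := mkL sX23 oX23
def sWx : SD := ⟨[0, 21], [(0, 1), (2, 4), (7, 160), (10, 1024), (11, 2056), (12, 4112), (13, 8194)]⟩
theorem oWx : sWx.ok := by decide +kernel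
def eWx : L := mkL sWx oWx
def sXA : SD := ⟨[0, 68], [(4, 17), (9, 544), (10, 1024), (11, 2048), (12, 4096), (15, 32768)]⟩
theorem oXA : sXA.ok := by decide +kernel
def eXA : L := mkL sXA oXA
def sY12 : SD := ⟨[0, 10], [(1, 2), (5, 32), (6, 64), (13, 8320), (14, 16640), (15, 33280)]⟩
theorem oY12 : sY12.ok := by decide +kernel
def eY12 : L := mkL sY12 oY12
def sY13 : SD := ⟨[0, 34], [(3, 8), (7, 128), (8, 256), (9, 512), (11, 2080), (14, 16448)]⟩
theorem oY13 : sY13.ok := by decide +kernel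
def eY13 : L := mkL sY13 oY13
def sY23 : SD := ⟨[0, 40], [(3, 10), (8, 320), (11, 2048), (13, 8192), (14, 16384), (15, 32768)]⟩
theorem oY23 : sY23.ok := by decide +kernel
def eY23 : L := mkL sY23 oY23
def sWy : SD := ⟨[0, 42], [(3, 10), (6, 64), (8, 256), (11, 2080), (13, 8320), (14, 16384), (15, 33280)]⟩
theorem oWy : sWy.ok := by decide +kernel
def eWy : L := mkL sWy oWy
def sYA : SD := ⟨[0, 72], [(4, 18), (9, 576), (12, 4096), (13, 8192), (14, 16384), (15, 32768)]⟩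
theorem oYA : sYA.ok := by decide +kernel
def eYA : L := mkL sYA oYA
def sZ12 : SD := ⟨[0, 15], [(1, 3), (5, 33), (6, 65), (13, 9348), (14, 18696), (15, 37392)]⟩
theorem oZ12 : sZ12.ok := by decide +kernel
def eZ12 : L := mkL sZ12 oZ12
def sZ13 : SD := ⟨[0, 51], [(3, 12), (7, 132), (8, 260), (9, 528), (11, 3105), (14, 24642)]⟩
theorem oZ13 : sZ13.ok := by decide +kernel
def eZ13 : L := mkL sZ13 oZ13
def sZ23 : SD := ⟨[0, 60], [(3, 15), (8, 480), (11, 3072), (13, 9216), (14, 17408), (15, 36864)]⟩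
theorem oZ23 : sZ23.ok := by decide +kernel
def eZ23 : L := mkL sZ23 oZ23
def sWz : SD := ⟨[0, 63], [(3, 15), (6, 99), (8, 387), (11, 3105), (13, 9348), (14, 17573), (15, 37392)]⟩
theorem oWz : sWz.ok := by decide +kernel
def eWz : L := mkL sWz oWz
def sZA : SD := ⟨[0, 76], [(4, 19), (9, 608), (12, 4096), (13, 9216), (14, 18432), (15, 32768)]⟩
theorem oZA : sZA.ok := by decide +kernel
def eZA : L := mkL sZA oZA
def sDx : SD := ⟨[0], [(15, 32768)]⟩
theorem oDx : sDx.ok := by decide +kernel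
def eDx : L := mkL sDx oDx
def sDy : SD := ⟨[0], [(12, 4096)]⟩
theorem oDy : sDy.ok := by decide +kernel
def eDy : L := mkL sDy oDy
def sE12 : SD := ⟨[0], [(6, 99)]⟩
theorem oE12 : sE12.ok := by decide +kernel
def eE12 : L := mkL sE12 oE12
def sE13 : SD := ⟨[0], [(8, 396)]⟩
theorem oE13 : sE13.ok := by decide +kernel
def eE13 : L := mkL sE13 oE13
def sE23 : SD := ⟨[0], [(14, 27648)]⟩
theorem oE23 : sE23.ok := by decide +kernel
def eE23 : L := mkL sE23 oE23
def sBo : SD := ⟨[0], []⟩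
theorem oBo : sBo.ok := by decide +kernel
def eBo : L := mkL sBo oBo
def sAx : SD := ⟨[0, 5, 16, 21], [(0, 1), (1, 2), (2, 4), (5, 32), (7, 128), (10, 1024), (11, 2056), (12, 4112), (13, 8192)]⟩
theorem oAx : sAx.ok := by decide +kernel
def eAx : L := mkL sAx oAx
def sBx : SD := ⟨[0, 1, 20, 21], [(0, 1), (1, 2), (2, 4), (3, 8), (4, 16), (7, 160), (10, 1024), (11, 2048), (12, 4096), (13, 8192)]⟩
theorem oBx : sBx.ok := by decide +kernel
def eBx : L := mkL sBx oBx
def sCx : SD := ⟨[0, 4, 17, 21], [(0, 1), (2, 4), (3, 8), (4, 16), (5, 32), (7, 128), (10, 1024), (11, 2048), (12, 4096), (13, 8194)]⟩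
theorem oCx : sCx.ok := by decide +kernel
def eCx : L := mkL sCx oCx
def sBCx : SD := ⟨[0, 21], [(0, 1), (2, 4), (3, 8), (4, 16), (7, 160), (10, 1024), (11, 2048), (12, 4096), (13, 8194)]⟩
theorem oBCx : sBCx.ok := by decide +kernel
def eBCx : L := mkL sBCx oBCx
def sK12x : SD := ⟨[0, 1, 4, 5], [(0, 1), (1, 2), (2, 4), (3, 8), (4, 16), (5, 32), (10, 1024), (11, 2048), (12, 4096)]⟩
theorem oK12x : sK12x.ok := by decide +kernel
def eK12x : L := mkL sK12x oK12x
def sK13x : SD := ⟨[0, 1, 16, 17], [(0, 1), (1, 2), (2, 4), (3, 8), (4, 16), (7, 128), (10, 1024), (13, 8192)]⟩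
theorem oK13x : sK13x.ok := by decide +kernel
def eK13x : L := mkL sK13x oK13x
def sK23x : SD := ⟨[0, 4, 16, 20], [(0, 1), (2, 4), (5, 32), (7, 128), (10, 1024), (11, 2048), (12, 4096), (13, 8192)]⟩
theorem oK23x : sK23x.ok := by decide +kernel
def eK23x : L := mkL sK23x oK23x
def sKAx : SD := ⟨[0, 4, 64, 68], [(0, 1), (4, 16), (5, 32), (9, 512), (10, 1024), (11, 2048), (12, 4096), (15, 32768)]⟩
theorem oKAx : sKAx.ok := by decide +kernel
def eKAx : L := mkL sKAx oKAx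
def sM113x : SD := ⟨[0], [(2, 4), (3, 8), (4, 16)]⟩
theorem oM113x : sM113x.ok := by decide +kernel
def eM113x : L := mkL sM113x oM113x
def sM223x : SD := ⟨[0], [(10, 1024), (11, 2048), (12, 4096)]⟩
theorem oM223x : sM223x.ok := by decide +kernel
def eM223x : L := mkL sM223x oM223x
def sM112x : SD := ⟨[0], [(0, 1), (1, 2)]⟩
theorem oM112x : sM112x.ok := by decide +kernel
def eM112x : L := mkL sM112x oM112x
def sM323x : SD := ⟨[0], [(10, 1024), (13, 8192)]⟩
theorem oM323x : sM323x.ok := by decide +kernel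
def eM323x : L := mkL sM323x oM323x
def sAy : SD := ⟨[0, 10, 32, 42], [(1, 2), (3, 8), (5, 32), (6, 64), (8, 256), (11, 2048), (13, 8320), (14, 16384), (15, 33280)]⟩
theorem oAy : sAy.ok := by decide +kernel
def eAy : L := mkL sAy oAy
def sBy : SD := ⟨[0, 2, 40, 42], [(3, 10), (5, 32), (6, 64), (7, 128), (8, 256), (9, 512), (11, 2048), (13, 8192), (14, 16384), (15, 32768)]⟩
theorem oBy : sBy.ok := by decide +kernel
def eBy : L := mkL sBy oBy
def sCy : SD := ⟨[0, 8, 34, 42], [(1, 2), (3, 8), (6, 64), (7, 128), (8, 256), (9, 512), (11, 2080), (13, 8192), (14, 16384), (15, 32768)]⟩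
theorem oCy : sCy.ok := by decide +kernel
def eCy : L := mkL sCy oCy
def sBCy : SD := ⟨[0, 42], [(3, 10), (6, 64), (7, 128), (8, 256), (9, 512), (11, 2080), (13, 8192), (14, 16384), (15, 32768)]⟩
theorem oBCy : sBCy.ok := by decide +kernel
def eBCy : L := mkL sBCy oBCy
def sK12y : SD := ⟨[0, 2, 8, 10], [(1, 2), (5, 32), (6, 64), (7, 128), (8, 256), (9, 512), (13, 8192), (14, 16384), (15, 32768)]⟩
theorem oK12y : sK12y.ok := by decide +kernel
def eK12y : L := mkL sK12y oK12y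
def sK13y : SD := ⟨[0, 2, 32, 34], [(3, 8), (5, 32), (6, 64), (7, 128), (8, 256), (9, 512), (11, 2048), (14, 16384)]⟩
theorem oK13y : sK13y.ok := by decide +kernel
def eK13y : L := mkL sK13y oK13y
def sK23y : SD := ⟨[0, 8, 32, 40], [(1, 2), (3, 8), (6, 64), (8, 256), (11, 2048), (13, 8192), (14, 16384), (15, 32768)]⟩
theorem oK23y : sK23y.ok := by decide +kernel
def eK23y : L := mkL sK23y oK23y
def sKAy : SD := ⟨[0, 8, 64, 72], [(1, 2), (4, 16), (6, 64), (9, 512), (12, 4096), (13, 8192), (14, 16384), (15, 32768)]⟩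
theorem oKAy : sKAy.ok := by decide +kernel
def eKAy : L := mkL sKAy oKAy
def sM113y : SD := ⟨[0], [(7, 128), (8, 256), (9, 512)]⟩
theorem oM113y : sM113y.ok := by decide +kernel
def eM113y : L := mkL sM113y oM113y
def sM223y : SD := ⟨[0], [(13, 8192), (14, 16384), (15, 32768)]⟩
theorem oM223y : sM223y.ok := by decide +kernel
def eM223y : L := mkL sM223y oM223y
def sM112y : SD := ⟨[0], [(5, 32), (6, 64)]⟩
theorem oM112y : sM112y.ok := by decide +kernel
def eM112y : L := mkL sM112y oM112y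
def sM323y : SD := ⟨[0], [(11, 2048), (14, 16384)]⟩
theorem oM323y : sM323y.ok := by decide +kernel
def eM323y : L := mkL sM323y oM323y
def sK12z : SD := ⟨[0, 3, 12, 15], [(1, 3), (5, 33), (6, 65), (7, 132), (8, 264), (9, 528), (13, 9216), (14, 18432), (15, 36864)]⟩
theorem oK12z : sK12z.ok := by decide +kernel
def eK12z : L := mkL sK12z oK12z
def sK13z : SD := ⟨[0, 3, 48, 51], [(3, 12), (5, 33), (6, 66), (7, 132), (8, 260), (9, 528), (11, 3072), (14, 24576)]⟩
theorem oK13z : sK13z.ok := by decide +kernel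
def eK13z : L := mkL sK13z oK13z
def sKAz : SD := ⟨[0, 12, 64, 76], [(1, 3), (4, 16), (6, 96), (9, 512), (12, 4096), (13, 9216), (14, 18432), (15, 32768)]⟩
theorem oKAz : sKAz.ok := by decide +kernel
def eKAz : L := mkL sKAz oKAz
def sK33 : SD := ⟨[0, 16, 32, 48], [(2, 4), (3, 8), (7, 128), (8, 256), (10, 1024), (11, 2048), (13, 8192), (14, 16384)]⟩
theorem oK33 : sK33.ok := by decide +kernel
def eK33 : L := mkL sK33 oK33
def sEE13 : SD := ⟨[0], [(8, 396), (14, 27648)]⟩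
theorem oEE13 : sEE13.ok := by decide +kernel
def eEE13 : L := mkL sEE13 oEE13
def sEE12 : SD := ⟨[0], [(6, 99), (14, 27648)]⟩
theorem oEE12 : sEE12.ok := by decide +kernel
def eEE12 : L := mkL sEE12 oEE12

end Pool.Agent.H242R3.Lin
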