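import Mathlib
import Pool.Agent.H242R3.LinChase
import Pool.Agent.H242R3.LinData

set_option autoImplicit false

namespace Pool.Agent.H242R3.Lin

theorem bo_le (N : L) : eBo ≤ N := by
  show sBo.sub oBo ≤ N.1
  apply le_of_gens
  · intro w hw
    have : w = 0 := by simpa [sBo] using hw
    subst this
    have e : el 0 0 = 1 := by
      apply G.ext
      · funext i; exact bv_zero _ _
      · funext i; exact bv_zero _ _
    rw [e]; exact N.1.one_mem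
  · intro p hp
    simp [sBo] at hp


theorem i_Bx_Cx_BCx : eBx ⊓ eCx ≤ eBCx :=
  infL oBx oCx oBCx [([], []), ([], [1]), ([5], []), ([6], []), ([8], []), ([9], []), ([14], []), ([15], [])] (by decide +kernel)

theorem i_Ax_BCx_Wx : eAx ⊓ eBCx ≤ eWx :=
  infL oAx oBCx oWx [([], []), ([], [1]), ([3], []), ([4], []), ([], [5]), ([6], []), ([8], []), ([9], []), ([14], []), ([15], [])] (by decide +kernel)

theorem i_By_Cy_BCy : eBy ⊓ eCy ≤ eBCy :=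
  infL oBy oCy oBCy [([0], []), ([1], []), ([2], []), ([], []), ([4], []), ([], [5]), ([10], []), ([12], [])] (by decide +kernel)

theorem i_Ay_BCy_Wy : eAy ⊓ eBCy ≤ eWy :=
  infL oAy oBCy oWy [([0], []), ([], [1]), ([2], []), ([], []), ([4], []), ([], [5]), ([7], []), ([9], []), ([10], []), ([12], [])] (by decide +kernel)

theorem l_X12_Ax : eX12 ≤ eAx := leL oX12 oAx (by decide +kernel)

theorem l_X3_Ax : eX3 ≤ eAx := leL oX3 oAx (by decide +kernel)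

theorem l_X1_Bx : eX1 ≤ eBx := leL oX1 oBx (by decide +kernel)

theorem l_X23_Bx : eX23 ≤ eBx := leL oX23 oBx (by decide +kernel)

theorem l_X13_Cx : eX13 ≤ eCx := leL oX13 oCx (by decide +kernel)

theorem l_X2_Cx : eX2 ≤ eCx := leL oX2 oCx (by decide +kernel)

theorem l_Y12_Ay : eY12 ≤ eAy := leL oY12 oAy (by decide +kernel)

theorem l_Y3_Ay : eY3 ≤ eAy := leL oY3 oAy (by decide +kernel)

theorem l_Y1_By : eY1 ≤ eBy := leL oY1 oBy (by decide +kernel)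

theorem l_Y23_By : eY23 ≤ eBy := leL oY23 oBy (by decide +kernel)

theorem l_Y13_Cy : eY13 ≤ eCy := leL oY13 oCy (by decide +kernel)

theorem l_Y2_Cy : eY2 ≤ eCy := leL oY2 oCy (by decide +kernel)

theorem l_X1_K12x : eX1 ≤ eK12x := leL oX1 oK12x (by decide +kernel)

theorem l_X2_K12x : eX2 ≤ eK12x := leL oX2 oK12x (by decide +kernel)

theorem l_X12_K12x : eX12 ≤ eK12x := leL oX12 oK12x (by decide +kernel)

theorem l_Y1_K12y : eY1 ≤ eK12y := leL oY1 oK12y (by decide +kernel)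

theorem l_Y2_K12y : eY2 ≤ eK12y := leL oY2 oK12y (by decide +kernel)

theorem l_Y12_K12y : eY12 ≤ eK12y := leL oY12 oK12y (by decide +kernel)

theorem l_X1_K13x : eX1 ≤ eK13x := leL oX1 oK13x (by decide +kernel)

theorem l_X3_K13x : eX3 ≤ eK13x := leL oX3 oK13x (by decide +kernel)

theorem l_X13_K13x : eX13 ≤ eK13x := leL oX13 oK13x (by decide +kernel)

theorem l_Y1_K13y : eY1 ≤ eK13y := leL oY1 oK13y (by decide +kernel)

theorem l_Y3_K13y : eY3 ≤ eK13y := leL oY3 oK13y (by decide +kernel)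

theorem l_Y13_K13y : eY13 ≤ eK13y := leL oY13 oK13y (by decide +kernel)

theorem l_Z1_K12z : eZ1 ≤ eK12z := leL oZ1 oK12z (by decide +kernel)

theorem l_Z2_K12z : eZ2 ≤ eK12z := leL oZ2 oK12z (by decide +kernel)

theorem l_Z12_K12z : eZ12 ≤ eK12z := leL oZ12 oK12z (by decide +kernel)

theorem l_Z1_K13z : eZ1 ≤ eK13z := leL oZ1 oK13z (by decide +kernel)

theorem l_Z3_K13z : eZ3 ≤ eK13z := leL oZ3 oK13z (by decide +kernel)

theorem l_Z13_K13z : eZ13 ≤ eK13z := leL oZ13 oK13z (by decide +kernel)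

theorem i_K12x_K12y_X12 : eK12x ⊓ eK12y ≤ eX12 :=
  infL oK12x oK12y oX12 [([], []), ([], [2, 10]), ([], [3, 11]), ([], [4, 12]), ([6], []), ([7], []), ([8], []), ([9], []), ([13], []), ([14], []), ([15], [])] (by decide +kernel)

theorem i_K12x_K12y_Y12 : eK12x ⊓ eK12y ≤ eY12 :=
  infL oK12x oK12y oY12 [([], [0]), ([], []), ([], [2]), ([], [3]), ([], [4]), ([7, 13], []), ([8, 14], []), ([9, 15], []), ([], [10]), ([], [11]), ([], [12])] (by decide +kernel)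

theorem i_K13x_K13y_X13 : eK13x ⊓ eK13y ≤ eX13 :=
  infL oK13x oK13y oX13 [([], [0, 10]), ([], [1, 13]), ([], []), ([5], []), ([6], []), ([8], []), ([9], []), ([11], []), ([12], []), ([14], []), ([15], [])] (by decide +kernel)

theorem i_K13x_K13y_Y13 : eK13x ⊓ eK13y ≤ eY13 :=
  infL oK13x oK13y oY13 [([], [0]), ([], [1]), ([], [2]), ([], []), ([], [4]), ([5, 11], []), ([6, 14], []), ([], [10]), ([12], []), ([], [13]), ([15], [])] (by decide +kernel)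

theorem i_K12z_Z3_EE13 : eK12z ⊓ eZ3 ≤ eEE13 :=
  infL oK12z oZ3 oEE13 [([], [0]), ([], [1]), ([3], [2]), ([3], []), ([], [4]), ([], [5]), ([0], [0, 1, 5]), ([2, 3], [2]), ([], []), ([4], [4]), ([11], [10]), ([11], []), ([], [12]), ([10, 11], [10]), ([12], [12])] (by decide +kernel)

theorem s_EE13_E13_E23 : eEE13 ≤ eE13 ⊔ eE23 :=
  supL oEE13 oE13 oE23 [(0, 0, 0, 0), (0, 396, 0, 0), (0, 0, 0, 27648)] (by decide +kernel)

theorem i_K13z_Z2_EE12 : eK13z ⊓ eZ2 ≤ eEE12 :=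
  infL oK13z oZ2 oEE12 [([1], [0]), ([1], []), ([], [2]), ([], [3]), ([], [4]), ([0, 1], [0]), ([], []), ([], [7]), ([2], [2, 3, 7]), ([4], [4]), ([13], [10]), ([10, 13], [10]), ([12], []), ([13], []), ([15], [])] (by decide +kernel)

theorem s_EE12_E12_E23 : eEE12 ≤ eE12 ⊔ eE23 :=
  supL oEE12 oE12 oE23 [(0, 0, 0, 0), (0, 99, 0, 0), (0, 0, 0, 27648)] (by decide +kernel)

theorem i_Z2_Z3_E23 : eZ2 ⊓ eZ3 ≤ eE23 :=
  infL oZ2 oZ3 oE23 [([], [0]), ([0], [0]), ([2], []), ([3], []), ([4], []), ([], [5]), ([5], [5]), ([7], []), ([8], []), ([9], []), ([11], [10]), ([11], []), ([], [12]), ([10, 11], [10]), ([], []), ([12], [12])] (by decide +kernel)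

theorem i_X2_Y2_Bo : eX2 ⊓ eY2 ≤ eBo :=
  infL oX2 oY2 oBo [([], [0]), ([1], []), ([2], []), ([3], []), ([4], []), ([], [5]), ([6], []), ([7], []), ([8], []), ([9], []), ([], [10]), ([], [11]), ([], [12]), ([13], []), ([14], []), ([15], [])] (by decide +kernel)

theorem i_X3_Y3_Bo : eX3 ⊓ eY3 ≤ eBo :=
  infL oX3 oY3 oBo [([0], []), ([1], []), ([], [2]), ([3], []), ([4], []), ([5], []), ([6], []), ([], [7]), ([8], []), ([9], []), ([], [10]), ([11], []), ([12], []), ([], [13]), ([14], []), ([15], [])] (by decide +kernel)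

theorem l_M113x_X1 : eM113x ≤ eX1 := leL oM113x oX1 (by decide +kernel)

theorem l_M113x_X13 : eM113x ≤ eX13 := leL oM113x oX13 (by decide +kernel)

theorem l_M113y_Y1 : eM113y ≤ eY1 := leL oM113y oY1 (by decide +kernel)

theorem l_M113y_Y13 : eM113y ≤ eY13 := leL oM113y oY13 (by decide +kernel)

theorem l_M223x_X2 : eM223x ≤ eX2 := leL oM223x oX2 (by decide +kernel)

theorem l_M223x_X23 : eM223x ≤ eX23 := leL oM223x oX23 (by decide +kernel)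

theorem l_M223y_Y2 : eM223y ≤ eY2 := leL oM223y oY2 (by decide +kernel)

theorem l_M223y_Y23 : eM223y ≤ eY23 := leL oM223y oY23 (by decide +kernel)

theorem l_M112x_X1 : eM112x ≤ eX1 := leL oM112x oX1 (by decide +kernel)

theorem l_M112x_X12 : eM112x ≤ eX12 := leL oM112x oX12 (by decide +kernel)

theorem l_M112y_Y1 : eM112y ≤ eY1 := leL oM112y oY1 (by decide +kernel)

theorem l_M112y_Y12 : eM112y ≤ eY12 := leL oM112y oY12 (by decide +kernel)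

theorem l_M323x_X3 : eM323x ≤ eX3 := leL oM323x oX3 (by decide +kernel)

theorem l_M323x_X23 : eM323x ≤ eX23 := leL oM323x oX23 (by decide +kernel)

theorem l_M323y_Y3 : eM323y ≤ eY3 := leL oM323y oY3 (by decide +kernel)

theorem l_M323y_Y23 : eM323y ≤ eY23 := leL oM323y oY23 (by decide +kernel)

theorem s_E13_M113x_M113y : eE13 ≤ eM113x ⊔ eM113y :=
  supL oE13 oM113x oM113y [(0, 0, 0, 0), (0, 12, 0, 384)] (by decide +kernel)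

theorem s_E23_M223x_M223y : eE23 ≤ eM223x ⊔ eM223y :=
  supL oE23 oM223x oM223y [(0, 0, 0, 0), (0, 3072, 0, 24576)] (by decide +kernel)

theorem s_E12_M112x_M112y : eE12 ≤ eM112x ⊔ eM112y :=
  supL oE12 oM112x oM112y [(0, 0, 0, 0), (0, 3, 0, 96)] (by decide +kernel)

theorem s_E23_M323x_M323y : eE23 ≤ eM323x ⊔ eM323y :=
  supL oE23 oM323x oM323y [(0, 0, 0, 0), (0, 9216, 0, 18432)] (by decide +kernel)

theorem s_E13_Wx_Wy : eE13 ≤ eWx ⊔ eWy :=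
  supL oE13 oWx oWy [(0, 0, 0, 0), (0, 2220, 0, 2336)] (by decide +kernel)

theorem s_E23_Wx_Wy : eE23 ≤ eWx ⊔ eWy :=
  supL oE23 oWx oWy [(0, 0, 0, 0), (0, 1184, 0, 26784)] (by decide +kernel)

theorem s_E12_Wx_Wy : eE12 ≤ eWx ⊔ eWy :=
  supL oE12 oWx oWy [(0, 0, 0, 0), (0, 2057, 0, 2154)] (by decide +kernel)

theorem s_Z1_X1_Y1 : eZ1 ≤ eX1 ⊔ eY1 :=
  supL oZ1 oX1 oY1 [(0, 0, 0, 0), (1, 0, 2, 0), (0, 1, 0, 32), (0, 2, 0, 64), (0, 4, 0, 128), (0, 8, 0, 256), (0, 16, 0, 512)] (by decide +kernel)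

theorem s_Z12_X12_Y12 : eZ12 ≤ eX12 ⊔ eY12 :=
  supL oZ12 oX12 oY12 [(0, 0, 0, 0), (5, 0, 10, 32), (0, 1, 0, 2), (0, 1, 0, 32), (0, 1, 0, 64), (0, 1028, 0, 8320), (0, 2056, 0, 16640), (0, 4112, 0, 33280)] (by decide +kernel)

theorem s_Z13_X13_Y13 : eZ13 ≤ eX13 ⊔ eY13 :=
  supL oZ13 oX13 oY13 [(0, 0, 0, 0), (17, 0, 34, 128), (0, 4, 0, 8), (0, 4, 0, 128), (0, 4, 0, 256), (0, 16, 0, 512), (0, 1025, 0, 2080), (0, 8194, 0, 16448)] (by decide +kernel)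

theorem s_Wz_Z12_Z3 : eWz ≤ eZ12 ⊔ eZ3 :=
  supL oWz oZ12 oZ3 [(0, 0, 0, 0), (15, 0, 48, 0), (0, 3, 0, 12), (0, 99, 0, 0), (0, 3, 0, 384), (0, 33, 0, 3072), (0, 9348, 0, 0), (0, 9381, 0, 24576), (0, 37392, 0, 0)] (by decide +kernel)

theorem s_Wz_Z1_Z23 : eWz ≤ eZ1 ⊔ eZ23 :=
  supL oWz oZ1 oZ23 [(0, 0, 0, 0), (3, 0, 60, 0), (0, 0, 0, 15), (0, 99, 0, 0), (0, 99, 0, 480), (0, 33, 0, 3072), (0, 132, 0, 9216), (0, 165, 0, 17408), (0, 528, 0, 36864)] (by decide +kernel)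

theorem s_Wz_Z13_Z2 : eWz ≤ eZ13 ⊔ eZ2 :=
  supL oWz oZ13 oZ2 [(0, 0, 0, 0), (51, 0, 12, 27648), (0, 12, 0, 3), (0, 0, 0, 99), (0, 384, 0, 3), (0, 3105, 0, 0), (0, 132, 0, 9216), (0, 3237, 0, 18432), (0, 528, 0, 36864)] (by decide +kernel)

theorem i_K23x_Dx_Bo : eK23x ⊓ eDx ≤ eBo :=
  infL oK23x oDx oBo [([], [0]), ([1], []), ([], [2]), ([3], []), ([4], []), ([], [5]), ([6], []), ([], [7]), ([8], []), ([9], []), ([], [10]), ([], [11]), ([], [12]), ([], [13]), ([14], []), ([15], [])] (by decide +kernel)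

theorem i_K23x_XA3_M223x : eK23x ⊓ eXA3 ≤ eM223x :=
  infL oK23x oXA3 oM223x [([], [0]), ([1], []), ([4], [2]), ([3], []), ([4], []), ([], [5]), ([6], []), ([9], [7]), ([8], []), ([9], []), ([], []), ([15], [13]), ([14], []), ([15], [])] (by decide +kernel)

theorem l_X2_K23x : eX2 ≤ eK23x := leL oX2 oK23x (by decide +kernel)

theorem l_X3_K23x : eX3 ≤ eK23x := leL oX3 oK23x (by decide +kernel)

theorem l_X23_K23x : eX23 ≤ eK23x := leL oX23 oK23x (by decide +kernel)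

theorem s_XA_X23_XA3 : eXA ≤ eX23 ⊔ eXA3 :=
  supL oXA oX23 oXA3 [(0, 0, 0, 0), (20, 0, 80, 0), (0, 5, 0, 20), (0, 160, 0, 640), (0, 1024, 0, 0), (0, 2048, 0, 0), (0, 1024, 0, 5120), (0, 8192, 0, 40960)] (by decide +kernel)

theorem i_KAx_Y2_Dx : eKAx ⊓ eY2 ≤ eDx :=
  infL oKAx oY2 oDx [([], [0]), ([1], []), ([2], []), ([3], []), ([], [4]), ([], [5]), ([6], []), ([7], []), ([8], []), ([], [9]), ([], [10]), ([], [11]), ([], [12]), ([13], []), ([14], []), ([], [])] (by decide +kernel)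

theorem l_X2_KAx : eX2 ≤ eKAx := leL oX2 oKAx (by decide +kernel)

theorem l_A3_KAx : eA3 ≤ eKAx := leL oA3 oKAx (by decide +kernel)

theorem l_XA_KAx : eXA ≤ eKAx := leL oXA oKAx (by decide +kernel)

theorem s_Dx_M323x_XA3 : eDx ≤ eM323x ⊔ eXA3 :=
  supL oDx oM323x oXA3 [(0, 0, 0, 0), (0, 8192, 0, 40960)] (by decide +kernel)

theorem s_ZA_XA_Y2 : eZA ≤ eXA ⊔ eY2 :=
  supL oZA oXA oY2 [(0, 0, 0, 0), (68, 0, 8, 32768), (0, 17, 0, 2), (0, 544, 0, 64), (0, 4096, 0, 0), (0, 1024, 0, 8192), (0, 2048, 0, 16384), (0, 0, 0, 32768)] (by decide +kernel)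

theorem s_Z2_X2_Y2 : eZ2 ≤ eX2 ⊔ eY2 :=
  supL oZ2 oX2 oY2 [(0, 0, 0, 0), (4, 0, 8, 0), (0, 1, 0, 2), (0, 32, 0, 64), (0, 1024, 0, 8192), (0, 2048, 0, 16384), (0, 4096, 0, 32768)] (by decide +kernel)

theorem i_KAz_Z3_Z2 : eKAz ⊓ eZ3 ≤ eZ2 :=
  infL oKAz oZ3 oZ2 [([0], []), ([], []), ([2], []), ([3], []), ([], [4]), ([5], []), ([7], []), ([8], []), ([], [9]), ([10], []), ([11], []), ([], [12, 15])] (by decide +kernel)

theorem l_Z2_KAz : eZ2 ≤ eKAz := leL oZ2 oKAz (by decide +kernel)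

theorem l_A3_KAz : eA3 ≤ eKAz := leL oA3 oKAz (by decide +kernel)

theorem l_ZA_KAz : eZA ≤ eKAz := leL oZA oKAz (by decide +kernel)

theorem i_K33_A3_Bo : eK33 ⊓ eA3 ≤ eBo :=
  infL oK33 oA3 oBo [([0], []), ([1], []), ([], [2]), ([], [3]), ([4], []), ([5], []), ([6], []), ([], [7]), ([], [8]), ([9], []), ([], [10]), ([], [11]), ([12], []), ([], [13]), ([], [14]), ([15], [])] (by decide +kernel)

theorem l_X3_K33 : eX3 ≤ eK33 := leL oX3 oK33 (by decide +kernel)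

theorem l_Y3_K33 : eY3 ≤ eK33 := leL oY3 oK33 (by decide +kernel)

theorem l_Z3_K33 : eZ3 ≤ eK33 := leL oZ3 oK33 (by decide +kernel)

theorem s_XA3_X3_A3 : eXA3 ≤ eX3 ⊔ eA3 :=
  supL oXA3 oX3 oA3 [(0, 0, 0, 0), (16, 0, 64, 0), (0, 4, 0, 16), (0, 128, 0, 512), (0, 1024, 0, 4096), (0, 8192, 0, 32768)] (by decide +kernel)

theorem s_C3_Y3_XA3 : eC3 ≤ eY3 ⊔ eXA3 :=
  supL oC3 oY3 oXA3 [(0, 0, 0, 0), (32, 0, 80, 0), (0, 8, 0, 20), (0, 256, 0, 640), (0, 2048, 0, 5120), (0, 16384, 0, 40960)] (by decide +kernel)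

theorem s_C3_A3_Z3 : eC3 ≤ eA3 ⊔ eZ3 :=
  supL oC3 oA3 oZ3 [(0, 0, 0, 0), (64, 0, 48, 0), (0, 16, 0, 12), (0, 512, 0, 384), (0, 4096, 0, 3072), (0, 32768, 0, 24576)] (by decide +kernel)

theorem s_Z23_ZA_C3 : eZ23 ≤ eZA ⊔ eC3 :=
  supL oZ23 oZA oC3 [(0, 0, 0, 0), (76, 0, 112, 0), (0, 19, 0, 28), (0, 608, 0, 896), (0, 4096, 0, 7168), (0, 9216, 0, 0), (0, 22528, 0, 7168), (0, 27648, 0, 64512)] (by decide +kernel)

theorem s_Z23_Z2_Z3 : eZ23 ≤ eZ2 ⊔ eZ3 :=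
  supL oZ23 oZ2 oZ3 [(0, 0, 0, 0), (12, 0, 48, 0), (0, 3, 0, 12), (0, 96, 0, 384), (0, 0, 0, 3072), (0, 9216, 0, 0), (0, 9216, 0, 24576), (0, 36864, 0, 0)] (by decide +kernel)

theorem i_K23y_Dy_Bo : eK23y ⊓ eDy ≤ eBo :=
  infL oK23y oDy oBo [([0], []), ([], [1]), ([2], []), ([], [3]), ([4], []), ([5], []), ([], [6]), ([7], []), ([], [8]), ([9], []), ([10], []), ([], [11]), ([12], []), ([], [13]), ([], [14]), ([], [15])] (by decide +kernel)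

theorem i_K23y_YA3_M223y : eK23y ⊓ eYA3 ≤ eM223y :=
  infL oK23y oYA3 oM223y [([0], []), ([], [1]), ([2], []), ([4], [3]), ([4], []), ([5], []), ([], [6]), ([7], []), ([9], [8]), ([9], []), ([10], []), ([12], [11]), ([12], []), ([], [])] (by decide +kernel)

theorem l_Y2_K23y : eY2 ≤ eK23y := leL oY2 oK23y (by decide +kernel)

theorem l_Y3_K23y : eY3 ≤ eK23y := leL oY3 oK23y (by decide +kernel)

theorem l_Y23_K23y : eY23 ≤ eK23y := leL oY23 oK23y (by decide +kernel)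

theorem s_YA_Y23_YA3 : eYA ≤ eY23 ⊔ eYA3 :=
  supL oYA oY23 oYA3 [(0, 0, 0, 0), (40, 0, 96, 0), (0, 10, 0, 24), (0, 320, 0, 768), (0, 2048, 0, 6144), (0, 8192, 0, 0), (0, 16384, 0, 0), (0, 16384, 0, 49152)] (by decide +kernel)

theorem i_KAy_X2_Dy : eKAy ⊓ eX2 ≤ eDy :=
  infL oKAy oX2 oDy [([0], []), ([], [1]), ([2], []), ([3], []), ([], [4]), ([5], []), ([], [6]), ([7], []), ([8], []), ([], [9]), ([10], []), ([11], []), ([], []), ([], [13]), ([], [14]), ([], [15])] (by decide +kernel)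

theorem l_Y2_KAy : eY2 ≤ eKAy := leL oY2 oKAy (by decide +kernel)

theorem l_A3_KAy : eA3 ≤ eKAy := leL oA3 oKAy (by decide +kernel)

theorem l_YA_KAy : eYA ≤ eKAy := leL oYA oKAy (by decide +kernel)

theorem s_Dy_M323y_YA3 : eDy ≤ eM323y ⊔ eYA3 :=
  supL oDy oM323y oYA3 [(0, 0, 0, 0), (0, 2048, 0, 6144)] (by decide +kernel)

theorem s_ZA_YA_X2 : eZA ≤ eYA ⊔ eX2 :=
  supL oZA oYA oX2 [(0, 0, 0, 0), (72, 0, 4, 4096), (0, 18, 0, 1), (0, 576, 0, 32), (0, 0, 0, 4096), (0, 8192, 0, 1024), (0, 16384, 0, 2048), (0, 32768, 0, 0)] (by decide +kernel)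

theorem s_Z2_Y2_X2 : eZ2 ≤ eY2 ⊔ eX2 :=
  supL oZ2 oY2 oX2 [(0, 0, 0, 0), (8, 0, 4, 0), (0, 2, 0, 1), (0, 64, 0, 32), (0, 8192, 0, 1024), (0, 16384, 0, 2048), (0, 32768, 0, 4096)] (by decide +kernel)

theorem s_YA3_Y3_A3 : eYA3 ≤ eY3 ⊔ eA3 :=
  supL oYA3 oY3 oA3 [(0, 0, 0, 0), (32, 0, 64, 0), (0, 8, 0, 16), (0, 256, 0, 512), (0, 2048, 0, 4096), (0, 16384, 0, 32768)] (by decide +kernel)

theorem s_C3_X3_YA3 : eC3 ≤ eX3 ⊔ eYA3 :=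
  supL oC3 oX3 oYA3 [(0, 0, 0, 0), (16, 0, 96, 0), (0, 4, 0, 24), (0, 128, 0, 768), (0, 1024, 0, 6144), (0, 8192, 0, 49152)] (by decide +kernel)

theorem mf : MF L eX1 eY1 eZ1 eX2 eY2 eZ2 eX3 eY3 eZ3 eX12 eY12 eZ12 eX13 eY13 eZ13 eX23 eY23 eZ23 eWx eWy eWz eE12 eE13 eE23 eBo eK12x eK12y eK13x eK13y eK12z eK13z eAx eBx eCx eAy eBy eCy eM113x eM113y eM223x eM223y eM112x eM112y eM323x eM323y where
  bo := bo_le
  fx := (le_trans (inf_le_inf le_rfl i_Bx_Cx_BCx) i_Ax_BCx_Wx)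
  fy := (le_trans (inf_le_inf le_rfl i_By_Cy_BCy) i_Ay_BCy_Wy)
  ax1 := l_X12_Ax
  ax2 := l_X3_Ax
  bx1 := l_X1_Bx
  bx2 := l_X23_Bx
  cx1 := l_X13_Cx
  cx2 := l_X2_Cx
  ay1 := l_Y12_Ay
  ay2 := l_Y3_Ay
  by1 := l_Y1_By
  by2 := l_Y23_By
  cy1 := l_Y13_Cy
  cy2 := l_Y2_Cy
  k12xa := l_X1_K12x
  k12xb := l_X2_K12x
  k12xc := l_X12_K12x
  k12ya := l_Y1_K12y
  k12yb := l_Y2_K12y
  k12yc := l_Y12_K12y
  k13xa := l_X1_K13x
  k13xb := l_X3_K13x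
  k13xc := l_X13_K13x
  k13ya := l_Y1_K13y
  k13yb := l_Y3_K13y
  k13yc := l_Y13_K13y
  k12za := l_Z1_K12z
  k12zb := l_Z2_K12z
  k12zc := l_Z12_K12z
  k13za := l_Z1_K13z
  k13zb := l_Z3_K13z
  k13zc := l_Z13_K13z
  g12x := i_K12x_K12y_X12
  g12y := i_K12x_K12y_Y12
  g13x := i_K13x_K13y_X13
  g13y := i_K13x_K13y_Y13
  gP := (le_trans i_K12z_Z3_EE13 s_EE13_E13_E23)
  gQ := (le_trans i_K13z_Z2_EE12 s_EE12_E12_E23)
  gR := i_Z2_Z3_E23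
  xy2 := i_X2_Y2_Bo
  xy3 := i_X3_Y3_Bo
  m113x1 := l_M113x_X1
  m113x2 := l_M113x_X13
  m113y1 := l_M113y_Y1
  m113y2 := l_M113y_Y13
  m223x1 := l_M223x_X2
  m223x2 := l_M223x_X23
  m223y1 := l_M223y_Y2
  m223y2 := l_M223y_Y23
  m112x1 := l_M112x_X1
  m112x2 := l_M112x_X12
  m112y1 := l_M112y_Y1
  m112y2 := l_M112y_Y12
  m323x1 := l_M323x_X3
  m323x2 := l_M323x_X23
  m323y1 := l_M323y_Y3
  m323y2 := l_M323y_Y23
  e13 := s_E13_M113x_M113y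
  e23 := s_E23_M223x_M223y
  e12 := s_E12_M112x_M112y
  e23' := s_E23_M323x_M323y
  e13w := s_E13_Wx_Wy
  e23w := s_E23_Wx_Wy
  e12w := s_E12_Wx_Wy
  z1 := s_Z1_X1_Y1
  z12 := s_Z12_X12_Y12
  z13 := s_Z13_X13_Y13
  w1 := s_Wz_Z12_Z3
  w2 := s_Wz_Z1_Z23
  w3 := s_Wz_Z13_Z2

theorem tx : TF L eX2 eX3 eX23 eY2 eY3 eZ2 eZ3 eZ23 eA3 eXA3 eC3 eXA eZA eDx eK23x eKAx eKAz eK33 eM223x eM323x eBo where
  bo := bo_le
  ta := i_K23x_Dx_Bo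
  tb := i_K23x_XA3_M223x
  m2a := l_M223x_X2
  m2b := l_M223x_X23
  m3a := l_M323x_X3
  m3b := l_M323x_X23
  k2 := l_X2_K23x
  k3 := l_X3_K23x
  k23 := l_X23_K23x
  t1 := s_XA_X23_XA3
  tc := i_KAx_Y2_Dx
  ka2 := l_X2_KAx
  ka3 := l_A3_KAx
  ka := l_XA_KAx
  td := s_Dx_M323x_XA3
  t3 := s_ZA_XA_Y2
  z2 := s_Z2_X2_Y2
  te := i_KAz_Z3_Z2
  kz2 := l_Z2_KAz
  kz3 := l_A3_KAz
  kz := l_ZA_KAz
  tf := i_K33_A3_Bo
  kx := l_X3_K33
  ky := l_Y3_K33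
  kk := l_Z3_K33
  t7 := s_XA3_X3_A3
  t8 := s_C3_Y3_XA3
  t9 := s_C3_A3_Z3
  t5 := s_Z23_ZA_C3
  t6 := s_Z23_Z2_Z3

theorem ty : TF L eY2 eY3 eY23 eX2 eX3 eZ2 eZ3 eZ23 eA3 eYA3 eC3 eYA eZA eDy eK23y eKAy eKAz eK33 eM223y eM323y eBo where
  bo := bo_le
  ta := i_K23y_Dy_Bo
  tb := i_K23y_YA3_M223y
  m2a := l_M223y_Y2
  m2b := l_M223y_Y23
  m3a := l_M323y_Y3
  m3b := l_M323y_Y23
  k2 := l_Y2_K23y
  k3 := l_Y3_K23y
  k23 := l_Y23_K23y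
  t1 := s_YA_Y23_YA3
  tc := i_KAy_X2_Dy
  ka2 := l_Y2_KAy
  ka3 := l_A3_KAy
  ka := l_YA_KAy
  td := s_Dy_M323y_YA3
  t3 := s_ZA_YA_X2
  z2 := s_Z2_Y2_X2
  te := i_KAz_Z3_Z2
  kz2 := l_Z2_KAz
  kz3 := l_A3_KAz
  kz := l_ZA_KAz
  tf := i_K33_A3_Bo
  kx := l_Y3_K33
  ky := l_X3_K33
  kk := l_Z3_K33
  t7 := s_YA3_Y3_A3
  t8 := s_C3_X3_YA3
  t9 := s_C3_A3_Z3
  t5 := s_Z23_ZA_C3
  t6 := s_Z23_Z2_Z3


end Pool.Agent.H242R3.Lin
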