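import Mathlib
import Pool.Agent.H242R3.LinFacts

set_option autoImplicit false

namespace Pool.Agent.H242R3.Lin

universe u

theorem xor_t : ∀ a b p X Y Z : Bool, xor (xor (xor a b) p) (xor (xor X Y) Z) =
    xor (xor (xor a X) (xor b Y)) (xor p Z) := by decide

theorem xor_key (a1 a2 a3 a4 a5 a6 b1 b2 b3 b4 b5 b6 p q : Bool) :
    xor (xor (xor a1 b1) p) (xor (xor (xor a2 b2) p) (xor (xor (xor a3 b3) p)
      (xor (xor (xor a4 b4) q) (xor (xor (xor a5 b5) q) (xor (xor a6 b6) q))))) =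
    xor (xor (xor a1 (xor a2 (xor a3 (xor a4 (xor a5 a6)))))
      (xor b1 (xor b2 (xor b3 (xor b4 (xor b5 b6))))))
      (xor p (xor p (xor p (xor q (xor q q))))) := by
  rw [xor_t a5, xor_t a4, xor_t a3, xor_t a2, xor_t a1]

theorem xor_key2 (a1 a2 a3 a4 a5 a6 p q : Bool) :
    xor (xor a1 p) (xor (xor a2 p) (xor (xor a3 p)
      (xor (xor a4 q) (xor (xor a5 q) (xor a6 q))))) =
    xor (xor a1 (xor a2 (xor a3 (xor a4 (xor a5 a6)))))
      (xor (xor p (xor p p)) (xor q (xor q q))) := by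
  simp only [Bool.xor_assoc, Bool.xor_comm, Bool.xor_left_comm]

/-- a subgroup containing the first two diagonal subgroups and missing the third -/
def UU : Subgroup G where
  carrier := {g | g.a 2 = g.a 0 ∧ g.a 4 = g.a 0 ∧ g.a 3 = g.a 1 ∧ g.a 5 = g.a 1 ∧
    xor (g.c 1) (xor (g.c 3) (xor (g.c 11) (xor (g.c 5) (xor (g.c 7) (g.c 13))))) = (g.a 0 && g.a 1)}
  mul_mem' := by
    rintro x y ⟨h1, h2, h3, h4, h5⟩ ⟨k1, k2, k3, k4, k5⟩
    have e1 : iP 1 = 0 := rfl
    have e2 : iQ 1 = 3 := rfl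
    have e3 : iP 3 = 0 := rfl
    have e4 : iQ 3 = 5 := rfl
    have e5 : iP 11 = 2 := rfl
    have e6 : iQ 11 = 5 := rfl
    have e7 : iP 5 = 1 := rfl
    have e8 : iQ 5 = 2 := rfl
    have e9 : iP 7 = 1 := rfl
    have e10 : iQ 7 = 4 := rfl
    have e11 : iP 13 = 3 := rfl
    have e12 : iQ 13 = 4 := rfl
    refine ⟨?_, ?_, ?_, ?_, ?_⟩
    · rw [G.mul_a, G.mul_a, h1, k1]
    · rw [G.mul_a, G.mul_a, h2, k2]
    · rw [G.mul_a, G.mul_a, h3, k3]
    · rw [G.mul_a, G.mul_a, h4, k4]
    · simp only [G.mul_c, G.mul_a, e1, e2, e3, e4, e5, e6, e7, e8, e9, e10, e11, e12, h1, h2, h3, h4,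
        k1, k2, k3, k4]
      revert h5 k5
      generalize x.c 1 = a1; generalize x.c 3 = a2; generalize x.c 11 = a3; generalize x.c 5 = a4
      generalize x.c 7 = a5; generalize x.c 13 = a6
      generalize y.c 1 = b1; generalize y.c 3 = b2; generalize y.c 11 = b3; generalize y.c 5 = b4
      generalize y.c 7 = b5; generalize y.c 13 = b6
      generalize x.a 0 = u; generalize x.a 1 = v; generalize y.a 0 = w; generalize y.a 1 = z
      intro h5 k5
      rw [xor_key, h5, k5]
      revert u v w z; intro u v w z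
      cases u <;> cases v <;> cases w <;> cases z <;> intros <;> rfl
  one_mem' := by
    refine ⟨rfl, rfl, rfl, rfl, rfl⟩
  inv_mem' := by
    rintro x ⟨h1, h2, h3, h4, h5⟩
    have e1 : iP 1 = 0 := rfl
    have e2 : iQ 1 = 3 := rfl
    have e3 : iP 3 = 0 := rfl
    have e4 : iQ 3 = 5 := rfl
    have e5 : iP 11 = 2 := rfl
    have e6 : iQ 11 = 5 := rfl
    have e7 : iP 5 = 1 := rfl
    have e8 : iQ 5 = 2 := rfl
    have e9 : iP 7 = 1 := rfl
    have e10 : iQ 7 = 4 := rfl
    have e11 : iP 13 = 3 := rfl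
    have e12 : iQ 13 = 4 := rfl
    refine ⟨h1, h2, h3, h4, ?_⟩
    simp only [G.inv_c, G.inv_a, e1, e2, e3, e4, e5, e6, e7, e8, e9, e10, e11, e12, h1, h2, h3, h4]
    rw [xor_key2, h5]
    generalize x.a 0 = u; generalize x.a 1 = v
    revert u v; decide

theorem wx_le : sWx.sub oWx ≤ UU := by
  apply le_of_gens
  · intro w hw
    simp only [sWx, List.mem_cons, List.not_mem_nil, or_false] at hw
    rcases hw with rfl | rfl <;> refine ⟨?_, ?_, ?_, ?_, ?_⟩ <;> decide +kernel
  · intro p hp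
    simp only [sWx, List.mem_cons, List.not_mem_nil, or_false] at hp
    rcases hp with rfl | rfl | rfl | rfl | rfl | rfl | rfl <;>
      refine ⟨?_, ?_, ?_, ?_, ?_⟩ <;> decide +kernel

theorem wy_le : sWy.sub oWy ≤ UU := by
  apply le_of_gens
  · intro w hw
    simp only [sWy, List.mem_cons, List.not_mem_nil, or_false] at hw
    rcases hw with rfl | rfl <;> refine ⟨?_, ?_, ?_, ?_, ?_⟩ <;> decide +kernel
  · intro p hp
    simp only [sWy, List.mem_cons, List.not_mem_nil, or_false] at hp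
    rcases hp with rfl | rfl | rfl | rfl | rfl | rfl | rfl <;>
      refine ⟨?_, ?_, ?_, ?_, ?_⟩ <;> decide +kernel

theorem wz_mem : sWz.mem (el 63 0) := by decide +kernel

theorem wz_not_le : ¬ (eWz ≤ eWx ⊔ eWy) := by
  intro h
  have h1 : eWx.1 ⊔ eWy.1 ≤ UU := sup_le wx_le wy_le
  have h2 : el 63 0 ∈ UU := h1 (h wz_mem)
  have h3 := h2.2.2.2.2
  revert h3
  decide +kernel

/-- composition of commuting equivalence relations -/
theorem sup_comp {X : Type u} (s t : Setoid X)
    (h : ∀ x y, (∃ z, s.r x z ∧ t.r z y) ↔ (∃ z, t.r x z ∧ s.r z y)) {x y : X}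
    (hxy : (s ⊔ t).r x y) : ∃ z, s.r x z ∧ t.r z y := by
  let u : Setoid X :=
    { r := fun x y => ∃ z, s.r x z ∧ t.r z y
      iseqv :=
        { refl := fun x => ⟨x, s.iseqv.refl x, t.iseqv.refl x⟩
          symm := by
            rintro x y ⟨z, h1, h2⟩
            exact (h y x).2 ⟨z, t.iseqv.symm h2, s.iseqv.symm h1⟩
          trans := by
            rintro x y w ⟨z, h1, h2⟩ ⟨z', h3, h4⟩
            obtain ⟨v, h5, h6⟩ := (h z z').2 ⟨y, h2, h3⟩
            exact ⟨v, s.iseqv.trans h1 h5, t.iseqv.trans h6 h4⟩ } }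
  have hs : s ≤ u := fun {a b} hab => ⟨b, hab, t.iseqv.refl b⟩
  have ht : t ≤ u := fun {a b} hab => ⟨a, s.iseqv.refl a, hab⟩
  exact (sup_le hs ht) hxy

/-- the coset relation -/
def cst (N : L) : Setoid G where
  r x y := x⁻¹ * y ∈ N.1
  iseqv :=
    { refl := fun x => by simpa using N.1.one_mem
      symm := by
        intro x y h
        have := N.1.inv_mem h
        simpa using this
      trans := by
        intro x y z h1 h2
        have := N.1.mul_mem h1 h2
        have e : x⁻¹ * y * (y⁻¹ * z) = x⁻¹ * z := by group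
        rwa [e] at this }

theorem cst_iff {N : L} {x y : G} : (cst N).r x y ↔ x⁻¹ * y ∈ N.1 := Iff.rfl

theorem L_linear : ∃ (X : Type) (f : LatticeHom L (Setoid X)), Function.Injective f ∧
    ∀ (a b : L) (x y : X),
      (∃ z, (f a).r x z ∧ (f b).r z y) ↔ (∃ z, (f b).r x z ∧ (f a).r z y) := by
  have comm : ∀ (a b : L) (x y : G), (∃ z, (cst a).r x z ∧ (cst b).r z y) →
      (∃ z, (cst b).r x z ∧ (cst a).r z y) := by
    rintro a b x y ⟨z, h1, h2⟩
    rw [cst_iff] at h1 h2
    refine ⟨x * (z⁻¹ * y), ?_, ?_⟩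
    · rw [cst_iff]; simpa using h2
    · rw [cst_iff]
      have := a.2.conj_mem _ h1 (z⁻¹ * y)⁻¹
      have e : (x * (z⁻¹ * y))⁻¹ * y = (z⁻¹ * y)⁻¹ * (x⁻¹ * z) * (z⁻¹ * y)⁻¹⁻¹ := by group
      rw [e]; exact this
  have hmono : ∀ a b : L, a ≤ b → cst a ≤ cst b := fun a b h {x y} hxy => h hxy
  let f : LatticeHom L (Setoid G) :=
    { toFun := cst
      map_sup' := by
        intro a b
        apply le_antisymm
        · intro x y hxy
          have h : x⁻¹ * y ∈ a.1 ⊔ b.1 := hxy
          haveI := b.2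
          obtain ⟨m, hm, n, hn, e⟩ := Subgroup.mem_sup_of_normal_right.1 h
          have h1 : (cst a ⊔ cst b).r x (x * m) := by
            refine (le_sup_left : cst a ≤ cst a ⊔ cst b) ?_
            show x⁻¹ * (x * m) ∈ a.1
            simpa using hm
          have h2 : (cst a ⊔ cst b).r (x * m) y := by
            refine (le_sup_right : cst b ≤ cst a ⊔ cst b) ?_
            show (x * m)⁻¹ * y ∈ b.1
            have e2 : (x * m)⁻¹ * y = n := by
              have : m⁻¹ * (x⁻¹ * y) = n := by rw [← e]; group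
              rw [← this]; group
            rw [e2]; exact hn
          exact (cst a ⊔ cst b).iseqv.trans h1 h2
        · exact sup_le (hmono _ _ le_sup_left) (hmono _ _ le_sup_right)
      map_inf' := by
        intro a b
        apply le_antisymm
        · exact le_inf (hmono _ _ inf_le_left) (hmono _ _ inf_le_right)
        · intro x y hxy
          exact ⟨hxy.1, hxy.2⟩ }
  refine ⟨G, f, ?_, ?_⟩
  · intro a b h
    apply Subtype.ext
    ext g
    have h' : cst a = cst b := h
    have : (cst a).r 1 g ↔ (cst b).r 1 g := by rw [h']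
    rw [cst_iff, cst_iff] at this
    simpa using this
  · intro a b x y
    exact ⟨comm a b x y, comm b a x y⟩

theorem L_dual_not_linear : ¬ ∃ (X : Type u) (f : LatticeHom Lᵒᵈ (Setoid X)), Function.Injective f ∧
    ∀ (a b : Lᵒᵈ) (x y : X),
      (∃ z, (f a).r x z ∧ (f b).r z y) ↔ (∃ z, (f b).r x z ∧ (f a).r z y) := by
  rintro ⟨X, f, finj, hc⟩
  let D : DRep L X :=
    { r := fun N => (f (OrderDual.toDual N)).r
      refl := fun N a => (f (OrderDual.toDual N)).iseqv.refl a
      symm := fun {N a b} h => (f (OrderDual.toDual N)).iseqv.symm h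
      trans := fun {N a b c} h1 h2 => (f (OrderDual.toDual N)).iseqv.trans h1 h2
      hsup := by
        intro M K a b h1 h2
        have e : f (OrderDual.toDual (M ⊔ K)) =
            f (OrderDual.toDual M) ⊓ f (OrderDual.toDual K) := by
          rw [← map_inf]; rfl
        rw [e]; exact ⟨h1, h2⟩
      mono := by
        intro M K a b h h1
        have h2 : f (OrderDual.toDual K) ≤ f (OrderDual.toDual M) :=
          OrderHomClass.mono f (OrderDual.toDual_le_toDual.2 h)
        exact h2 h1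
      hinf := by
        intro M K a b h
        have e : f (OrderDual.toDual (M ⊓ K)) =
            f (OrderDual.toDual M) ⊔ f (OrderDual.toDual K) := by
          rw [← map_sup]; rfl
        rw [e] at h
        exact sup_comp _ _ (hc _ _) h }
  apply wz_not_le
  have h1 : ∀ a b, D.r (eWx ⊔ eWy) a b → D.r eWz a b := fun a b h =>
    chase D mf tx ty (D.mono le_sup_left h) (D.mono le_sup_right h)
  have h2 : f (OrderDual.toDual (eWx ⊔ eWy)) ≤ f (OrderDual.toDual eWz) := fun {a b} h => h1 a b h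
  have h3 : f (OrderDual.toDual (eWx ⊔ eWy ⊔ eWz)) = f (OrderDual.toDual (eWx ⊔ eWy)) := by
    have e : f (OrderDual.toDual (eWx ⊔ eWy ⊔ eWz)) =
        f (OrderDual.toDual (eWx ⊔ eWy)) ⊓ f (OrderDual.toDual eWz) := by
      rw [← map_inf]; rfl
    rw [e]; exact inf_eq_left.2 h2
  have h4 : eWx ⊔ eWy ⊔ eWz = eWx ⊔ eWy := OrderDual.toDual.injective (finj h3)
  rw [← h4]; exact le_sup_right

end Pool.Agent.H242R3.Lin
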